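import Pool.Agent.Helper57.KP.Defs
import Pool.Agent.Helper7.PNT.AP

/-!
# KP-P1: the prime number theorem for weighted sums at scale 1, uniformly in the weight

PROOF. `F(x) = f(log x - c)` is C¹ on `[1, ∞)` (and `0` outside `[e^(c-R), e^(c+R)]`). Abel summation (`sum_mul_eq_sub_integral_mul` or similar): `∑_{n ≤ N} Λ(n) F(n) = - ∫_1^N ψ(x) F'(x) dx`, `F'(x) = f'(log x - c)/x`;
`|ψ(x) - x| ≤ ε₁ x` for `x ≥ x₀` (prime number theorem: Helper7/PNT/AP, for instance `psi_ap` with modulus 1, or deduce it from `prime_number_theorem`; `S_vonMangoldt`), `c - R ≥ log x₀`, so the error is at most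
`ε₁ ∫ |f'(log x - c)| dx = ε₁ e^c ∫_{-R}^{R} e^u |f'(u)| du ≤ ε₁ e^c 2 R e^R K`; and `- ∫ x F'(x) dx = ∫ F(x) dx = e^c ∫ e^u f(u) du` (integration by parts, substitution `x = e^(c+u)`).
-/

open MeasureTheory Set Filter Topology
open Pool.Agent.Helper57.Zeta Pool.Agent.Helper57.PC Pool.Agent.Helper57.LH Pool.Agent.Helper78.SG
open Pool.Agent.Helper4.SH (om)
open Pool.Agent.Helper69.FF
open scoped ContDiff

set_option autoImplicit false

namespace Pool.Agent.Helper57.KP

/-- the sum of the von Mangoldt function -/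
private noncomputable def ps85 (x : ℝ) : ℝ := ∑ n ∈ Finset.Icc 1 ⌊x⌋₊, ArithmeticFunction.vonMangoldt n

private theorem pnt85 : Tendsto (fun x : ℝ => ps85 x / x) atTop (𝓝 1) := by
  have h := Pool.Agent.Helper7.PNT.psi_ap (q := 1) (a := 0) (isUnit_of_subsingleton _)
  simp only [Nat.totient_one, Nat.cast_one, inv_one] at h
  refine h.congr fun x => ?_
  congr 1
  unfold Pool.Agent.Helper7.PNT.S ps85
  refine Finset.sum_congr rfl fun n _ => ?_
  unfold ArithmeticFunction.vonMangoldt.residueClass
  rw [Set.indicator_of_mem]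
  exact Subsingleton.elim _ _

private theorem unif85 {ε : ℝ} (hε : 0 < ε) : ∃ x₀ : ℝ, 0 < x₀ ∧ ∀ x : ℝ, x₀ ≤ x → |ps85 x - x| ≤ ε * x := by
  have h := (Metric.tendsto_atTop.1 pnt85) ε hε
  obtain ⟨N, hN⟩ := h
  refine ⟨max N 1, lt_of_lt_of_le one_pos (le_max_right _ _), fun x hx => ?_⟩
  have hx0 : 0 < x := lt_of_lt_of_le one_pos ((le_max_right _ _).trans hx)
  have h1 := hN x ((le_max_left _ _).trans hx)
  rw [Real.dist_eq] at h1
  have h2 : ps85 x - x = (ps85 x / x - 1) * x := by
    field_simp
  rw [h2, abs_mul, abs_of_pos hx0]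
  exact mul_le_mul_of_nonneg_right h1.le hx0.le

private theorem van85 {R : ℝ} {f : ℝ → ℝ} (hs : ∀ u, f u ≠ 0 → |u| ≤ R) {u : ℝ} (hu : R < |u|) : f u = 0 := by
  by_contra h
  exact absurd (hs u h) (not_le.2 hu)

/-- the end points -/
private theorem end85 {R : ℝ} {f : ℝ → ℝ} (hf : ContDiff ℝ 1 f) (hs : ∀ u, f u ≠ 0 → |u| ≤ R) {u : ℝ} (hu : R ≤ u) : f u = 0 := by
  have h1 : ∀ v, R < v → f v = 0 := fun v hv => van85 hs (hv.trans_le (le_abs_self v))
  rcases hu.eq_or_lt with h | h
  · subst h
    have hc : Continuous f := hf.continuous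
    have h2 : Tendsto f (𝓝[>] R) (𝓝 (f R)) := hc.continuousAt.mono_left nhdsWithin_le_nhds
    have h3 : Tendsto f (𝓝[>] R) (𝓝 0) := by
      refine tendsto_const_nhds.congr' ?_
      filter_upwards [self_mem_nhdsWithin] with v hv
      exact (h1 v hv).symm
    exact tendsto_nhds_unique h2 h3
  · exact h1 u h

/-- the weight as an integral -/
private theorem rep85 {R : ℝ} {f : ℝ → ℝ} (hf : ContDiff ℝ 1 f) (hs : ∀ u, f u ≠ 0 → |u| ≤ R) (v : ℝ) :
    f v = -∫ u in Icc (-R) R, deriv f u * (if v ≤ u then 1 else 0) := by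
  have hd : Continuous (deriv f) := hf.continuous_deriv le_rfl
  have hff : ∀ a b : ℝ, ∫ u in a..b, deriv f u = f b - f a := fun a b =>
    intervalIntegral.integral_deriv_eq_sub (fun x _ => hf.differentiable (by norm_num) x) (hd.intervalIntegrable _ _)
  have h0 : f R = 0 := end85 hf hs le_rfl
  rcases lt_or_ge R v with h | h
  · rw [van85 hs (h.trans_le (le_abs_self v))]
    rw [setIntegral_congr_fun (g := fun _ => (0 : ℝ)) measurableSet_Icc, integral_zero, neg_zero]
    intro u hu
    simp only
    rw [if_neg (not_le.2 (hu.2.trans_lt h)), mul_zero]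
  · have e1 : ∫ u in Icc (-R) R, deriv f u * (if v ≤ u then 1 else 0) = ∫ u in Icc (max v (-R)) R, deriv f u := by
      have e2 : ∀ u, deriv f u * (if v ≤ u then 1 else 0) = (Ici v).indicator (deriv f) u := by
        intro u
        by_cases hu : v ≤ u
        · rw [if_pos hu, mul_one, indicator_of_mem (show u ∈ Ici v from hu)]
        · rw [if_neg hu, mul_zero, indicator_of_notMem (show u ∉ Ici v from hu)]
      simp only [e2]
      rw [setIntegral_indicator measurableSet_Ici]
      congr 2
      ext u
      simp only [mem_inter_iff, mem_Icc, mem_Ici, max_le_iff]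
      tauto
    rw [e1]
    rcases le_or_gt (-R) v with h2 | h2
    · rw [max_eq_left h2, integral_Icc_eq_integral_Ioc, ← intervalIntegral.integral_of_le h, hff, h0]
      ring
    · have h3 : f v = 0 := by
        refine van85 hs ?_
        have := neg_le_abs v
        linarith
      rw [max_eq_right h2.le, h3]
      rcases le_or_gt (-R) R with h4 | h4
      · rw [integral_Icc_eq_integral_Ioc, ← intervalIntegral.integral_of_le h4, hff, h0]
        have h5 : f (-R) = 0 := by
          have hc : Continuous f := hf.continuous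
          have h6 : Tendsto f (𝓝[<] (-R)) (𝓝 (f (-R))) := hc.continuousAt.mono_left nhdsWithin_le_nhds
          have h7 : Tendsto f (𝓝[<] (-R)) (𝓝 0) := by
            refine tendsto_const_nhds.congr' ?_
            filter_upwards [self_mem_nhdsWithin] with w hw
            have hw' : w < -R := hw
            refine (van85 hs ?_).symm
            have := neg_le_abs w
            linarith
          exact tendsto_nhds_unique h6 h7
        rw [h5]
        ring
      · rw [Icc_eq_empty (not_le.2 h4)]
        simp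

/-- the main term -/
private theorem main85 {R : ℝ} (hR : 0 < R) {f : ℝ → ℝ} (hf : ContDiff ℝ 1 f) (hs : ∀ u, f u ≠ 0 → |u| ≤ R) :
    ∫ u, Real.exp u * f u = -∫ u in Icc (-R) R, deriv f u * Real.exp u := by
  have hd : Continuous (deriv f) := hf.continuous_deriv le_rfl
  have e1 : ∫ u, Real.exp u * f u = ∫ u in Icc (-R) R, Real.exp u * f u := by
    rw [← integral_indicator measurableSet_Icc]
    refine integral_congr_ae (Eventually.of_forall fun u => ?_)
    simp only
    by_cases hu : u ∈ Icc (-R) R
    · rw [indicator_of_mem hu]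
    · rw [indicator_of_notMem hu, van85 hs, mul_zero]
      rw [mem_Icc, not_and_or, not_le, not_le] at hu
      rcases hu with h | h
      · have := neg_le_abs u
        linarith
      · exact h.trans_le (le_abs_self u)
  have hRR : -R ≤ R := by linarith
  have h0 : f R = 0 := end85 hf hs le_rfl
  have h5 : f (-R) = 0 := by
    have h6 := end85 (f := fun u => f (-u)) (R := R) (hf.comp contDiff_neg) (fun u hu => by
      have := hs (-u) hu
      rwa [abs_neg] at this) (u := R) le_rfl
    exact h6
  rw [e1, integral_Icc_eq_integral_Ioc, integral_Icc_eq_integral_Ioc, ← intervalIntegral.integral_of_le hRR,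
    ← intervalIntegral.integral_of_le hRR]
  have h1 := intervalIntegral.integral_mul_deriv_eq_deriv_mul (a := -R) (b := R) (u := f) (v := Real.exp) (u' := deriv f) (v' := Real.exp)
    (fun x _ => (hf.differentiable (by norm_num) x).hasDerivAt) (fun x _ => Real.hasDerivAt_exp x) (hd.intervalIntegrable _ _)
    (Real.continuous_exp.intervalIntegrable _ _)
  rw [h0, h5] at h1
  have e2 : (fun u => Real.exp u * f u) = fun u => f u * Real.exp u := by
    funext u
    ring
  rw [e2, h1]
  ring

theorem pnt_c1 {R K : ℝ} (hR : 0 < R) (hK : 0 ≤ K) {ε : ℝ} (hε : 0 < ε) : ∃ c₀ : ℝ, ∀ c : ℝ, c₀ ≤ c → ∀ f : ℝ → ℝ, ContDiff ℝ 1 f →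
    (∀ u, |deriv f u| ≤ K) → (∀ u, f u ≠ 0 → |u| ≤ R) → ∀ N : ℕ, Real.exp (c + R) ≤ N →
    |Real.exp (-c) * ∑ n ∈ Finset.Icc 1 N, ArithmeticFunction.vonMangoldt n * f (Real.log n - c) - ∫ u, Real.exp u * f u| ≤ ε := by
  obtain ⟨M, hM⟩ : ∃ M : ℝ, M = (K + 1) * (Real.exp R * (2 * R)) := ⟨_, rfl⟩
  have hM0 : 0 < M := by
    rw [hM]
    positivity
  obtain ⟨x₀, hx₀, hx⟩ := unif85 (ε := ε / M) (by positivity)
  refine ⟨Real.log x₀ + R, fun c hc f hf hK' hs N hN => ?_⟩
  have hd : Continuous (deriv f) := hf.continuous_deriv le_rfl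
  -- the sum
  have h1 : ∑ n ∈ Finset.Icc 1 N, ArithmeticFunction.vonMangoldt n * f (Real.log n - c) =
      -∫ u in Icc (-R) R, deriv f u * ps85 (Real.exp (c + u)) := by
    have h2 : ∀ n ∈ Finset.Icc 1 N, ArithmeticFunction.vonMangoldt n * f (Real.log n - c) =
        -∫ u in Icc (-R) R, deriv f u * (if Real.log n - c ≤ u then ArithmeticFunction.vonMangoldt n else 0) := by
      intro n _
      rw [rep85 hf hs (Real.log n - c), mul_neg, ← integral_const_mul]
      congr 1
      refine integral_congr_ae (Eventually.of_forall fun u => ?_)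
      simp only
      split_ifs <;> ring
    rw [Finset.sum_congr rfl h2, Finset.sum_neg_distrib, ← integral_finsetSum]
    · congr 1
      refine setIntegral_congr_fun measurableSet_Icc fun u hu => ?_
      rw [← Finset.mul_sum, ← Finset.sum_filter]
      congr 1
      unfold ps85
      refine Finset.sum_congr ?_ fun _ _ => rfl
      ext n
      simp only [Finset.mem_filter, Finset.mem_Icc]
      constructor
      · rintro ⟨⟨h3, h4⟩, h5⟩
        refine ⟨h3, Nat.le_floor ?_⟩
        have hn : (0 : ℝ) < n := by exact_mod_cast h3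
        rw [← Real.exp_log hn]
        exact Real.exp_le_exp.2 (by linarith)
      · rintro ⟨h3, h4⟩
        have hn : (0 : ℝ) < n := by exact_mod_cast h3
        have h5 : (n : ℝ) ≤ Real.exp (c + u) := (Nat.le_floor_iff (Real.exp_pos _).le).1 h4
        refine ⟨⟨h3, ?_⟩, ?_⟩
        · have h6 : (n : ℝ) ≤ N := h5.trans ((Real.exp_le_exp.2 (by linarith [hu.2])).trans hN)
          exact_mod_cast h6
        · have h6 : Real.log n ≤ c + u := by
            rw [Real.log_le_iff_le_exp hn]
            exact h5
          linarith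
    · intro n _
      refine Integrable.mono' (g := fun _ => K * |ArithmeticFunction.vonMangoldt n|) (integrable_const _) ?_
        (Eventually.of_forall fun u => ?_)
      · refine Measurable.aestronglyMeasurable ?_
        exact hd.measurable.mul (Measurable.ite measurableSet_Ici measurable_const measurable_const)
      · rw [norm_mul, Real.norm_eq_abs, Real.norm_eq_abs]
        refine mul_le_mul (hK' u) ?_ (abs_nonneg _) hK
        split_ifs
        · exact le_rfl
        · rw [abs_zero]
          exact abs_nonneg _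
  rw [h1, main85 hR hf hs]
  have e1 : Real.exp (-c) * -∫ u in Icc (-R) R, deriv f u * ps85 (Real.exp (c + u)) =
      -∫ u in Icc (-R) R, deriv f u * (Real.exp (-c) * ps85 (Real.exp (c + u))) := by
    rw [mul_neg, ← integral_const_mul]
    congr 1
    refine integral_congr_ae (Eventually.of_forall fun u => ?_)
    simp only
    ring
  have hmono : Monotone ps85 := by
    intro x y hxy
    exact Finset.sum_le_sum_of_subset_of_nonneg (Finset.Icc_subset_Icc le_rfl (Nat.floor_mono hxy))
      fun _ _ _ => ArithmeticFunction.vonMangoldt_nonneg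
  have hme : Measurable fun u : ℝ => ps85 (Real.exp (c + u)) :=
    hmono.measurable.comp (by fun_prop)
  have hbd : ∀ u ∈ Icc (-R) R, |Real.exp (-c) * ps85 (Real.exp (c + u)) - Real.exp u| ≤ ε / M * Real.exp R := by
    intro u hu
    have h2 : x₀ ≤ Real.exp (c + u) := by
      rw [← Real.log_le_iff_le_exp hx₀]
      linarith [hu.1]
    have h3 := hx _ h2
    have e2 : Real.exp (-c) * ps85 (Real.exp (c + u)) - Real.exp u = Real.exp (-c) * (ps85 (Real.exp (c + u)) - Real.exp (c + u)) := by
      rw [mul_sub, ← Real.exp_add]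
      congr 2
      ring
    rw [e2, abs_mul, abs_of_pos (Real.exp_pos _)]
    calc Real.exp (-c) * |ps85 (Real.exp (c + u)) - Real.exp (c + u)| ≤ Real.exp (-c) * (ε / M * Real.exp (c + u)) :=
          mul_le_mul_of_nonneg_left h3 (Real.exp_pos _).le
      _ = ε / M * Real.exp u := by
          rw [mul_left_comm, ← Real.exp_add]
          congr 2
          ring
      _ ≤ ε / M * Real.exp R := mul_le_mul_of_nonneg_left (Real.exp_le_exp.2 hu.2) (by positivity)
  have hint1 : IntegrableOn (fun u => deriv f u * (Real.exp (-c) * ps85 (Real.exp (c + u)))) (Icc (-R) R) := by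
    refine Integrable.mono' (g := fun _ => K * (Real.exp (-c) * ps85 (Real.exp (c + R)))) (integrable_const _) ?_ ?_
    · exact (hd.measurable.mul (hme.const_mul _)).aestronglyMeasurable
    · refine (ae_restrict_iff' measurableSet_Icc).2 (Eventually.of_forall fun u hu => ?_)
      rw [norm_mul, Real.norm_eq_abs, Real.norm_eq_abs]
      have hp : 0 ≤ ps85 (Real.exp (c + u)) := Finset.sum_nonneg fun _ _ => ArithmeticFunction.vonMangoldt_nonneg
      refine mul_le_mul (hK' u) ?_ (abs_nonneg _) hK
      rw [abs_of_nonneg (mul_nonneg (Real.exp_pos _).le hp)]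
      exact mul_le_mul_of_nonneg_left (hmono (Real.exp_le_exp.2 (by linarith [hu.2]))) (Real.exp_pos _).le
  have hint2 : IntegrableOn (fun u => deriv f u * Real.exp u) (Icc (-R) R) :=
    (hd.mul Real.continuous_exp).continuousOn.integrableOn_compact isCompact_Icc
  rw [e1, neg_sub_neg, ← integral_sub hint2 hint1]
  have h2 : ‖∫ u in Icc (-R) R, (deriv f u * Real.exp u - deriv f u * (Real.exp (-c) * ps85 (Real.exp (c + u))))‖ ≤
      K * (ε / M * Real.exp R) * (volume.real (Icc (-R) R)) := by
    refine norm_setIntegral_le_of_norm_le_const (by rw [Real.volume_Icc]; exact ENNReal.ofReal_lt_top) fun u hu => ?_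
    rw [← mul_sub, norm_mul, Real.norm_eq_abs, Real.norm_eq_abs, abs_sub_comm]
    exact mul_le_mul (hK' u) (hbd u hu) (abs_nonneg _) hK
  rw [Real.norm_eq_abs] at h2
  refine h2.trans ?_
  rw [Real.volume_real_Icc_of_le (by linarith)]
  have e3 : K * (ε / M * Real.exp R) * (R - -R) = ε * (K * (Real.exp R * (2 * R)) / M) := by
    ring
  rw [e3]
  have h4 : K * (Real.exp R * (2 * R)) / M ≤ 1 := by
    rw [div_le_one hM0, hM]
    have : 0 ≤ Real.exp R * (2 * R) := by positivity
    nlinarith
  calc ε * (K * (Real.exp R * (2 * R)) / M) ≤ ε * 1 := mul_le_mul_of_nonneg_left h4 hε.le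
    _ = ε := mul_one ε

end Pool.Agent.Helper57.KP
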