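import Mathlib

/-!
# KP-B1: Baire category on the Cantor space (helper57)

If `Λ_j(ξ)` is continuous in `ξ : ℕ → Bool × Bool` and for each `ξ` it is `O(T_j^(1-δ))` with constants depending on `ξ`, then along suitable `ξ`
the second difference of `Λ_j` in the `j`-th coordinate is `O(T_j^(1-δ))` with constants independent of `j`.
-/

open MeasureTheory Set Filter Topology

set_option autoImplicit false

namespace Pool.Agent.Helper57.KP

theorem baire1 {Λ : ℕ → (ℕ → Bool × Bool) → ℂ} (hcont : ∀ j, Continuous (Λ j)) {T : ℕ → ℝ}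
    (hb : ∀ ξ, ∃ N : ℕ, ∀ j, N ≤ j → ‖Λ j ξ‖ ≤ N * T j ^ (1 - 1 / ((N : ℝ) + 1))) :
    ∃ N M : ℕ, ∀ j, M ≤ j → ∃ ξ : ℕ → Bool × Bool,
      ‖Λ j (Function.update ξ j (true, true)) - Λ j (Function.update ξ j (false, true)) -
        Λ j (Function.update ξ j (true, false)) + Λ j (Function.update ξ j (false, false))‖ ≤
        4 * (N * T j ^ (1 - 1 / ((N : ℝ) + 1))) := by
  let E : ℕ → Set (ℕ → Bool × Bool) := fun N => {ξ | ∀ j, N ≤ j → ‖Λ j ξ‖ ≤ N * T j ^ (1 - 1 / ((N : ℝ) + 1))}
  have hE : ∀ N, IsClosed (E N) := by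
    intro N
    have h : E N = ⋂ j, ⋂ (_ : N ≤ j), {ξ | ‖Λ j ξ‖ ≤ N * T j ^ (1 - 1 / ((N : ℝ) + 1))} := by
      ext ξ
      simp only [E, mem_ofPred_eq, mem_iInter]
    rw [h]
    exact isClosed_iInter fun j => isClosed_iInter fun _ =>
      isClosed_le (continuous_norm.comp (hcont j)) continuous_const
  have hU : (⋃ N, E N) = univ := by
    rw [eq_univ_iff_forall]
    intro ξ
    obtain ⟨N, hN⟩ := hb ξ
    exact mem_iUnion.mpr ⟨N, hN⟩
  obtain ⟨N, x, hx⟩ := nonempty_interior_of_iUnion_of_closed hE hU
  have ho : IsOpen (interior (E N)) := isOpen_interior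
  rw [isOpen_pi_iff] at ho
  obtain ⟨I, u, hu, hsub⟩ := ho x hx
  refine ⟨N, max N (I.sup id + 1), fun j hj => ⟨x, ?_⟩⟩
  have hjN : N ≤ j := (le_max_left _ _).trans hj
  have hjI : j ∉ I := by
    intro h
    have h1 : id j ≤ I.sup id := Finset.le_sup h
    have h2 : I.sup id + 1 ≤ j := (le_max_right _ _).trans hj
    simp only [id] at h1 h2
    omega
  have hmem : ∀ b : Bool × Bool, ‖Λ j (Function.update x j b)‖ ≤ N * T j ^ (1 - 1 / ((N : ℝ) + 1)) := by
    intro b
    have h : Function.update x j b ∈ E N := by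
      refine interior_subset (hsub ?_)
      intro i hi
      have hij : i ≠ j := fun h => hjI (h ▸ hi)
      rw [Function.update_of_ne hij]
      exact (hu i hi).2
    exact h j hjN
  have e1 := hmem (true, true)
  have e2 := hmem (false, true)
  have e3 := hmem (true, false)
  have e4 := hmem (false, false)
  have n1 := norm_add_le (Λ j (Function.update x j (true, true)) - Λ j (Function.update x j (false, true)) -
    Λ j (Function.update x j (true, false))) (Λ j (Function.update x j (false, false)))
  have n2 := norm_sub_le (Λ j (Function.update x j (true, true)) - Λ j (Function.update x j (false, true)))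
    (Λ j (Function.update x j (true, false)))
  have n3 := norm_sub_le (Λ j (Function.update x j (true, true))) (Λ j (Function.update x j (false, true)))
  linarith

end Pool.Agent.Helper57.KP
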