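import Pool.Agent.Helper57.KP.Defs
import Pool.Agent.Helper57.KP.B1

/-!
# KP-B2: smooth families (helper57)

For a sequence `T_j` with `log T_j ≥ 1` and centres `c_j` the functions `∑_{j : s_j} λ_j sw W c_j T_j`, `λ_j = (2^j L_j^(j+1))⁻¹`, are smooth, and continuous in `s`.
-/

open MeasureTheory Set Filter Topology
open scoped ContDiff

set_option autoImplicit false

namespace Pool.Agent.Helper57.KP

/-- the coefficients -/
noncomputable def lam (T : ℕ → ℝ) (j : ℕ) : ℝ := (2 ^ j * Real.log (T j) ^ (j + 1))⁻¹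

/-- the family -/
noncomputable def fam (W : ℝ → ℝ) (c T : ℕ → ℝ) (s : ℕ → Bool) (x : ℝ) : ℝ :=
  ∑' j, if s j = true then lam T j * sw W (c j) (T j) x else 0

/-- the family without the `j`-th term -/
noncomputable def famr (W : ℝ → ℝ) (c T : ℕ → ℝ) (s : ℕ → Bool) (j : ℕ) (x : ℝ) : ℝ :=
  ∑' i, if i = j then 0 else if s i = true then lam T i * sw W (c i) (T i) x else 0

theorem lam_pos {T : ℕ → ℝ} (hT : ∀ j, 1 ≤ Real.log (T j)) (j : ℕ) : 0 < lam T j := by
  have := hT j
  unfold lam
  positivity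

theorem sw_smooth {W : ℝ → ℝ} {R : ℝ} (hW : PF W R) (c T : ℝ) : ContDiff ℝ ∞ (sw W c T) := by
  unfold sw
  exact contDiff_const.mul (hW.smooth.comp ((contDiff_const.mul contDiff_id).sub contDiff_const))

theorem PF.compact {W : ℝ → ℝ} {R : ℝ} (hW : PF W R) : HasCompactSupport W := by
  refine HasCompactSupport.intro (isCompact_Icc (a := -R) (b := R)) ?_
  intro x hx
  by_contra h
  exact hx (abs_le.mp (hW.supp x h))

theorem sw_bound {W : ℝ → ℝ} {R : ℝ} (hW : PF W R) (k : ℕ) : ∃ M : ℝ, 0 ≤ M ∧ ∀ c T : ℝ, 1 ≤ Real.log T → ∀ x,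
    ‖iteratedFDeriv ℝ k (sw W c T) x‖ ≤ M * Real.log T ^ (k + 1) := by
  have h1 : Continuous (iteratedDeriv k W) := by
    have h2 := hW.smooth.continuous_iteratedDeriv k (by exact_mod_cast le_top)
    exact h2
  have h3 : HasCompactSupport (iteratedDeriv k W) := by
    have h4 := hW.compact.iteratedFDeriv (𝕜 := ℝ) k
    refine HasCompactSupport.intro h4 ?_
    intro x hx
    have h5 : iteratedFDeriv ℝ k W x = 0 := image_eq_zero_of_notMem_tsupport hx
    rw [iteratedDeriv_eq_iteratedFDeriv, h5]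
    simp
  obtain ⟨M, hM⟩ := h3.exists_bound_of_continuous h1
  have hM0 : 0 ≤ M := (norm_nonneg _).trans (hM 0)
  refine ⟨M, hM0, fun c T hT x => ?_⟩
  rw [norm_iteratedFDeriv_eq_norm_iteratedDeriv]
  have h6 : iteratedDeriv k (sw W c T) x = Real.sqrt (Real.log T) * (Real.log T ^ k * iteratedDeriv k W (Real.log T * x - c)) := by
    have e1 : sw W c T = fun x => Real.sqrt (Real.log T) * ((fun y => W (y - c)) (Real.log T * x)) := rfl
    have hWk : ContDiff ℝ k W := hW.smooth.of_le (by exact_mod_cast le_top)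
    have e2 : ContDiff ℝ k (fun y => W (y - c)) := hWk.comp (contDiff_id.sub contDiff_const)
    have e3 : ContDiff ℝ k (fun x : ℝ => (fun y => W (y - c)) (Real.log T * x)) := e2.comp (contDiff_const.mul contDiff_id)
    rw [e1, iteratedDeriv_const_mul _ e3.contDiffAt, iteratedDeriv_comp_const_mul e2, iteratedDeriv_comp_sub_const]
  rw [h6, norm_mul, norm_mul, Real.norm_of_nonneg (Real.sqrt_nonneg _), Real.norm_of_nonneg (by positivity : (0:ℝ) ≤ Real.log T ^ k)]
  have h7 : Real.sqrt (Real.log T) ≤ Real.log T := by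
    rw [Real.sqrt_le_left (by linarith)]
    nlinarith
  have h8 := hM (Real.log T * x - c)
  calc Real.sqrt (Real.log T) * (Real.log T ^ k * ‖iteratedDeriv k W (Real.log T * x - c)‖)
      ≤ Real.log T * (Real.log T ^ k * M) := by gcongr
    _ = M * Real.log T ^ (k + 1) := by ring

private theorem lam_bd {T : ℕ → ℝ} (hT : ∀ j, 1 ≤ Real.log (T j)) {M : ℝ} (hM : 0 ≤ M) {k j : ℕ} (h : k ≤ j) :
    lam T j * (M * Real.log (T j) ^ (k + 1)) ≤ M * (1 / 2) ^ j := by
  have h1 := hT j
  have h2 : Real.log (T j) ^ (k + 1) ≤ Real.log (T j) ^ (j + 1) := pow_le_pow_right₀ h1 (by omega)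
  have h3 : 0 < Real.log (T j) ^ (j + 1) := by positivity
  unfold lam
  rw [mul_inv, one_div, inv_pow]
  calc (2 ^ j)⁻¹ * (Real.log (T j) ^ (j + 1))⁻¹ * (M * Real.log (T j) ^ (k + 1))
      ≤ (2 ^ j)⁻¹ * (Real.log (T j) ^ (j + 1))⁻¹ * (M * Real.log (T j) ^ (j + 1)) := by gcongr
    _ = M * (2 ^ j)⁻¹ := by field_simp

theorem fam_smooth {W : ℝ → ℝ} {R : ℝ} (hW : PF W R) (c : ℕ → ℝ) {T : ℕ → ℝ} (hT : ∀ j, 1 ≤ Real.log (T j)) (s : ℕ → Bool) :
    ContDiff ℝ ∞ (fam W c T s) := by
  choose M hM0 hM using fun k => sw_bound hW k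
  have hsm : ∀ j, ContDiff ℝ ∞ (fun x => if s j = true then lam T j * sw W (c j) (T j) x else 0) := by
    intro j
    by_cases h : s j = true
    · simp only [h, if_true]
      exact contDiff_const.mul (sw_smooth hW _ _)
    · simp only [h]
      exact contDiff_const
  refine contDiff_tsum_of_eventually (N := (⊤ : ℕ∞)) (v := fun k j => M k * (1 / 2) ^ j) hsm ?_ ?_
  · intro k _
    exact (summable_geometric_two).mul_left _
  · intro k _
    rw [Nat.cofinite_eq_atTop]
    filter_upwards [eventually_ge_atTop k] with j hj x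
    by_cases h : s j = true
    · simp only [h, if_true]
      have e1 : (fun x => lam T j * sw W (c j) (T j) x) = lam T j • sw W (c j) (T j) := rfl
      have e2 : ContDiffAt ℝ k (sw W (c j) (T j)) x := ((sw_smooth hW _ _).of_le (by exact_mod_cast le_top)).contDiffAt
      rw [e1]
      have e3 : iteratedFDeriv ℝ k (lam T j • sw W (c j) (T j)) x = lam T j • iteratedFDeriv ℝ k (sw W (c j) (T j)) x :=
        iteratedFDeriv_const_smul_apply e2
      rw [e3, norm_smul, Real.norm_of_nonneg (lam_pos hT j).le]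
      exact (mul_le_mul_of_nonneg_left (hM k _ _ (hT j) x) (lam_pos hT j).le).trans (lam_bd hT (hM0 k) hj)
    · simp only [h]
      have e1 : iteratedFDeriv ℝ k (fun _ : ℝ => (0:ℝ)) x = 0 := by
        rcases Nat.eq_zero_or_pos k with rfl | hk
        · ext; simp
        · rw [iteratedFDeriv_const_of_ne hk.ne']
          rfl
      simp only [Bool.false_eq_true, if_false]
      rw [e1, norm_zero]
      have := hM0 k
      positivity

private theorem term_bd {W : ℝ → ℝ} {R : ℝ} (hW : PF W R) (c : ℕ → ℝ) {T : ℕ → ℝ} (hT : ∀ j, 1 ≤ Real.log (T j)) (s : ℕ → Bool) (j : ℕ) (x : ℝ) :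
    ‖(if s j = true then lam T j * sw W (c j) (T j) x else 0 : ℝ)‖ ≤ (1 / 2 : ℝ) ^ j := by
  have h1 := hT j
  have hl := lam_pos hT j
  by_cases h : s j = true
  · simp only [h, if_true]
    have h2 : |sw W (c j) (T j) x| ≤ 1 * Real.log (T j) ^ (0 + 1) := by
      unfold sw
      rw [abs_mul, abs_of_nonneg (Real.sqrt_nonneg _), abs_of_nonneg (hW.nonneg _)]
      have h7 : Real.sqrt (Real.log (T j)) ≤ Real.log (T j) := by
        rw [Real.sqrt_le_left (by linarith)]
        nlinarith
      have h8 := hW.le_one (Real.log (T j) * x - c j)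
      have h9 := hW.nonneg (Real.log (T j) * x - c j)
      calc Real.sqrt (Real.log (T j)) * W (Real.log (T j) * x - c j) ≤ Real.log (T j) * 1 := by gcongr
        _ = 1 * Real.log (T j) ^ (0 + 1) := by ring
    rw [norm_mul, Real.norm_of_nonneg hl.le, Real.norm_eq_abs]
    refine (mul_le_mul_of_nonneg_left h2 hl.le).trans ?_
    have := lam_bd hT (M := 1) zero_le_one (Nat.zero_le j)
    linarith
  · simp only [h]
    simp

theorem fam_cont {W : ℝ → ℝ} {R : ℝ} (hW : PF W R) (c : ℕ → ℝ) {T : ℕ → ℝ} (hT : ∀ j, 1 ≤ Real.log (T j)) (x : ℝ) :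
    Continuous fun s : ℕ → Bool => fam W c T s x := by
  unfold fam
  refine continuous_tsum (u := fun j => (1 / 2 : ℝ) ^ j) ?_ summable_geometric_two (fun j s => term_bd hW c hT s j x)
  intro j
  have h1 : Continuous fun b : Bool => (if b = true then lam T j * sw W (c j) (T j) x else 0 : ℝ) := continuous_of_discreteTopology
  exact h1.comp (continuous_apply j)

theorem fam_supp {W : ℝ → ℝ} {c T : ℕ → ℝ} {a b : ℝ} (hs : ∀ j x, sw W (c j) (T j) x ≠ 0 → a ≤ x ∧ x ≤ b) (s : ℕ → Bool) {x : ℝ}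
    (hx : fam W c T s x ≠ 0) : a ≤ x ∧ x ≤ b := by
  by_contra h
  apply hx
  unfold fam
  have h1 : ∀ j, (if s j = true then lam T j * sw W (c j) (T j) x else 0 : ℝ) = 0 := by
    intro j
    have h2 : sw W (c j) (T j) x = 0 := by
      by_contra h3
      exact h (hs j x h3)
    simp [h2]
  simp only [h1, tsum_zero]

theorem fam_update {W : ℝ → ℝ} {R : ℝ} (hW : PF W R) (c : ℕ → ℝ) {T : ℕ → ℝ} (hT : ∀ j, 1 ≤ Real.log (T j)) (s : ℕ → Bool) (j : ℕ) (b : Bool) (x : ℝ) :
    fam W c T (Function.update s j b) x = (if b = true then lam T j * sw W (c j) (T j) x else 0) + famr W c T s j x := by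
  unfold fam famr
  have hsum : Summable fun i => (if Function.update s j b i = true then lam T i * sw W (c i) (T i) x else 0 : ℝ) :=
    Summable.of_norm_bounded summable_geometric_two (fun i => term_bd hW c hT (Function.update s j b) i x)
  rw [hsum.tsum_eq_add_tsum_ite j, Function.update_self]
  congr 1
  refine tsum_congr fun i => ?_
  by_cases h : i = j
  · simp [h]
  · simp only [h, if_false]
    rw [Function.update_of_ne h]

end Pool.Agent.Helper57.KP
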