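import Pool.Agent.Helper57.KP.B2
import Pool.Agent.Helper69.FF.Key

/-!
# KP-B3: the key estimate for the weights at scale `1/log T` (helper57)

PROOF. By contradiction and Baire (B1), from `key` for fixed weights.
-/

open MeasureTheory Set Filter Topology
open Pool.Agent.Helper57.Zeta Pool.Agent.Helper57.PC Pool.Agent.Helper57.LH Pool.Agent.Helper78.SG
open Pool.Agent.Helper4.SH (om)
open Pool.Agent.Helper69.FF
open scoped ContDiff

set_option autoImplicit false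

namespace Pool.Agent.Helper57.KP

/-- the bilinear form -/
private noncomputable def BL57 (g : TF) (w v : ℝ → ℝ) (e T : ℝ) : ℂ := SS g w v e T - ((SM g w v e T : ℝ) : ℂ)

private theorem FW_alt57 (g : TF) (w0 w1 v0 v1 : ℝ → ℝ) (p q T : ℝ) (x : ℕ × ℕ) (n : ℕ) :
    FW g (fun y => p * w1 y + w0 y) (fun y => q * v1 y + v0 y) T x n =
      p * q * FW g w1 v1 T x n + p * FW g w1 v0 T x n + q * FW g w0 v1 T x n + FW g w0 v0 T x n := by
  unfold FW
  ring

private theorem SS_alt57 (g : TF) (w0 w1 v0 v1 : ℝ → ℝ) (p q e T : ℝ) :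
    SS g (fun y => p * w1 y + w0 y) (fun y => q * v1 y + v0 y) e T =
      (p : ℂ) * q * SS g w1 v1 e T + p * SS g w1 v0 e T + q * SS g w0 v1 e T + SS g w0 v0 e T := by
  unfold SS
  simp only [Finset.mul_sum, ← Finset.sum_add_distrib]
  refine Finset.sum_congr rfl fun x _ => Finset.sum_congr rfl fun n _ => ?_
  rw [FW_alt57]
  push_cast
  ring

private theorem SM_alt57 (g : TF) (w0 w1 v0 v1 : ℝ → ℝ) (p q e T : ℝ) :
    SM g (fun y => p * w1 y + w0 y) (fun y => q * v1 y + v0 y) e T =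
      p * q * SM g w1 v1 e T + p * SM g w1 v0 e T + q * SM g w0 v1 e T + SM g w0 v0 e T := by
  unfold SM
  simp only [Finset.mul_sum, ← Finset.sum_add_distrib]
  refine Finset.sum_congr rfl fun x _ => Finset.sum_congr rfl fun n _ => ?_
  rw [FW_alt57]
  ring

private theorem BL_alt57 (g : TF) (w0 w1 v0 v1 : ℝ → ℝ) (p q e T : ℝ) :
    BL57 g (fun y => p * w1 y + w0 y) (fun y => q * v1 y + v0 y) e T =
      (p : ℂ) * q * BL57 g w1 v1 e T + p * BL57 g w1 v0 e T + q * BL57 g w0 v1 e T + BL57 g w0 v0 e T := by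
  unfold BL57
  rw [SS_alt57, SM_alt57]
  push_cast
  ring

private theorem thr57 (j : ℕ) : ∀ᶠ T : ℝ in atTop, ((j : ℝ) + 1) * (4 ^ j * Real.log T ^ (2 * (j + 1))) ≤ T ^ (1 / ((j : ℝ) + 1)) := by
  have hs : (0:ℝ) < 1 / ((j : ℝ) + 1) := by positivity
  have h1 := isLittleO_log_rpow_rpow_atTop ((2 * (j + 1) : ℕ) : ℝ) hs
  have h2 : (0:ℝ) < (((j : ℝ) + 1) * 4 ^ j)⁻¹ := by positivity
  have h3 := h1.bound h2
  filter_upwards [h3, eventually_ge_atTop 1] with T hT hT1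
  have h4 : 0 ≤ Real.log T := Real.log_nonneg hT1
  rw [Real.rpow_natCast, Real.norm_of_nonneg (pow_nonneg h4 _), Real.norm_of_nonneg (Real.rpow_nonneg (by linarith) _)] at hT
  have h5 : (0:ℝ) < ((j : ℝ) + 1) * 4 ^ j := by positivity
  calc ((j : ℝ) + 1) * (4 ^ j * Real.log T ^ (2 * (j + 1))) = (((j : ℝ) + 1) * 4 ^ j) * Real.log T ^ (2 * (j + 1)) := by ring
    _ ≤ (((j : ℝ) + 1) * 4 ^ j) * ((((j : ℝ) + 1) * 4 ^ j)⁻¹ * T ^ (1 / ((j : ℝ) + 1))) := by gcongr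
    _ = T ^ (1 / ((j : ℝ) + 1)) := by field_simp

private theorem sup57 {W : ℝ → ℝ} {R : ℝ} (hW : PF W R) {c T κ : ℝ} (hL : 0 < Real.log T)
    (hR : R ≤ κ / 2 * Real.log T) (h1 : (1 + κ) * Real.log T ≤ c) (h2 : c ≤ (3 / 2 - κ) * Real.log T) {x : ℝ} (hx : sw W c T x ≠ 0) :
    1 + κ / 2 ≤ x ∧ x ≤ 3 / 2 - κ / 2 := by
  have h3 : W (Real.log T * x - c) ≠ 0 := by
    intro h
    apply hx
    unfold sw
    rw [h, mul_zero]
  have h4 := abs_le.mp (hW.supp _ h3)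
  constructor
  · have h5 : (1 + κ / 2) * Real.log T ≤ x * Real.log T := by nlinarith [h4.1]
    exact le_of_mul_le_mul_right h5 hL
  · have h5 : x * Real.log T ≤ (3 / 2 - κ / 2) * Real.log T := by nlinarith [h4.2]
    exact le_of_mul_le_mul_right h5 hL

theorem key_s (g : TF) {W : ℝ → ℝ} {R : ℝ} (hW : PF W R) {e κ : ℝ} (he : 0 < e) (he1 : e < 1 / 4) (hκ : 0 < κ) (ℓ : ℝ) {ε : ℝ} (hε : 0 < ε) :
    ∀ᶠ T : ℝ in atTop, ∀ c : ℝ, (1 + κ) * Real.log T ≤ c → c ≤ (3 / 2 - κ) * Real.log T →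
    ‖SS g (sw W c T) (sw W (c + ℓ) T) e T - ((SM g (sw W c T) (sw W (c + ℓ) T) e T : ℝ) : ℂ)‖ ≤ ε * T := by
  by_contra hcon
  rw [Filter.not_eventually] at hcon
  -- thresholds
  have hthr : ∀ j : ℕ, ∃ T : ℝ, (j : ℝ) + 3 ≤ T ∧ 1 ≤ Real.log T ∧ 2 * (|R| + |ℓ|) ≤ κ / 2 * Real.log T ∧
      ((j : ℝ) + 1) * (4 ^ j * Real.log T ^ (2 * (j + 1))) ≤ T ^ (1 / ((j : ℝ) + 1)) ∧
      ∃ c : ℝ, (1 + κ) * Real.log T ≤ c ∧ c ≤ (3 / 2 - κ) * Real.log T ∧ ε * T < ‖BL57 g (sw W c T) (sw W (c + ℓ) T) e T‖ := by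
    intro j
    have h1 : ∀ᶠ T : ℝ in atTop, 1 ≤ Real.log T := Real.tendsto_log_atTop.eventually_ge_atTop 1
    have h2 : ∀ᶠ T : ℝ in atTop, 2 * (|R| + |ℓ|) / (κ / 2) ≤ Real.log T := Real.tendsto_log_atTop.eventually_ge_atTop _
    obtain ⟨T, hT, h3, h4, h5, h6⟩ := (hcon.and_eventually ((eventually_ge_atTop ((j : ℝ) + 3)).and (h1.and (h2.and (thr57 j))))).exists
    push Not at hT
    obtain ⟨c, hc1, hc2, hc3⟩ := hT
    refine ⟨T, h3, h4, ?_, h6, c, hc1, hc2, hc3⟩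
    rw [div_le_iff₀ (by linarith)] at h5
    linarith
  choose T hT3 hT1 hTR hTp c hc1 hc2 hc3 using hthr
  have hκ4 : κ ≤ 1 / 4 := by
    have h1 := (hc1 0).trans (hc2 0)
    have h2 := hT1 0
    nlinarith
  have hlim : Tendsto T atTop atTop := by
    refine tendsto_atTop_mono (fun j => ?_) (tendsto_natCast_atTop_atTop (R := ℝ))
    have := hT3 j
    linarith
  have hR0 : ∀ j, R ≤ κ / 2 * Real.log (T j) := by
    intro j
    have h1 := hTR j
    have h2 := le_abs_self R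
    have h3 := abs_nonneg ℓ
    have h4 := abs_nonneg R
    linarith
  -- supports
  have hsw : ∀ j x, sw W (c j) (T j) x ≠ 0 → 1 + κ / 4 ≤ x ∧ x ≤ 3 / 2 - κ / 4 := by
    intro j x hx
    obtain ⟨h1, h2⟩ := sup57 hW (by linarith [hT1 j]) (hR0 j) (hc1 j) (hc2 j) hx
    exact ⟨by linarith, by linarith⟩
  have hsv : ∀ j x, sw W (c j + ℓ) (T j) x ≠ 0 → 1 + κ / 4 ≤ x ∧ x ≤ 3 / 2 - κ / 4 := by
    intro j x hx
    have g1 := hTR j
    have g2 := le_abs_self ℓ
    have g3 := neg_abs_le ℓ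
    have g4 := abs_nonneg R
    have g5 := le_abs_self R
    have g6 := hT1 j
    have k1 : R ≤ κ / 2 / 2 * Real.log (T j) := by linarith
    have k2 : (1 + κ / 2) * Real.log (T j) ≤ c j + ℓ := by
      have := hc1 j
      nlinarith
    have k3 : c j + ℓ ≤ (3 / 2 - κ / 2) * Real.log (T j) := by
      have := hc2 j
      nlinarith
    obtain ⟨h1, h2⟩ := sup57 hW (by linarith) k1 k2 k3 hx
    exact ⟨by linarith, by linarith⟩
  have hWR : ∀ s : ℕ → Bool, WR (fam W c T s) (1 + κ / 4) (3 / 2 - κ / 4) := fun s =>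
    ⟨fam_smooth hW c hT1 s, by linarith, by linarith, fun x hx => fam_supp hsw s hx⟩
  have hVR : ∀ s : ℕ → Bool, WR (fam W (fun j => c j + ℓ) T s) (1 + κ / 4) (3 / 2 - κ / 4) := fun s =>
    ⟨fam_smooth hW _ hT1 s, by linarith, by linarith, fun x hx => fam_supp hsv s hx⟩
  -- Baire
  let Λ : ℕ → (ℕ → Bool × Bool) → ℂ := fun j ξ =>
    BL57 g (fam W c T (fun i => (ξ i).1)) (fam W (fun j => c j + ℓ) T (fun i => (ξ i).2)) e (T j)
  have hFW : ∀ j x n, Continuous fun ξ : ℕ → Bool × Bool =>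
      FW g (fam W c T (fun i => (ξ i).1)) (fam W (fun j => c j + ℓ) T (fun i => (ξ i).2)) (T j) x n := by
    intro j x n
    have p1 : Continuous fun ξ : ℕ → Bool × Bool => (fun i => (ξ i).1) := continuous_pi fun i => continuous_fst.comp (continuous_apply i)
    have p2 : Continuous fun ξ : ℕ → Bool × Bool => (fun i => (ξ i).2) := continuous_pi fun i => continuous_snd.comp (continuous_apply i)
    unfold FW
    exact (((fam_cont hW c hT1 _).comp p1).mul ((fam_cont hW (fun j => c j + ℓ) hT1 _).comp p2)).mul continuous_const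
  have hcont : ∀ j, Continuous (Λ j) := by
    intro j
    show Continuous fun ξ : ℕ → Bool × Bool => BL57 g (fam W c T (fun i => (ξ i).1)) (fam W (fun j => c j + ℓ) T (fun i => (ξ i).2)) e (T j)
    unfold BL57 SS SM
    refine Continuous.sub ?_ (Complex.continuous_ofReal.comp ?_)
    · refine continuous_finsetSum _ fun x _ => continuous_const.mul (continuous_finsetSum _ fun n _ => ?_)
      exact (Complex.continuous_ofReal.comp (continuous_const.mul (hFW j x n))).mul continuous_const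
    · exact continuous_finsetSum _ fun x _ => continuous_const.mul (continuous_finsetSum _ fun n _ => continuous_const.mul (hFW j x n))
  have hb : ∀ ξ, ∃ N : ℕ, ∀ j, N ≤ j → ‖Λ j ξ‖ ≤ N * T j ^ (1 - 1 / ((N : ℝ) + 1)) := by
    intro ξ
    obtain ⟨δ, C, hδ, hC, hk⟩ := key g (hWR fun i => (ξ i).1) (by linarith) (hVR fun i => (ξ i).2) (by linarith) (by linarith) he he1
    obtain ⟨N1, hN1⟩ := eventually_atTop.mp (hlim.eventually hk)
    obtain ⟨N2, hN2⟩ := exists_nat_ge C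
    obtain ⟨N3, hN3⟩ := exists_nat_one_div_lt hδ
    refine ⟨max N1 (max N2 N3), fun j hj => ?_⟩
    have h1 := hN1 j ((le_max_left _ _).trans hj)
    have hN2' : C ≤ ((max N1 (max N2 N3) : ℕ) : ℝ) := hN2.trans (by exact_mod_cast (le_max_left N2 N3).trans (le_max_right _ _))
    have hN3' : 1 / (((max N1 (max N2 N3) : ℕ) : ℝ) + 1) ≤ δ := by
      refine le_trans ?_ hN3.le
      have : (N3 : ℝ) ≤ ((max N1 (max N2 N3) : ℕ) : ℝ) := by exact_mod_cast (le_max_right N2 N3).trans (le_max_right _ _)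
      gcongr
    have hTj : 1 ≤ T j := by
      have := hT3 j
      have h0 : (0:ℝ) ≤ j := Nat.cast_nonneg j
      linarith
    refine h1.trans ?_
    have h2 : T j ^ (1 - δ) ≤ T j ^ (1 - 1 / (((max N1 (max N2 N3) : ℕ) : ℝ) + 1)) := Real.rpow_le_rpow_of_exponent_le hTj (by linarith)
    have h3 : 0 ≤ T j ^ (1 - δ) := Real.rpow_nonneg (by linarith) _
    exact mul_le_mul hN2' h2 h3 (by positivity)
  obtain ⟨N, M, hNM⟩ := baire1 hcont hb
  -- contradiction
  obtain ⟨N4, hN4⟩ := exists_nat_ge (4 * (N : ℝ) / ε)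
  obtain ⟨j, hjM, hjN, hj4⟩ : ∃ j : ℕ, M ≤ j ∧ N ≤ j ∧ N4 ≤ j := ⟨max M (max N N4), le_max_left _ _, (le_max_left _ _).trans (le_max_right _ _), (le_max_right _ _).trans (le_max_right _ _)⟩
  obtain ⟨ξ, hξ⟩ := hNM j hjM
  have hl := lam_pos hT1 j
  have hL := hT1 j
  have hTj : 1 ≤ T j := by
    have := hT3 j
    have h0 : (0:ℝ) ≤ j := Nat.cast_nonneg j
    linarith
  have hΛ : ∀ b1 b2 : Bool, Λ j (Function.update ξ j (b1, b2)) =
      BL57 g (fun y => (if b1 = true then lam T j else 0) * sw W (c j) (T j) y + famr W c T (fun i => (ξ i).1) j y)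
        (fun y => (if b2 = true then lam T j else 0) * sw W (c j + ℓ) (T j) y + famr W (fun j => c j + ℓ) T (fun i => (ξ i).2) j y) e (T j) := by
    intro b1 b2
    have q1 : (fun i => (Function.update ξ j (b1, b2) i).1) = Function.update (fun i => (ξ i).1) j b1 := by
      funext i
      by_cases h : i = j
      · subst h; simp
      · simp [h]
    have q2 : (fun i => (Function.update ξ j (b1, b2) i).2) = Function.update (fun i => (ξ i).2) j b2 := by
      funext i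
      by_cases h : i = j
      · subst h; simp
      · simp [h]
    show BL57 g (fam W c T (fun i => (Function.update ξ j (b1, b2) i).1)) (fam W (fun j => c j + ℓ) T (fun i => (Function.update ξ j (b1, b2) i).2)) e (T j) = _
    rw [q1, q2]
    congr 1
    · funext y
      rw [fam_update hW c hT1]
      split_ifs <;> ring
    · funext y
      rw [fam_update hW (fun j => c j + ℓ) hT1]
      split_ifs <;> ring
  rw [hΛ, hΛ, hΛ, hΛ, BL_alt57, BL_alt57, BL_alt57, BL_alt57] at hξ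
  simp only [if_true, Bool.false_eq_true, if_false] at hξ
  have hE : ∀ A B C D : ℂ, ((lam T j : ℝ) : ℂ) * ((lam T j : ℝ) : ℂ) * A + ((lam T j : ℝ) : ℂ) * B + ((lam T j : ℝ) : ℂ) * C + D -
      ((((0:ℝ) : ℂ) * ((lam T j : ℝ) : ℂ) * A + ((0:ℝ) : ℂ) * B + ((lam T j : ℝ) : ℂ) * C + D)) -
      (((lam T j : ℝ) : ℂ) * ((0:ℝ) : ℂ) * A + ((lam T j : ℝ) : ℂ) * B + ((0:ℝ) : ℂ) * C + D) +
      (((0:ℝ) : ℂ) * ((0:ℝ) : ℂ) * A + ((0:ℝ) : ℂ) * B + ((0:ℝ) : ℂ) * C + D) = ((lam T j ^ 2 : ℝ) : ℂ) * A := by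
    intro A B C D
    push_cast
    ring
  rw [hE, norm_mul, Complex.norm_real, Real.norm_of_nonneg (by positivity)] at hξ
  have hc := hc3 j
  have hl2 : 0 < lam T j ^ 2 := by positivity
  have h1 : lam T j ^ 2 * (ε * T j) < 4 * (N * T j ^ (1 - 1 / ((N : ℝ) + 1))) := (mul_lt_mul_of_pos_left hc hl2).trans_le hξ
  -- T_j^(1/(j+1)) ≤ T_j^(1/(N+1))
  have h2 : T j ^ (1 / ((j : ℝ) + 1)) ≤ T j ^ (1 / ((N : ℝ) + 1)) := by
    refine Real.rpow_le_rpow_of_exponent_le hTj ?_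
    have : (N : ℝ) ≤ j := by exact_mod_cast hjN
    gcongr
  have h3 := (hTp j).trans h2
  have h4 : (lam T j ^ 2)⁻¹ = 4 ^ j * Real.log (T j) ^ (2 * (j + 1)) := by
    unfold lam
    rw [inv_pow, inv_inv, mul_pow, ← pow_mul, ← pow_mul, mul_comm j 2, pow_mul 2 2 j, mul_comm (j + 1) 2]
    norm_num
  rw [← h4] at h3
  have h5 : T j = T j ^ (1 - 1 / ((N : ℝ) + 1)) * T j ^ (1 / ((N : ℝ) + 1)) := by
    rw [← Real.rpow_add (by linarith)]
    norm_num
  set P := T j ^ (1 - 1 / ((N : ℝ) + 1)) with hP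
  set Q := T j ^ (1 / ((N : ℝ) + 1)) with hQ
  have hP0 : 0 < P := Real.rpow_pos_of_pos (by linarith) _
  have h6 : (4 * (N : ℝ)) ≤ ε * ((j : ℝ) + 1) := by
    rw [div_le_iff₀ hε] at hN4
    have : (N4 : ℝ) ≤ j := by exact_mod_cast hj4
    nlinarith
  have h7 : 4 * (N : ℝ) ≤ lam T j ^ 2 * (ε * Q) := by
    have k1 : ((j : ℝ) + 1) ≤ lam T j ^ 2 * Q := by
      calc ((j : ℝ) + 1) = lam T j ^ 2 * (((j : ℝ) + 1) * (lam T j ^ 2)⁻¹) := by field_simp
        _ ≤ lam T j ^ 2 * Q := by gcongr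
    calc 4 * (N : ℝ) ≤ ε * ((j : ℝ) + 1) := h6
      _ ≤ ε * (lam T j ^ 2 * Q) := by gcongr
      _ = lam T j ^ 2 * (ε * Q) := by ring
  have h8 : 4 * (N : ℝ) * P ≤ lam T j ^ 2 * (ε * T j) := by
    calc 4 * (N : ℝ) * P ≤ lam T j ^ 2 * (ε * Q) * P := by gcongr
      _ = lam T j ^ 2 * (ε * (P * Q)) := by ring
      _ = lam T j ^ 2 * (ε * T j) := by rw [← h5]
  linarith

end Pool.Agent.Helper57.KP
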