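import Pool.Agent.Helper69.FF.Defs

/-!
# Project KP (MP_8958e8): the pointwise form of the form factor beyond 1. Definitions

README: /team-store/h57_KP_README.md. `L = log T`; `c = log X`, `X = T^α`. Profile `W` at scale `1/L` around `c/L`.
-/

open MeasureTheory Set Filter Topology
open scoped ContDiff

set_option autoImplicit false

namespace Pool.Agent.Helper57.KP

/-- the profile `W` at scale `1/log T` around `c/log T`, with the normalisation `∫ sw² = ∫ W²` -/
noncomputable def sw (W : ℝ → ℝ) (c T x : ℝ) : ℝ := Real.sqrt (Real.log T) * W (Real.log T * x - c)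

/-- admissible profiles -/
structure PF (W : ℝ → ℝ) (R : ℝ) : Prop where
  smooth : ContDiff ℝ ∞ W
  nonneg : ∀ y, 0 ≤ W y
  le_one : ∀ y, W y ≤ 1
  supp : ∀ y, W y ≠ 0 → |y| ≤ R

end Pool.Agent.Helper57.KP
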