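import Pool.Agent.Helper57.KP.Defs
import Pool.Agent.Helper69.FF.DSum

/-!
# KP-E1: the sum over the fractions `r/a` at scale 1

`Q(H) = (1/L) ∑_{(r,a)} mf(r)² (r/a) H(L lr - c)`, `L lr(r,a) = L + log r - log a`; `Q(H) → (3/2 - c/L - 2e)^+ ∫ H`, uniformly in `(1+κ) L ≤ c ≤ (3/2-κ) L`.

PROOF (as `dsum_lim` in Helper69/FF/DSum.lean, but simpler; `sum_RA`, `Rg`, `tot_ge`, `div_bound`, `phi_sum`, `cop_sum` are there). For fixed squarefree `r ≤ T^(1/2-e)` the inner sum is `∑_{T^e < a ≤ r, (a,r)=1} F(a)` with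
`F(y) = H(L + log r - log y - c)/y`, which is C¹ for `y > 0`, nonzero only for `|L + log r - log y - c| ≤ R`, and has total variation and supremum `≤ C/T^e` on `[T^e, r]`; `cop_sum` gives `φ(r)/r ∫_{T^e}^{r} F` with error `≤ C d(r)/T^e`.
`∫_{T^e}^{r} F = ∫_{L-c}^{L + log r - e L - c} H` (`s = L + log r - log y - c`), which is `∫ H` if `L + log r - e L - c ≥ R` (note `L - c ≤ -κ L ≤ -R`) and `0` if it is `≤ -R`, bounded by `∫ |H|` in between.
The errors sum to `≤ C T^(-e/2)`; then `(1/L) ∑_{r ≤ T^(1/2-e), log r ≥ c - (1-e) L + R} 1/φ(r)` (squarefree `r`) is `(1/L)((1/2 - e) L - (c - (1-e) L) + O(1))^+ = (3/2 - c/L - 2e)^+ + O(1/L)` by `phi_sum`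
(the `r` with `|log r - (c - (1-e) L)| ≤ R` contribute `O(1/L)`). If you need `H` smooth instead of C¹ (for `F` on the whole line as in `cop_sum`, whose hypothesis is `ContDiff ℝ 1 F`: use that
`F` agrees on `[T^e, r]` with a C¹ function on the line; as in `Fr_smooth` of DSum the product vanishes near `y ≤ 0`), the hypothesis may be strengthened to `ContDiff ℝ ∞ H`: tell helper57.
-/

open MeasureTheory Set Filter Topology
open Pool.Agent.Helper57.Zeta Pool.Agent.Helper57.PC Pool.Agent.Helper57.LH Pool.Agent.Helper78.SG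
open Pool.Agent.Helper4.SH (om)
open Pool.Agent.Helper69.FF
open scoped ContDiff

set_option autoImplicit false

namespace Pool.Agent.Helper57.KP

/-- the range of summation -/
private noncomputable def Rg (T a b : ℝ) : Finset ℕ :=
  (Finset.Icc 1 ⌊T ^ b⌋₊).filter (fun r : ℕ => Squarefree r ∧ T ^ a < (r : ℝ))

private theorem mem_Rg {T a b : ℝ} (hT : 1 < T) {r : ℕ} :
    r ∈ Rg T a b ↔ Squarefree r ∧ T ^ a < (r : ℝ) ∧ (r : ℝ) ≤ T ^ b := by
  unfold Rg
  rw [Finset.mem_filter, Finset.mem_Icc]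
  constructor
  · rintro ⟨⟨h1, h2⟩, h3, h4⟩
    exact ⟨h3, h4, (Nat.le_floor_iff (by positivity)).1 h2⟩
  · rintro ⟨h1, h2, h3⟩
    refine ⟨⟨?_, (Nat.le_floor_iff (by positivity)).2 h3⟩, h1, h2⟩
    have : (0 : ℝ) < r := lt_trans (by positivity) h2
    exact_mod_cast this

private theorem Rg_mass {C : ℝ} (hC : ∀ x : ℝ, 1 ≤ x →
    |(∑ r ∈ (Finset.Icc 1 ⌊x⌋₊).filter Squarefree, 1 / (Nat.totient r : ℝ)) - Real.log x| ≤ C) {T a b : ℝ} (hT : 1 < T) (ha : 0 ≤ a) (hab : a ≤ b) :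
    |(∑ r ∈ Rg T a b, 1 / (Nat.totient r : ℝ)) - (b - a) * Real.log T| ≤ 2 * C := by
  classical
  have hT0 : 0 < T := by linarith
  have h1 := hC (T ^ a) (Real.one_le_rpow hT.le ha)
  have h2 := hC (T ^ b) (Real.one_le_rpow hT.le (ha.trans hab))
  rw [Real.log_rpow hT0] at h1 h2
  have hsub : (Finset.Icc 1 ⌊T ^ b⌋₊).filter Squarefree = ((Finset.Icc 1 ⌊T ^ a⌋₊).filter Squarefree) ∪ Rg T a b := by
    ext r
    rw [Finset.mem_union, mem_Rg hT, Finset.mem_filter, Finset.mem_filter, Finset.mem_Icc, Finset.mem_Icc,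
      Nat.le_floor_iff (by positivity), Nat.le_floor_iff (by positivity)]
    have hTab : T ^ a ≤ T ^ b := Real.rpow_le_rpow_of_exponent_le hT.le hab
    constructor
    · rintro ⟨⟨h3, h4⟩, h5⟩
      by_cases h6 : (r : ℝ) ≤ T ^ a
      · exact Or.inl ⟨⟨h3, h6⟩, h5⟩
      · exact Or.inr ⟨h5, not_le.1 h6, h4⟩
    · rintro (⟨⟨h3, h4⟩, h5⟩ | ⟨h3, h4, h5⟩)
      · exact ⟨⟨h3, h4.trans hTab⟩, h5⟩
      · refine ⟨⟨?_, h5⟩, h3⟩
        have : (0 : ℝ) < r := lt_trans (by positivity) h4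
        exact_mod_cast this
  have hdis : Disjoint ((Finset.Icc 1 ⌊T ^ a⌋₊).filter Squarefree) (Rg T a b) := by
    rw [Finset.disjoint_left]
    intro r h3 h4
    rw [Finset.mem_filter, Finset.mem_Icc, Nat.le_floor_iff (by positivity)] at h3
    rw [mem_Rg hT] at h4
    linarith [h3.1.2, h4.2.1]
  rw [hsub, Finset.sum_union hdis] at h2
  rw [abs_le] at h1 h2 ⊢
  constructor <;> nlinarith [h1.1, h1.2, h2.1, h2.2]

private theorem Rg_add {T a b c : ℝ} (hT : 1 < T) (hab : a ≤ b) (hbc : b ≤ c) (g : ℕ → ℝ) :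
    ∑ r ∈ Rg T a c, g r = ∑ r ∈ Rg T a b, g r + ∑ r ∈ Rg T b c, g r := by
  classical
  have hsub : Rg T a c = Rg T a b ∪ Rg T b c := by
    ext r
    rw [Finset.mem_union, mem_Rg hT, mem_Rg hT, mem_Rg hT]
    have hTab : T ^ a ≤ T ^ b := Real.rpow_le_rpow_of_exponent_le hT.le hab
    have hTbc : T ^ b ≤ T ^ c := Real.rpow_le_rpow_of_exponent_le hT.le hbc
    constructor
    · rintro ⟨h1, h2, h3⟩
      by_cases h6 : (r : ℝ) ≤ T ^ b
      · exact Or.inl ⟨h1, h2, h6⟩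
      · exact Or.inr ⟨h1, not_le.1 h6, h3⟩
    · rintro (⟨h1, h2, h3⟩ | ⟨h1, h2, h3⟩)
      · exact ⟨h1, h2, h3.trans hTbc⟩
      · exact ⟨h1, lt_of_le_of_lt hTab h2, h3⟩
  have hdis : Disjoint (Rg T a b) (Rg T b c) := by
    rw [Finset.disjoint_left]
    intro r h3 h4
    rw [mem_Rg hT] at h3 h4
    linarith [h3.2.2, h4.2.1]
  rw [hsub, Finset.sum_union hdis]

private theorem sum_RA {e T : ℝ} (hT : 1 < T) (he : 0 < e) (g : ℕ × ℕ → ℝ) :
    ∑ x ∈ RA e T, g x = ∑ r ∈ Rg T e (1 / 2 - e), ∑ a ∈ (Finset.Icc 1 ⌊(r:ℝ)⌋₊).filter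
      (fun a : ℕ => T ^ e < (a : ℝ) ∧ Nat.Coprime a r), g (r, a) := by
  apply Finset.sum_finset_product
  rintro ⟨r, a⟩
  simp only [Pool.Agent.Helper69.FF.RA, Finset.mem_filter, Finset.mem_product, Finset.mem_Icc, mem_Rg hT, Nat.floor_natCast]
  constructor
  · rintro ⟨⟨⟨h1, h2⟩, h3, h4⟩, h5, h6, h7, h8, h9⟩
    exact ⟨⟨h5, lt_of_lt_of_le h7 (by exact_mod_cast h8), h6⟩, ⟨h3, h8⟩, h7, h9⟩
  · rintro ⟨⟨h5, h10, h6⟩, ⟨h3, h8⟩, h7, h9⟩
    have hr : (r : ℝ) ≤ T := by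
      refine h6.trans ?_
      calc T ^ (1 / 2 - e) ≤ T ^ (1 : ℝ) := Real.rpow_le_rpow_of_exponent_le hT.le (by linarith)
        _ = T := Real.rpow_one T
    have hr' : r ≤ ⌊T⌋₊ := (Nat.le_floor_iff (by linarith)).2 hr
    exact ⟨⟨⟨h3.trans h8, hr'⟩, h3, h8.trans hr'⟩, h5, h6, h7, h8, h9⟩

private theorem inv_sq_int {A B : ℝ} (hA : 0 < A) (hAB : A ≤ B) (C : ℝ) :
    ∫ y in A..B, C / y ^ 2 = C / A - C / B := by
  have h1 : ∀ y ∈ uIcc A B, HasDerivAt (fun y : ℝ => -(C / y)) (C / y ^ 2) y := by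
    intro y hy
    rw [uIcc_of_le hAB] at hy
    have hy0 : y ≠ 0 := (lt_of_lt_of_le hA hy.1).ne'
    have h2 : HasDerivAt (fun y : ℝ => C / y) ((0 * y - C * 1) / y ^ 2) y := (hasDerivAt_const y C).div (hasDerivAt_id y) hy0
    refine h2.fun_neg.congr_deriv ?_
    ring
  rw [intervalIntegral.integral_eq_sub_of_hasDerivAt h1]
  · ring
  · apply ContinuousOn.intervalIntegrable
    intro y hy
    rw [uIcc_of_le hAB] at hy
    have hy0 : y ≠ 0 := (lt_of_lt_of_le hA hy.1).ne'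
    exact (ContinuousAt.div continuousAt_const (continuousAt_id.pow 2) (pow_ne_zero 2 hy0)).continuousWithinAt

/-- the summand as a function of `a` -/
private noncomputable def Fs (H : ℝ → ℝ) (v y : ℝ) : ℝ := H (v - Real.log y) / y

private theorem Fs_smooth {H : ℝ → ℝ} {R : ℝ} (hH : ContDiff ℝ ∞ H) (hR : ∀ y, H y ≠ 0 → |y| ≤ R) (v : ℝ) : ContDiff ℝ 1 (Fs H v) := by
  rw [contDiff_iff_contDiffAt]
  intro y
  by_cases hy : y = 0
  · subst hy
    have heq : Fs H v =ᶠ[𝓝 0] fun _ => (0 : ℝ) := by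
      have ho : IsOpen {y : ℝ | |y| < Real.exp (v - R)} := isOpen_lt continuous_abs continuous_const
      have hm : {y : ℝ | |y| < Real.exp (v - R)} ∈ 𝓝 (0:ℝ) := ho.mem_nhds (by
        show |(0:ℝ)| < Real.exp (v - R)
        rw [abs_zero]; exact Real.exp_pos _)
      filter_upwards [hm] with y hy
      have hy' : |y| < Real.exp (v - R) := hy
      unfold Fs
      by_cases h0 : y = 0
      · rw [h0]; simp
      · have h1 : Real.log y < v - R := by
          rw [← Real.log_abs, ← Real.log_exp (v - R)]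
          exact Real.log_lt_log (abs_pos.2 h0) hy'
        have h2 : H (v - Real.log y) = 0 := by
          by_contra hne
          have h3 := hR _ hne
          have h4 := (abs_le.1 h3).2
          linarith
        rw [h2, zero_div]
    exact contDiffAt_const.congr_of_eventuallyEq heq
  · unfold Fs
    have h1 : ContDiffAt ℝ 1 (fun y : ℝ => v - Real.log y) y := by
      have hlog : ContDiffAt ℝ 1 Real.log y := Real.contDiffAt_log.2 hy
      exact contDiffAt_const.sub hlog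
    have h2 : ContDiffAt ℝ 1 (fun y : ℝ => H (v - Real.log y)) y := by
      have h3 : ContDiff ℝ 1 H := hH.of_le (by exact_mod_cast le_top)
      exact h3.contDiffAt.comp y h1
    exact h2.div contDiffAt_id hy

private theorem Fs_deriv {H : ℝ → ℝ} (hH : ContDiff ℝ ∞ H) (v : ℝ) {y : ℝ} (hy : 0 < y) :
    deriv (Fs H v) y = -(deriv H (v - Real.log y) + H (v - Real.log y)) / y ^ 2 := by
  have h1 : HasDerivAt (fun y : ℝ => v - Real.log y) (-(y⁻¹)) y := (Real.hasDerivAt_log hy.ne').const_sub v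
  have h3 : HasDerivAt H (deriv H (v - Real.log y)) (v - Real.log y) := ((hH.differentiable (by simp)) _).hasDerivAt
  have h4 := (h3.comp y h1).div (hasDerivAt_id y) hy.ne'
  have h5 : HasDerivAt (Fs H v) ((deriv H (v - Real.log y) * (-(y⁻¹)) * id y -
      (H ∘ fun y : ℝ => v - Real.log y) y * 1) / id y ^ 2) y := h4
  rw [h5.deriv]
  simp only [id, Function.comp, mul_one]
  field_simp
  ring

private theorem H_bd {H : ℝ → ℝ} {R : ℝ} (hH : ContDiff ℝ ∞ H) (hR : ∀ y, H y ≠ 0 → |y| ≤ R) :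
    ∃ C : ℝ, 0 < C ∧ (∀ x, |H x| ≤ C) ∧ ∀ x, |deriv H x| ≤ C := by
  have hs : HasCompactSupport H := HasCompactSupport.intro (isCompact_Icc (a := -R) (b := R)) fun x hx => by
    by_contra h
    exact hx (abs_le.1 (hR x h))
  obtain ⟨C1, hC1⟩ := hH.continuous.bounded_above_of_compact_support hs
  obtain ⟨C2, hC2⟩ := (hH.continuous_deriv (by simp)).bounded_above_of_compact_support hs.deriv
  have h0 : 0 ≤ C1 := (norm_nonneg _).trans (hC1 0)
  have h1 : 0 ≤ C2 := (norm_nonneg _).trans (hC2 0)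
  refine ⟨C1 + C2 + 1, by linarith, fun x => ?_, fun x => ?_⟩
  · have := hC1 x; rw [Real.norm_eq_abs] at this; linarith
  · have := hC2 x; rw [Real.norm_eq_abs] at this; linarith

/-- the primitive -/
private noncomputable def Ps (H : ℝ → ℝ) (R v : ℝ) : ℝ := ∫ z in (-R)..v, H z

private theorem Ps_deriv {H : ℝ → ℝ} (hH : Continuous H) (R v : ℝ) : HasDerivAt (Ps H R) (H v) v :=
  intervalIntegral.integral_hasDerivAt_right (hH.intervalIntegrable _ _) (hH.stronglyMeasurableAtFilter _ _) hH.continuousAt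

private theorem Ps_low {H : ℝ → ℝ} {R : ℝ} (hR0 : 0 < R) (hR : ∀ y, R ≤ |y| → H y = 0) {v : ℝ} (hv : v ≤ -R) : Ps H R v = 0 := by
  unfold Ps
  rw [intervalIntegral.integral_congr (g := fun _ => (0 : ℝ)), intervalIntegral.integral_zero]
  intro z hz
  rw [uIcc_of_ge hv] at hz
  refine hR z ?_
  rw [abs_of_nonpos (by linarith [hz.2])]
  linarith [hz.2]

private theorem Ps_high {H : ℝ → ℝ} {R : ℝ} (hR0 : 0 < R) (hR : ∀ y, R ≤ |y| → H y = 0) {v : ℝ} (hv : R ≤ v) :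
    Ps H R v = ∫ y, H y := by
  unfold Ps
  rw [intervalIntegral.integral_of_le (by linarith)]
  refine setIntegral_eq_integral_of_forall_compl_eq_zero fun z hz => ?_
  refine hR z ?_
  by_cases h1 : -R < z
  · have h2 : v < z := by
      by_contra h3
      exact hz ⟨h1, not_lt.1 h3⟩
    rw [abs_of_pos (by linarith)]
    linarith
  · rw [abs_of_nonpos (by linarith)]
    linarith

private theorem Ps_bd {H : ℝ → ℝ} {R C : ℝ} (hR0 : 0 < R) (hR : ∀ y, R ≤ |y| → H y = 0) (hC : ∀ y, |H y| ≤ C) (v : ℝ) :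
    |Ps H R v| ≤ C * (2 * R) := by
  have hC0 : 0 ≤ C := (abs_nonneg _).trans (hC 0)
  have key : ∀ v : ℝ, -R ≤ v → v ≤ R → |Ps H R v| ≤ C * (2 * R) := by
    intro v h1 h2
    unfold Ps
    have h3 := intervalIntegral.norm_integral_le_of_norm_le_const (a := -R) (b := v) (f := H) (C := C) (fun z _ => by
      rw [Real.norm_eq_abs]
      exact hC z)
    rw [Real.norm_eq_abs] at h3
    refine h3.trans (mul_le_mul_of_nonneg_left ?_ hC0)
    rw [abs_of_nonneg (by linarith)]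
    linarith
  rcases le_total v (-R) with h1 | h1
  · rw [Ps_low hR0 hR h1, abs_zero]
    positivity
  · rcases le_total v R with h2 | h2
    · exact key v h1 h2
    · rw [Ps_high hR0 hR h2, ← Ps_high hR0 hR le_rfl]
      exact key R (by linarith) le_rfl

private theorem Fs_int {H : ℝ → ℝ} (hH : Continuous H) (R v : ℝ) {A B : ℝ} (hA : 0 < A) (hAB : A ≤ B) :
    ∫ y in A..B, Fs H v y = Ps H R (v - Real.log A) - Ps H R (v - Real.log B) := by
  have h1 : ∀ y ∈ uIcc A B, HasDerivAt (fun y : ℝ => -(Ps H R (v - Real.log y))) (Fs H v y) y := by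
    intro y hy
    rw [uIcc_of_le hAB] at hy
    have hy0 : y ≠ 0 := (lt_of_lt_of_le hA hy.1).ne'
    have h2 : HasDerivAt (fun y : ℝ => v - Real.log y) (-(y⁻¹)) y := (Real.hasDerivAt_log hy0).const_sub v
    have h3 : HasDerivAt (fun y : ℝ => Ps H R (v - Real.log y)) (H (v - Real.log y) * (-(y⁻¹))) y :=
      HasDerivAt.comp (h := fun y : ℝ => v - Real.log y) y (Ps_deriv hH R (v - Real.log y)) h2
    refine h3.fun_neg.congr_deriv ?_
    unfold Fs
    field_simp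
  rw [intervalIntegral.integral_eq_sub_of_hasDerivAt h1]
  · ring
  · apply ContinuousOn.intervalIntegrable
    intro y hy
    rw [uIcc_of_le hAB] at hy
    have hy0 : y ≠ 0 := (lt_of_lt_of_le hA hy.1).ne'
    unfold Fs
    refine (ContinuousAt.div ?_ continuousAt_id hy0).continuousWithinAt
    have h4 : ContinuousAt (fun y : ℝ => v - Real.log y) y :=
      continuousAt_const.sub (Real.continuousAt_log hy0)
    exact hH.continuousAt.comp h4

/-- the inner sums -/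
private theorem inner {H : ℝ → ℝ} {R C : ℝ} (hH : ContDiff ℝ ∞ H) (hR : ∀ y, H y ≠ 0 → |y| ≤ R) (hC0 : 0 < C) (hC : ∀ x, |H x| ≤ C)
    (hC' : ∀ x, |deriv H x| ≤ C) (R' : ℝ) {A v : ℝ} {r : ℕ} (hA0 : 0 < A) (hr1 : A ≤ (r : ℝ)) :
    |(∑ a ∈ (Finset.Icc 1 ⌊(r:ℝ)⌋₊).filter (fun a : ℕ => A < (a : ℝ) ∧ Nat.Coprime a r), Fs H v a) -
      (Nat.totient r : ℝ) / r * (Ps H R' (v - Real.log A) - Ps H R' (v - Real.log r))| ≤ 16 * C * (r.divisors.card : ℝ) / A := by
  have hr0 : (0:ℝ) < r := lt_of_lt_of_le hA0 hr1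
  have h1 := cop_sum (r := r) (by rintro rfl; simp at hr0) (F := Fs H v) (A := A) (B := r)
    (M := 2 * C / A) (V := 2 * C / A) hA0 hr1 (Fs_smooth hH hR _) (by
      intro y hy
      have hy0 : 0 < y := lt_of_lt_of_le hA0 hy.1
      unfold Fs
      rw [abs_div, abs_of_pos hy0]
      apply div_le_div₀ (by positivity) _ hA0 hy.1
      linarith [hC (v - Real.log y)]) (by
      have hle : ∀ y ∈ Icc A (r : ℝ), |deriv (Fs H v) y| ≤ 2 * C / y ^ 2 := by
        intro y hy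
        have hy0 : 0 < y := lt_of_lt_of_le hA0 hy.1
        rw [Fs_deriv hH _ hy0, abs_div, abs_neg, abs_of_pos (by positivity : (0:ℝ) < y ^ 2)]
        gcongr
        refine (abs_add_le _ _).trans ?_
        linarith [hC (v - Real.log y), hC' (v - Real.log y)]
      calc ∫ y in A..(r:ℝ), |deriv (Fs H v) y| ≤ ∫ y in A..(r:ℝ), 2 * C / y ^ 2 := by
            apply intervalIntegral.integral_mono_on hr1
            · have hc : Continuous (deriv (Fs H v)) := (Fs_smooth hH hR _).continuous_deriv le_rfl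
              exact hc.abs.intervalIntegrable _ _
            · apply ContinuousOn.intervalIntegrable
              intro y hy
              rw [uIcc_of_le hr1] at hy
              have hy0 : y ≠ 0 := (lt_of_lt_of_le hA0 hy.1).ne'
              exact (ContinuousAt.div continuousAt_const (continuousAt_id.pow 2) (pow_ne_zero 2 hy0)).continuousWithinAt
            · exact hle
        _ = 2 * C / A - 2 * C / r := inv_sq_int hA0 hr1 _
        _ ≤ 2 * C / A := by
            have : 0 ≤ 2 * C / (r:ℝ) := by positivity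
            linarith)
  rw [Fs_int hH.continuous R' v hA0 hr1] at h1
  refine h1.trans (le_of_eq ?_)
  ring

/-- the outer sum -/
private theorem outer {Cφ : ℝ} (_hCφ0 : 0 < Cφ) (hCφ : ∀ x : ℝ, 1 ≤ x →
    |(∑ r ∈ (Finset.Icc 1 ⌊x⌋₊).filter Squarefree, 1 / (Nat.totient r : ℝ)) - Real.log x| ≤ Cφ) {H : ℝ → ℝ} {R C : ℝ} (hR0 : 0 < R)
    (hR : ∀ y, R ≤ |y| → H y = 0) (hC : ∀ y, |H y| ≤ C) {T e b0 : ℝ} (hT : 1 < T) (he : 0 < e) (he1 : e < 1 / 4)
    (hb0 : e * Real.log T ≤ b0 - R) :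
    |(∑ r ∈ Rg T e (1 / 2 - e), 1 / (Nat.totient r : ℝ) * Ps H R (Real.log r - b0)) - max ((1 / 2 - e) * Real.log T - b0) 0 * ∫ y, H y| ≤
      C * (2 * R) * (2 * R + 2 * Cφ) + C * (2 * R) * (2 * Cφ + R) := by
  have hC0 : 0 ≤ C := (abs_nonneg _).trans (hC 0)
  have hT0 : 0 < T := by linarith
  have hL0 : 0 < Real.log T := Real.log_pos hT
  obtain ⟨L, hL⟩ : ∃ L : ℝ, L = Real.log T := ⟨_, rfl⟩
  obtain ⟨t1, ht1⟩ : ∃ t : ℝ, t = min ((b0 - R) / L) (1 / 2 - e) := ⟨_, rfl⟩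
  obtain ⟨t2, ht2⟩ : ∃ t : ℝ, t = min ((b0 + R) / L) (1 / 2 - e) := ⟨_, rfl⟩
  obtain ⟨I, hI⟩ : ∃ I : ℝ, I = ∫ y, H y := ⟨_, rfl⟩
  rw [← hL] at hL0 hb0 ⊢
  rw [← hI]
  have hIb : |I| ≤ C * (2 * R) := by
    rw [hI, ← Ps_high hR0 hR le_rfl]
    exact Ps_bd hR0 hR hC R
  have h01 : e ≤ t1 := by
    rw [ht1]
    refine le_min ?_ (by linarith)
    rw [le_div_iff₀ hL0]
    exact hb0
  have h12 : t1 ≤ t2 := by
    rw [ht1, ht2]
    refine min_le_min ?_ le_rfl
    gcongr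
    linarith
  have h23 : t2 ≤ 1 / 2 - e := by
    rw [ht2]
    exact min_le_right _ _
  rw [Rg_add hT h01 (h12.trans h23), Rg_add hT h12 h23]
  -- the first part
  have p1 : ∑ r ∈ Rg T e t1, 1 / (Nat.totient r : ℝ) * Ps H R (Real.log r - b0) = 0 := by
    refine Finset.sum_eq_zero fun r hr => ?_
    rw [mem_Rg hT] at hr
    obtain ⟨-, h3, h4⟩ := hr
    have hr0 : (0:ℝ) < r := lt_trans (by positivity) h3
    have h5 : Real.log r ≤ t1 * L := by
      rw [hL, ← Real.log_rpow hT0]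
      exact Real.log_le_log hr0 h4
    have h6 : t1 * L ≤ b0 - R := by
      rw [← le_div_iff₀ hL0, ht1]
      exact min_le_left _ _
    rw [Ps_low hR0 hR (by linarith), mul_zero]
  -- the middle part
  have p2 : |∑ r ∈ Rg T t1 t2, 1 / (Nat.totient r : ℝ) * Ps H R (Real.log r - b0)| ≤ C * (2 * R) * (2 * R + 2 * Cφ) := by
    have m1 := (abs_le.1 (Rg_mass hCφ hT (by linarith : 0 ≤ t1) h12)).2
    rw [← hL] at m1
    have m2 : (t2 - t1) * L ≤ 2 * R := by
      rw [← le_div_iff₀ hL0, ht1, ht2]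
      have h3 : (b0 + R) / L = (b0 - R) / L + 2 * R / L := by
        rw [← add_div]
        congr 1
        ring
      have h4 : 0 ≤ 2 * R / L := by positivity
      rcases min_cases ((b0 - R) / L) (1 / 2 - e) with ⟨h5, h6⟩ | ⟨h5, h6⟩
      · rw [h5]
        have := min_le_left ((b0 + R) / L) (1 / 2 - e)
        linarith
      · rw [h5]
        have := min_le_right ((b0 + R) / L) (1 / 2 - e)
        linarith
    calc |∑ r ∈ Rg T t1 t2, 1 / (Nat.totient r : ℝ) * Ps H R (Real.log r - b0)| ≤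
          ∑ r ∈ Rg T t1 t2, |1 / (Nat.totient r : ℝ) * Ps H R (Real.log r - b0)| := Finset.abs_sum_le_sum_abs _ _
      _ ≤ ∑ r ∈ Rg T t1 t2, C * (2 * R) * (1 / (Nat.totient r : ℝ)) := by
          refine Finset.sum_le_sum fun r _ => ?_
          rw [abs_mul, abs_of_nonneg (by positivity : (0:ℝ) ≤ 1 / (Nat.totient r : ℝ)), mul_comm]
          exact mul_le_mul_of_nonneg_right (Ps_bd hR0 hR hC _) (by positivity)
      _ = C * (2 * R) * ∑ r ∈ Rg T t1 t2, 1 / (Nat.totient r : ℝ) := by rw [← Finset.mul_sum]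
      _ ≤ C * (2 * R) * (2 * R + 2 * Cφ) := by
          refine mul_le_mul_of_nonneg_left ?_ (by positivity)
          linarith
  -- the third part
  have p3 : ∑ r ∈ Rg T t2 (1 / 2 - e), 1 / (Nat.totient r : ℝ) * Ps H R (Real.log r - b0) =
      (∑ r ∈ Rg T t2 (1 / 2 - e), 1 / (Nat.totient r : ℝ)) * I := by
    rw [Finset.sum_mul]
    refine Finset.sum_congr rfl fun r hr => ?_
    rw [mem_Rg hT] at hr
    obtain ⟨-, h3, h4⟩ := hr
    have hr0 : (0:ℝ) < r := lt_trans (by positivity) h3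
    have h5 : t2 * L < Real.log r := by
      rw [hL, ← Real.log_rpow hT0]
      exact Real.log_lt_log (by positivity) h3
    have h5' : Real.log r ≤ (1 / 2 - e) * L := by
      rw [hL, ← Real.log_rpow hT0]
      exact Real.log_le_log hr0 h4
    have h6 : t2 < 1 / 2 - e := lt_of_mul_lt_mul_right (lt_of_lt_of_le h5 h5') hL0.le
    have h7 : t2 = (b0 + R) / L := by
      rw [ht2] at h6 ⊢
      rcases min_cases ((b0 + R) / L) (1 / 2 - e) with ⟨h8, -⟩ | ⟨h8, -⟩
      · exact h8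
      · rw [h8] at h6
        exact absurd h6 (lt_irrefl _)
    have h8 : b0 + R < Real.log r := by
      rw [h7, div_mul_cancel₀ _ hL0.ne'] at h5
      exact h5
    rw [Ps_high hR0 hR (by linarith), ← hI]
  have m3 := Rg_mass hCφ hT (by linarith : 0 ≤ t2) h23
  rw [← hL] at m3
  have m4 : |(1 / 2 - e - t2) * L - max ((1 / 2 - e) * L - b0) 0| ≤ R := by
    have h3 : t2 * L = min (b0 + R) ((1 / 2 - e) * L) := by
      rw [ht2, min_mul_of_nonneg _ _ hL0.le, div_mul_cancel₀ _ hL0.ne']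
    have h4 : (1 / 2 - e - t2) * L = (1 / 2 - e) * L - min (b0 + R) ((1 / 2 - e) * L) := by
      rw [← h3]
      ring
    rw [h4]
    rcases min_cases (b0 + R) ((1 / 2 - e) * L) with ⟨h5, h6⟩ | ⟨h5, h6⟩
    · rw [h5, max_eq_left (by linarith), abs_le]
      constructor <;> linarith
    · rw [h5, sub_self, zero_sub, abs_neg, abs_of_nonneg (le_max_right _ _)]
      exact max_le (by linarith) hR0.le
  obtain ⟨W, hW⟩ : ∃ W : ℝ, W = ∑ r ∈ Rg T t2 (1 / 2 - e), 1 / (Nat.totient r : ℝ) := ⟨_, rfl⟩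
  rw [p1, p3, zero_add, ← hW]
  rw [← hW] at m3
  have m5 : |W - max ((1 / 2 - e) * L - b0) 0| ≤ 2 * Cφ + R := by
    have h3 : W - max ((1 / 2 - e) * L - b0) 0 = (W - (1 / 2 - e - t2) * L) + ((1 / 2 - e - t2) * L - max ((1 / 2 - e) * L - b0) 0) := by ring
    rw [h3]
    exact (abs_add_le _ _).trans (add_le_add m3 m4)
  have h9 : ∀ x y z w : ℝ, x + y * w - z * w = x + (y - z) * w := by intros; ring
  rw [h9]
  refine (abs_add_le _ _).trans (add_le_add p2 ?_)
  rw [abs_mul, mul_comm]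
  exact mul_le_mul hIb m5 (abs_nonneg _) (by positivity)

theorem dsum_s {H : ℝ → ℝ} {R : ℝ} (hH : ContDiff ℝ ∞ H) (hR : ∀ y, H y ≠ 0 → |y| ≤ R) {e κ : ℝ} (he : 0 < e) (he1 : e < 1 / 4) (hκ : 0 < κ)
    {ε : ℝ} (hε : 0 < ε) : ∀ᶠ T : ℝ in atTop, ∀ c : ℝ, (1 + κ) * Real.log T ≤ c → c ≤ (3 / 2 - κ) * Real.log T →
    |(1 / Real.log T) * (∑ x ∈ RA e T, mf x.1 ^ 2 * ((x.1 : ℝ) / x.2) * H (Real.log T * lr T x - c)) -
      max (3 / 2 - c / Real.log T - 2 * e) 0 * ∫ y, H y| ≤ ε := by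
  classical
  obtain ⟨C, hC0, hC, hC'⟩ := H_bd hH hR
  obtain ⟨Cφ, hCφ0, hCφ⟩ := phi_sum
  obtain ⟨Cd, hCd0, hCd⟩ := div_bound (ε := e / 4) (by positivity)
  obtain ⟨R', hR'⟩ : ∃ R' : ℝ, R' = |R| + 1 := ⟨_, rfl⟩
  have hR0 : 0 < R' := by
    rw [hR']
    positivity
  have hRz : ∀ y, R' ≤ |y| → H y = 0 := by
    intro y hy
    by_contra h
    have h1 := hR y h
    have h2 := le_abs_self R
    rw [hR'] at hy
    linarith
  -- the error
  have herr : Tendsto (fun T : ℝ => (16 * C * Cd ^ 2) * ((Real.log T + 2 * Cφ) / T ^ (e / 2)) +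
      (C * (2 * R') * (2 * R' + 2 * Cφ) + C * (2 * R') * (2 * Cφ + R')) / Real.log T) atTop (𝓝 0) := by
    have h1 : Tendsto (fun T : ℝ => Real.log T / T ^ (e / 2)) atTop (𝓝 0) :=
      (isLittleO_log_rpow_atTop (by positivity)).tendsto_div_nhds_zero
    have h2 : Tendsto (fun T : ℝ => 2 * Cφ / T ^ (e / 2)) atTop (𝓝 0) :=
      Tendsto.div_atTop tendsto_const_nhds (tendsto_rpow_atTop (by positivity))
    have h3 := (h1.add h2).const_mul (16 * C * Cd ^ 2)
    rw [add_zero, mul_zero] at h3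
    have h4 : Tendsto (fun T : ℝ => (C * (2 * R') * (2 * R' + 2 * Cφ) + C * (2 * R') * (2 * Cφ + R')) / Real.log T) atTop (𝓝 0) :=
      Tendsto.div_atTop tendsto_const_nhds Real.tendsto_log_atTop
    have h5 := h3.add h4
    rw [add_zero] at h5
    refine h5.congr fun T => ?_
    ring
  have hev := (tendsto_order.1 herr).2 ε hε
  filter_upwards [eventually_ge_atTop (Real.exp 1), hev, Real.tendsto_log_atTop.eventually_ge_atTop (R' / κ)] with T hT hsmall hlarge
  intro c hc1 hc2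
  have hT1 : 1 < T := lt_of_lt_of_le (by have := Real.add_one_lt_exp (one_ne_zero); linarith) hT
  have hT0 : 0 < T := by linarith
  have hL : 1 ≤ Real.log T := by
    rw [← Real.log_exp 1]; exact Real.log_le_log (Real.exp_pos 1) hT
  have hL0 : 0 < Real.log T := by linarith
  have hA0 : 0 < T ^ e := by positivity
  have hκL : R' ≤ κ * Real.log T := by
    rw [div_le_iff₀ hκ] at hlarge
    linarith
  obtain ⟨L, hLd⟩ : ∃ L : ℝ, L = Real.log T := ⟨_, rfl⟩
  rw [← hLd] at hL hL0 hκL hc1 hc2 hsmall ⊢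
  rw [sum_RA hT1 he]
  obtain ⟨b0, hb0⟩ : ∃ b0 : ℝ, b0 = c - L + e * L := ⟨_, rfl⟩
  have hb0' : e * L ≤ b0 - R' := by
    rw [hb0]
    linarith
  have hout := outer (H := H) (C := C) hCφ0 hCφ hR0 hRz hC hT1 he he1 (b0 := b0) (by rw [← hLd]; exact hb0')
  rw [← hLd] at hout
  -- the inner sums
  have hin : ∀ r ∈ Rg T e (1 / 2 - e),
      |(∑ a ∈ (Finset.Icc 1 ⌊(r:ℝ)⌋₊).filter (fun a : ℕ => T ^ e < (a : ℝ) ∧ Nat.Coprime a r), Fs H (L - c + Real.log r) a) -
        (Nat.totient r : ℝ) / r * Ps H R' (Real.log r - b0)| ≤ 16 * C * (r.divisors.card : ℝ) / T ^ e := by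
    intro r hr
    rw [mem_Rg hT1] at hr
    obtain ⟨hsq, hr1, hr2⟩ := hr
    have h1 := inner hH hR hC0 hC hC' R' (v := L - c + Real.log r) hA0 hr1.le
    have h2 : L - c + Real.log r - Real.log r ≤ -R' := by
      have : L - c + Real.log r - Real.log r = L - c := by ring
      rw [this]
      linarith
    rw [Ps_low hR0 hRz h2, sub_zero, Real.log_rpow hT0, ← hLd] at h1
    have h3 : L - c + Real.log r - e * L = Real.log r - b0 := by
      rw [hb0]
      ring
    rw [h3] at h1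
    exact h1
  have hrw : (1 / L) * (∑ r ∈ Rg T e (1 / 2 - e), ∑ a ∈ (Finset.Icc 1 ⌊(r:ℝ)⌋₊).filter
      (fun a : ℕ => T ^ e < (a : ℝ) ∧ Nat.Coprime a r), mf (r, a).1 ^ 2 * (((r, a).1 : ℝ) / (r, a).2) * H (L * lr T (r, a) - c)) -
      max (3 / 2 - c / L - 2 * e) 0 * ∫ y, H y =
      (1 / L) * ∑ r ∈ Rg T e (1 / 2 - e), ((r : ℝ) / (Nat.totient r : ℝ) ^ 2) *
        ((∑ a ∈ (Finset.Icc 1 ⌊(r:ℝ)⌋₊).filter (fun a : ℕ => T ^ e < (a : ℝ) ∧ Nat.Coprime a r), Fs H (L - c + Real.log r) a) -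
        (Nat.totient r : ℝ) / r * Ps H R' (Real.log r - b0)) +
      (1 / L) * ((∑ r ∈ Rg T e (1 / 2 - e), 1 / (Nat.totient r : ℝ) * Ps H R' (Real.log r - b0)) -
        max ((1 / 2 - e) * L - b0) 0 * ∫ y, H y) := by
    have g1 : ∑ r ∈ Rg T e (1 / 2 - e), 1 / (Nat.totient r : ℝ) * Ps H R' (Real.log r - b0) =
        ∑ r ∈ Rg T e (1 / 2 - e), ((r : ℝ) / (Nat.totient r : ℝ) ^ 2) *
          ((Nat.totient r : ℝ) / r * Ps H R' (Real.log r - b0)) := by
      apply Finset.sum_congr rfl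
      intro r hr
      rw [mem_Rg hT1] at hr
      have hr0 : (0:ℝ) < r := lt_trans hA0 hr.2.1
      have hφ : (0:ℝ) < Nat.totient r := by
        have : 0 < r := by exact_mod_cast hr0
        exact_mod_cast Nat.totient_pos.2 this
      field_simp
    have g2 : ∑ r ∈ Rg T e (1 / 2 - e), ∑ a ∈ (Finset.Icc 1 ⌊(r:ℝ)⌋₊).filter
        (fun a : ℕ => T ^ e < (a : ℝ) ∧ Nat.Coprime a r), mf (r, a).1 ^ 2 * (((r, a).1 : ℝ) / (r, a).2) * H (L * lr T (r, a) - c) =
        ∑ r ∈ Rg T e (1 / 2 - e), ((r : ℝ) / (Nat.totient r : ℝ) ^ 2) *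
        (∑ a ∈ (Finset.Icc 1 ⌊(r:ℝ)⌋₊).filter (fun a : ℕ => T ^ e < (a : ℝ) ∧ Nat.Coprime a r), Fs H (L - c + Real.log r) a) := by
      apply Finset.sum_congr rfl
      intro r hr
      rw [mem_Rg hT1] at hr
      rw [Finset.mul_sum]
      apply Finset.sum_congr rfl
      intro a _
      have hmf : mf r ^ 2 = 1 / (Nat.totient r : ℝ) ^ 2 := by
        unfold mf
        rw [div_pow]
        congr 1
        have h2 : (ArithmeticFunction.moebius r) ^ 2 = 1 := by
          rw [ArithmeticFunction.moebius_sq_eq_one_of_squarefree hr.1]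
        exact_mod_cast h2
      have hlr : L * lr T (r, a) - c = L - c + Real.log r - Real.log a := by
        unfold lr
        simp only
        rw [← hLd]
        field_simp
        ring
      rw [hlr]
      simp only [hmf]
      unfold Fs
      ring
    have g3 : max (3 / 2 - c / L - 2 * e) 0 = 1 / L * max ((1 / 2 - e) * L - b0) 0 := by
      rw [mul_max_of_nonneg _ _ (by positivity : (0 : ℝ) ≤ 1 / L), mul_zero]
      congr 1
      rw [hb0]
      field_simp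
      ring
    rw [g2, g1, g3]
    simp only [mul_sub, Finset.sum_sub_distrib]
    ring
  rw [hrw]
  have hmass := (abs_le.1 (Rg_mass hCφ hT1 he.le (b := 1 / 2 - e) (by linarith))).2
  rw [← hLd] at hmass
  have hterm : ∀ r ∈ Rg T e (1 / 2 - e), |((r : ℝ) / (Nat.totient r : ℝ) ^ 2) *
        ((∑ a ∈ (Finset.Icc 1 ⌊(r:ℝ)⌋₊).filter (fun a : ℕ => T ^ e < (a : ℝ) ∧ Nat.Coprime a r), Fs H (L - c + Real.log r) a) -
        (Nat.totient r : ℝ) / r * Ps H R' (Real.log r - b0))| ≤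
      16 * C * Cd ^ 2 / T ^ (e / 2) * (1 / (Nat.totient r : ℝ)) := by
    intro r hr
    have h1 := hin r hr
    rw [mem_Rg hT1] at hr
    obtain ⟨hsq, hr1, hr2⟩ := hr
    have hr0 : (0:ℝ) < r := lt_trans hA0 hr1
    have hr0' : r ≠ 0 := by rintro rfl; simp at hr0
    have hφ : (0:ℝ) < Nat.totient r := by exact_mod_cast Nat.totient_pos.2 (Nat.pos_of_ne_zero hr0')
    have hτ := tot_ge hsq
    have hτ2 := hCd r hr0'
    have hrT : (r : ℝ) ≤ T := by
      refine hr2.trans ?_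
      calc T ^ (1 / 2 - e) ≤ T ^ (1 : ℝ) := Real.rpow_le_rpow_of_exponent_le hT1.le (by linarith)
        _ = T := Real.rpow_one T
    have hτ3 : (r.divisors.card : ℝ) ≤ Cd * T ^ (e / 4) := hτ2.trans (by gcongr)
    rw [abs_mul, abs_of_pos (by positivity : (0:ℝ) < (r : ℝ) / (Nat.totient r : ℝ) ^ 2)]
    have h2 : (r : ℝ) / (Nat.totient r : ℝ) ^ 2 ≤ (r.divisors.card : ℝ) * (1 / (Nat.totient r : ℝ)) := by
      rw [div_le_iff₀ (by positivity)]
      calc (r : ℝ) ≤ (r.divisors.card : ℝ) * (Nat.totient r : ℝ) := hτ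
        _ = _ := by field_simp
    calc (r : ℝ) / (Nat.totient r : ℝ) ^ 2 * _ ≤ ((r.divisors.card : ℝ) * (1 / (Nat.totient r : ℝ))) *
          (16 * C * (r.divisors.card : ℝ) / T ^ e) := by gcongr
      _ = 16 * C / T ^ e * (1 / (Nat.totient r : ℝ)) * (r.divisors.card : ℝ) ^ 2 := by ring
      _ ≤ 16 * C / T ^ e * (1 / (Nat.totient r : ℝ)) * (Cd * T ^ (e / 4)) ^ 2 := by gcongr
      _ = 16 * C * Cd ^ 2 / T ^ (e / 2) * (1 / (Nat.totient r : ℝ)) := by
          have h3 : (T ^ (e / 4)) ^ 2 = T ^ e / T ^ (e / 2) := by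
            rw [← Real.rpow_natCast, ← Real.rpow_mul hT0.le, ← Real.rpow_sub hT0]
            congr 1
            push_cast
            ring
          rw [mul_pow, h3]
          field_simp
  refine (abs_add_le _ _).trans (le_trans (add_le_add ?_ ?_) hsmall.le)
  · rw [abs_mul, abs_of_pos (by positivity : (0:ℝ) < 1 / L)]
    calc 1 / L * |∑ r ∈ Rg T e (1 / 2 - e), ((r : ℝ) / (Nat.totient r : ℝ) ^ 2) *
          ((∑ a ∈ (Finset.Icc 1 ⌊(r:ℝ)⌋₊).filter (fun a : ℕ => T ^ e < (a : ℝ) ∧ Nat.Coprime a r), Fs H (L - c + Real.log r) a) -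
          (Nat.totient r : ℝ) / r * Ps H R' (Real.log r - b0))|
        ≤ 1 * ∑ r ∈ Rg T e (1 / 2 - e), 16 * C * Cd ^ 2 / T ^ (e / 2) * (1 / (Nat.totient r : ℝ)) := by
          gcongr
          · rw [div_le_one (by positivity)]
            exact hL
          · exact (Finset.abs_sum_le_sum_abs _ _).trans (Finset.sum_le_sum hterm)
      _ = 16 * C * Cd ^ 2 / T ^ (e / 2) * ∑ r ∈ Rg T e (1 / 2 - e), 1 / (Nat.totient r : ℝ) := by
          rw [one_mul, ← Finset.mul_sum]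
      _ ≤ 16 * C * Cd ^ 2 / T ^ (e / 2) * (L + 2 * Cφ) := by
          gcongr
          have h3 : (1 / 2 - e - e) * L ≤ L := by nlinarith
          linarith
      _ = _ := by ring
  · rw [abs_mul, abs_of_pos (by positivity : (0:ℝ) < 1 / L)]
    calc 1 / L * _ ≤ 1 / L * (C * (2 * R') * (2 * R' + 2 * Cφ) + C * (2 * R') * (2 * Cφ + R')) := by gcongr
      _ = _ := by ring

end Pool.Agent.Helper57.KP
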