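import Pool.Agent.Helper57.KP.Defs
import Pool.Agent.Helper57.FL.Fin

/-!
# KP-F1: the form factor of Baluyot, Goldston, Suriajaya, Turnage-Butterbaugh (on RH: Montgomery's) as a mean of `F_T`

`bg T α = (T log T/2π)^(-1) ∑_{ρ,ρ'} m m' T^(α(ρ-ρ')) 4/(4-(ρ-ρ')²)` over the nontrivial zeros with ordinate in `[0,T]`.

PROOF. `∫ e^(-2|y|) e^(y z) dy = 4/(4 - z²)` for `|Re z| < 2` (split at 0: `1/(2-z) + 1/(2+z)`). `ff T x = S^(-1) ‖∑ m T^(x(ρ-1/2))‖² = S^(-1) ∑∑ m m' T^(x(ρ + conj ρ' - 1))` (finite sums over `Zf T`; read `ff` in Helper57/FL/Defs), with `x = α + y/L`: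
`T^(x z) = T^(α z) e^(y z)`, `z = ρ + conj ρ' - 1`, `|Re z| < 1`. The reflection `ρ' ↦ 1 - conj ρ'` is a bijection of `Zf T` which preserves the multiplicity (`st_mem` in Helper6/HM/Zeros.lean, copy it; `mx` against `mult`), and `z = ρ - (1 - conj ρ')`.
-/

open MeasureTheory Set Filter Topology
open Pool.Agent.Helper57.Zeta Pool.Agent.Helper57.PC Pool.Agent.Helper57.LH Pool.Agent.Helper78.SG
open Pool.Agent.Helper4.SH (om)
open Pool.Agent.Helper69.FF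
open scoped ContDiff

set_option autoImplicit false

namespace Pool.Agent.Helper57.KP

/-- the form factor of Baluyot-Goldston-Suriajaya-Turnage-Butterbaugh -/
noncomputable def bg (T α : ℝ) : ℂ := ((T * Real.log T / (2 * Real.pi) : ℝ) : ℂ)⁻¹ * ∑ ρ ∈ Zf T, ∑ σ ∈ Zf T,
  ((mult ρ : ℂ) * (mult σ : ℂ)) * ((T : ℂ) ^ ((α : ℂ) * (ρ - σ)) * (4 / (4 - (ρ - σ) ^ 2)))

open scoped ComplexConjugate in
private lemma st84 {T : ℝ} {ρ : ℂ} (h : ρ ∈ Zf T) : 1 - conj ρ ∈ Zf T ∧ mult (1 - conj ρ) = mult ρ := by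
  rw [mem_Zf] at h
  have h1 : xi ρ = 0 := isNontrivialZero_iff.mp h.1
  have h2 : xi (1 - conj ρ) = 0 := by rw [xi_one_sub, xi_conj, h1, map_zero]
  have h3 : IsNontrivialZero (1 - conj ρ) := isNontrivialZero_iff.mpr h2
  refine ⟨mem_Zf.2 ⟨h3, ?_⟩, ?_⟩
  · simpa using h.2
  · rw [mult_eq h3, mult_eq h.1, order_one_sub, order_conj]

private lemma int84 {z : ℂ} (hz : |z.re| < 2) :
    Integrable (fun y : ℝ => ((Real.exp (-2 * |y|) : ℝ) : ℂ) * Complex.exp (y * z)) ∧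
      ∫ y : ℝ, ((Real.exp (-2 * |y|) : ℝ) : ℂ) * Complex.exp (y * z) = 4 / (4 - z ^ 2) := by
  obtain ⟨hz1, hz2⟩ := abs_lt.1 hz
  have ha : (z - 2).re < 0 := by simp; linarith
  have hb : 0 < (z + 2).re := by simp; linarith
  have e1 : EqOn (fun y : ℝ => ((Real.exp (-2 * |y|) : ℝ) : ℂ) * Complex.exp (y * z))
      (fun y : ℝ => Complex.exp ((z - 2) * y)) (Ioi 0) := by
    intro y hy
    have hy0 : (0 : ℝ) < y := hy
    show ((Real.exp (-2 * |y|) : ℝ) : ℂ) * Complex.exp (y * z) = Complex.exp ((z - 2) * y)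
    rw [abs_of_pos hy0, Complex.ofReal_exp, ← Complex.exp_add]
    congr 1
    push_cast
    ring
  have e2 : EqOn (fun y : ℝ => ((Real.exp (-2 * |y|) : ℝ) : ℂ) * Complex.exp (y * z))
      (fun y : ℝ => Complex.exp ((z + 2) * y)) (Iic 0) := by
    intro y hy
    have hy0 : y ≤ (0 : ℝ) := hy
    show ((Real.exp (-2 * |y|) : ℝ) : ℂ) * Complex.exp (y * z) = Complex.exp ((z + 2) * y)
    rw [abs_of_nonpos hy0, Complex.ofReal_exp, ← Complex.exp_add]
    congr 1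
    push_cast
    ring
  have i1 : IntegrableOn (fun y : ℝ => ((Real.exp (-2 * |y|) : ℝ) : ℂ) * Complex.exp (y * z)) (Ioi 0) :=
    (integrableOn_exp_mul_complex_Ioi ha 0).congr_fun (fun y hy => (e1 hy).symm) measurableSet_Ioi
  have i2 : IntegrableOn (fun y : ℝ => ((Real.exp (-2 * |y|) : ℝ) : ℂ) * Complex.exp (y * z)) (Iic 0) :=
    (integrableOn_exp_mul_complex_Iic hb 0).congr_fun (fun y hy => (e2 hy).symm) measurableSet_Iic
  refine ⟨?_, ?_⟩
  · rw [← integrableOn_univ, ← Iic_union_Ioi (a := (0 : ℝ))]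
    exact i2.union i1
  · rw [← intervalIntegral.integral_Iic_add_Ioi i2 i1, setIntegral_congr_fun measurableSet_Ioi e1,
      setIntegral_congr_fun measurableSet_Iic e2, integral_exp_mul_complex_Ioi ha, integral_exp_mul_complex_Iic hb]
    have n1 : z - 2 ≠ 0 := fun h => by rw [h] at ha; simp at ha
    have n2 : z + 2 ≠ 0 := fun h => by rw [h] at hb; simp at hb
    have n3 : 4 - z ^ 2 ≠ 0 := by
      have : 4 - z ^ 2 = -((z - 2) * (z + 2)) := by ring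
      rw [this]
      exact neg_ne_zero.2 (mul_ne_zero n1 n2)
    simp only [Complex.ofReal_zero, mul_zero, Complex.exp_zero]
    field_simp
    ring

open Pool.Agent.Helper57.FL (ff) in
open scoped ComplexConjugate in
private lemma ff84 {T : ℝ} (hT : 3 ≤ T) (α y : ℝ) :
    ((Real.exp (-2 * |y|) * ff T (α + y / Real.log T) : ℝ) : ℂ) =
      ((T * Real.log T / (2 * Real.pi) : ℝ) : ℂ)⁻¹ * ∑ ρ ∈ Zf T, ∑ σ ∈ Zf T, ((mult ρ : ℂ) * (mult σ : ℂ)) *
        ((T : ℂ) ^ ((α : ℂ) * (ρ + conj σ - 1)) * (((Real.exp (-2 * |y|) : ℝ) : ℂ) *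
          Complex.exp (y * (ρ + conj σ - 1)))) := by
  have hT0 : 0 < T := by linarith
  have hL : 0 < Real.log T := Real.log_pos (by linarith)
  have hTc : (T : ℂ) ≠ 0 := by exact_mod_cast hT0.ne'
  have hm : ∀ ρ ∈ Zf T, (mx ρ : ℂ) = (mult ρ : ℂ) := by
    intro ρ hρ
    unfold mx
    rw [mult_eq (mem_Zf.1 hρ).1]
    push_cast
    rfl
  have hpow : ∀ w : ℂ, (T : ℂ) ^ w = Complex.exp (Real.log T * w) := by
    intro w
    rw [Complex.cpow_def_of_ne_zero hTc, Complex.ofReal_log hT0.le]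
  have hy : ∀ w : ℂ, Complex.exp (Real.log T * (((α + y / Real.log T : ℝ) : ℂ) * w)) =
      Complex.exp (Real.log T * (α * w)) * Complex.exp (y * w) := by
    intro w
    rw [← Complex.exp_add]
    congr 1
    have hLc : ((Real.log T : ℝ) : ℂ) ≠ 0 := by exact_mod_cast hL.ne'
    push_cast
    field_simp
  unfold ff
  set A : ℂ := ∑ ρ ∈ Zf T, (mx ρ : ℂ) * (T : ℂ) ^ (((α + y / Real.log T : ℝ) : ℂ) * (ρ - 1 / 2)) with hA
  have h1 : ((‖A‖ ^ 2 : ℝ) : ℂ) = A * conj A := by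
    rw [Complex.mul_conj, Complex.normSq_eq_norm_sq]
  have h2 : A * conj A = ∑ ρ ∈ Zf T, ∑ σ ∈ Zf T, ((mult ρ : ℂ) * (mult σ : ℂ)) *
      ((T : ℂ) ^ ((α : ℂ) * (ρ + conj σ - 1)) * Complex.exp (y * (ρ + conj σ - 1))) := by
    rw [hA, map_sum, Finset.sum_mul_sum]
    refine Finset.sum_congr rfl fun ρ hρ => Finset.sum_congr rfl fun σ hσ => ?_
    rw [map_mul, hm ρ hρ, hm σ hσ, map_natCast, hpow, hpow, hpow, ← Complex.exp_conj]
    have e1 : conj ((Real.log T : ℂ) * (((α + y / Real.log T : ℝ) : ℂ) * (σ - 1 / 2))) =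
        (Real.log T : ℂ) * (((α + y / Real.log T : ℝ) : ℂ) * (conj σ - 1 / 2)) := by
      simp only [map_mul, map_sub, Complex.conj_ofReal, map_div₀, map_one, map_ofNat]
    rw [e1, ← hy, mul_mul_mul_comm, ← Complex.exp_add]
    congr 2
    ring
  have h3 : ((Real.exp (-2 * |y|) * (2 * Real.pi / (T * Real.log T) * ‖A‖ ^ 2) : ℝ) : ℂ) =
      ((T * Real.log T / (2 * Real.pi) : ℝ) : ℂ)⁻¹ * (((Real.exp (-2 * |y|) : ℝ) : ℂ) * (A * conj A)) := by
    rw [← h1]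
    push_cast
    rw [inv_div]
    ring
  rw [h3, h2, Finset.mul_sum]
  congr 1
  refine Finset.sum_congr rfl fun ρ _ => ?_
  rw [Finset.mul_sum]
  refine Finset.sum_congr rfl fun σ _ => ?_
  ring

open Pool.Agent.Helper57.FL (ff) in
theorem bg_eq {T : ℝ} (hT : 3 ≤ T) (α : ℝ) :
    Integrable (fun y : ℝ => Real.exp (-2 * |y|) * ff T (α + y / Real.log T)) ∧
    bg T α = ((∫ y : ℝ, Real.exp (-2 * |y|) * ff T (α + y / Real.log T) : ℝ) : ℂ) := by
  have hre : ∀ ρ ∈ Zf T, ∀ σ ∈ Zf T, |(ρ + (starRingEnd ℂ) σ - 1).re| < 2 := by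
    intro ρ hρ σ hσ
    have h1 := (mem_Zf.1 hρ).1
    have h2 := (mem_Zf.1 hσ).1
    have h3 : (ρ + (starRingEnd ℂ) σ - 1).re = ρ.re + σ.re - 1 := by simp
    rw [h3, abs_lt]
    constructor <;> linarith [h1.2.1, h1.2.2, h2.2.1, h2.2.2]
  set S : ℂ := ((T * Real.log T / (2 * Real.pi) : ℝ) : ℂ)⁻¹ with hS
  have hI : Integrable (fun y : ℝ => S * ∑ ρ ∈ Zf T, ∑ σ ∈ Zf T, ((mult ρ : ℂ) * (mult σ : ℂ)) *
      ((T : ℂ) ^ ((α : ℂ) * (ρ + (starRingEnd ℂ) σ - 1)) * (((Real.exp (-2 * |y|) : ℝ) : ℂ) *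
        Complex.exp (y * (ρ + (starRingEnd ℂ) σ - 1))))) := by
    refine Integrable.const_mul ?_ _
    refine integrable_finsetSum _ fun ρ hρ => integrable_finsetSum _ fun σ hσ => ?_
    exact ((int84 (hre ρ hρ σ hσ)).1.const_mul _).const_mul _
  have hfun : (fun y : ℝ => ((Real.exp (-2 * |y|) * ff T (α + y / Real.log T) : ℝ) : ℂ)) =
      fun y : ℝ => S * ∑ ρ ∈ Zf T, ∑ σ ∈ Zf T, ((mult ρ : ℂ) * (mult σ : ℂ)) *
      ((T : ℂ) ^ ((α : ℂ) * (ρ + (starRingEnd ℂ) σ - 1)) * (((Real.exp (-2 * |y|) : ℝ) : ℂ) *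
        Complex.exp (y * (ρ + (starRingEnd ℂ) σ - 1)))) := funext fun y => ff84 hT α y
  refine ⟨?_, ?_⟩
  · have h := hI
    rw [← hfun] at h
    exact h.re
  · rw [← integral_complex_ofReal, hfun, integral_const_mul,
      integral_finsetSum _ fun ρ hρ => integrable_finsetSum _ fun σ hσ =>
        ((int84 (hre ρ hρ σ hσ)).1.const_mul _).const_mul _]
    unfold bg
    rw [← hS]
    congr 1
    refine Finset.sum_congr rfl fun ρ hρ => ?_
    rw [integral_finsetSum _ fun σ hσ => ((int84 (hre ρ hρ σ hσ)).1.const_mul _).const_mul _]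
    refine Finset.sum_bij' (fun σ _ => 1 - (starRingEnd ℂ) σ) (fun σ _ => 1 - (starRingEnd ℂ) σ)
      (fun σ hσ => (st84 hσ).1) (fun σ hσ => (st84 hσ).1) (fun σ _ => by simp) (fun σ _ => by simp) ?_
    intro σ hσ
    have hσ' := (st84 hσ).1
    rw [integral_const_mul, integral_const_mul, (int84 (hre ρ hρ _ hσ')).2, (st84 hσ).2]
    have e : ρ + (starRingEnd ℂ) (1 - (starRingEnd ℂ) σ) - 1 = ρ - σ := by
      simp
      ring
    rw [e]

end Pool.Agent.Helper57.KP
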