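import Pool.Agent.Helper57.KP.Z2
import Pool.Agent.Helper57.KP.F1

/-!
# KP-F2: the pointwise theorem (helper57)
-/

open MeasureTheory Set Filter Topology
open Pool.Agent.Helper57.Zeta Pool.Agent.Helper57.PC Pool.Agent.Helper57.LH Pool.Agent.Helper78.SG
open Pool.Agent.Helper4.SH (om)
open Pool.Agent.Helper69.FF
open scoped ContDiff

set_option autoImplicit false

namespace Pool.Agent.Helper57.KP

private theorem exp_int57 {A : ℝ} (hA : 0 ≤ A) : ∫ y in (-A)..A, Real.exp (-2 * |y|) = 1 - Real.exp (-2 * A) := by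
  have h1 : ∫ y in (0:ℝ)..A, Real.exp (-2 * |y|) = (1 - Real.exp (-2 * A)) / 2 := by
    have e1 : ∫ y in (0:ℝ)..A, Real.exp (-2 * |y|) = ∫ y in (0:ℝ)..A, Real.exp (-2 * y) := by
      refine intervalIntegral.integral_congr fun y hy => ?_
      rw [uIcc_of_le hA] at hy
      simp only [abs_of_nonneg hy.1]
    rw [e1]
    have e2 := intervalIntegral.integral_comp_mul_left (a := 0) (b := A) (fun y => Real.exp y) (c := (-2:ℝ)) (by norm_num)
    rw [e2, integral_exp]
    simp
    ring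
  have h2 : ∫ y in (-A)..0, Real.exp (-2 * |y|) = (1 - Real.exp (-2 * A)) / 2 := by
    have e1 := intervalIntegral.integral_comp_neg (a := 0) (b := A) (fun y => Real.exp (-2 * |y|))
    rw [neg_zero] at e1
    rw [← e1]
    simp only [abs_neg]
    exact h1
  have hc : Continuous fun y : ℝ => Real.exp (-2 * |y|) := by fun_prop
  rw [← intervalIntegral.integral_add_adjacent_intervals (hc.intervalIntegrable (-A) 0) (hc.intervalIntegrable 0 A), h1, h2]
  ring

/-- a profile just below `exp(-|y|)` -/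
theorem profile {ε : ℝ} (hε : 0 < ε) : ∃ (W : ℝ → ℝ) (R : ℝ), 0 < R ∧ PF W R ∧ (∀ y, W y ^ 2 ≤ Real.exp (-2 * |y|)) ∧ 1 - ε ≤ ∫ y, W y ^ 2 := by
  -- choose A with exp(-2A) ≤ ε/2, δ with 1 - exp(-2δ) ≤ ε/2
  obtain ⟨A, hA1, hA⟩ : ∃ A : ℝ, 1 ≤ A ∧ Real.exp (-2 * A) ≤ ε / 2 := by
    have h1 : Tendsto (fun A : ℝ => Real.exp (-2 * A)) atTop (𝓝 0) := by
      have := Real.tendsto_exp_neg_atTop_nhds_zero.comp (Filter.Tendsto.const_mul_atTop (by norm_num : (0:ℝ) < 2) tendsto_id)
      refine this.congr fun A => ?_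
      simp
    obtain ⟨A, h2, h3⟩ := ((h1.eventually (eventually_le_nhds (by positivity : (0:ℝ) < ε / 2))).and (eventually_ge_atTop 1)).exists
    exact ⟨A, h3, h2⟩
  set δ : ℝ := min (ε / 4) 1 with hδ
  have hδ0 : 0 < δ := by positivity
  have hδ1 : δ ≤ ε / 4 := min_le_left _ _
  let f : ContDiffBump (0:ℝ) := ⟨A, A + 1, by linarith, by linarith⟩
  let W : ℝ → ℝ := fun y => f y * Real.exp (-Real.sqrt (y ^ 2 + δ ^ 2))
  have hsq : ∀ y : ℝ, |y| ≤ Real.sqrt (y ^ 2 + δ ^ 2) := fun y => Real.abs_le_sqrt (by nlinarith)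
  have hsq2 : ∀ y : ℝ, Real.sqrt (y ^ 2 + δ ^ 2) ≤ |y| + δ := fun y => by
    rw [Real.sqrt_le_left (by positivity)]
    have := abs_nonneg y
    nlinarith [sq_abs y]
  have hsm : ContDiff ℝ ∞ W := by
    refine f.contDiff.mul (Real.contDiff_exp.comp (ContDiff.neg (ContDiff.sqrt ?_ ?_)))
    · fun_prop
    · intro y
      positivity
  have hnn : ∀ y, 0 ≤ W y := fun y => mul_nonneg f.nonneg (Real.exp_pos _).le
  have hle : ∀ y, W y ≤ 1 := fun y => by
    have h1 : f y ≤ 1 := f.le_one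
    have h2 : Real.exp (-Real.sqrt (y ^ 2 + δ ^ 2)) ≤ 1 := by
      rw [Real.exp_le_one_iff]
      linarith [Real.sqrt_nonneg (y ^ 2 + δ ^ 2)]
    calc W y = f y * Real.exp (-Real.sqrt (y ^ 2 + δ ^ 2)) := rfl
      _ ≤ 1 * 1 := mul_le_mul h1 h2 (Real.exp_pos _).le zero_le_one
      _ = 1 := by norm_num
  have hsupp : ∀ y, W y ≠ 0 → |y| ≤ A + 1 := fun y hy => by
    by_contra h
    push Not at h
    apply hy
    have h1 : f y = 0 := f.zero_of_le_dist (by rw [Real.dist_eq, sub_zero]; exact h.le)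
    show f y * _ = 0
    rw [h1, zero_mul]
  have hW2 : ∀ y, W y ^ 2 = f y ^ 2 * Real.exp (-2 * Real.sqrt (y ^ 2 + δ ^ 2)) := fun y => by
    show (f y * Real.exp (-Real.sqrt (y ^ 2 + δ ^ 2))) ^ 2 = _
    rw [mul_pow, ← Real.exp_nat_mul]
    congr 2
    push_cast
    ring
  refine ⟨W, A + 1, by linarith, ⟨hsm, hnn, hle, hsupp⟩, fun y => ?_, ?_⟩
  · rw [hW2]
    have h1 : f y ^ 2 ≤ 1 := by
      have h2 : f y ≤ 1 := f.le_one
      have h3 : 0 ≤ f y := f.nonneg
      nlinarith
    have h4 : Real.exp (-2 * Real.sqrt (y ^ 2 + δ ^ 2)) ≤ Real.exp (-2 * |y|) := by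
      rw [Real.exp_le_exp]
      linarith [hsq y]
    calc f y ^ 2 * Real.exp (-2 * Real.sqrt (y ^ 2 + δ ^ 2)) ≤ 1 * Real.exp (-2 * |y|) :=
          mul_le_mul h1 h4 (Real.exp_pos _).le zero_le_one
      _ = Real.exp (-2 * |y|) := one_mul _
  · have hWc : Continuous W := hsm.continuous
    have hcs : HasCompactSupport (fun y => W y ^ 2) := by
      refine HasCompactSupport.intro (isCompact_Icc (a := -(A + 1)) (b := A + 1)) ?_
      intro y hy
      have : W y = 0 := by
        by_contra h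
        exact hy (abs_le.mp (hsupp y h))
      simp only [this]
      norm_num
    have hint : Integrable (fun y => W y ^ 2) := (hWc.pow 2).integrable_of_hasCompactSupport hcs
    have h1 : ∫ y in (-A)..A, W y ^ 2 ≤ ∫ y, W y ^ 2 := by
      rw [intervalIntegral.integral_of_le (by linarith)]
      exact setIntegral_le_integral hint (Eventually.of_forall fun y => sq_nonneg _)
    have h2 : Real.exp (-2 * δ) * ∫ y in (-A)..A, Real.exp (-2 * |y|) ≤ ∫ y in (-A)..A, W y ^ 2 := by
      rw [← intervalIntegral.integral_const_mul]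
      refine intervalIntegral.integral_mono_on (by linarith) ?_ ((hWc.pow 2).intervalIntegrable _ _) fun y hy => ?_
      · exact (by fun_prop : Continuous fun y : ℝ => Real.exp (-2 * δ) * Real.exp (-2 * |y|)).intervalIntegrable _ _
      · rw [hW2]
        have hf1 : f y = 1 := f.one_of_mem_closedBall (by
          rw [Metric.mem_closedBall, Real.dist_eq, sub_zero]
          exact abs_le.mpr hy)
        rw [hf1, one_pow, one_mul, ← Real.exp_add, Real.exp_le_exp]
        linarith [hsq2 y]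
    rw [exp_int57 (by linarith)] at h2
    have h3 : 1 - 2 * δ ≤ Real.exp (-2 * δ) := by
      have := Real.add_one_le_exp (-2 * δ)
      linarith
    have h4 : Real.exp (-2 * δ) ≤ 1 := by
      rw [Real.exp_le_one_iff]
      linarith
    have h5 : 0 < Real.exp (-2 * δ) := Real.exp_pos _
    have h6 : 0 < Real.exp (-2 * A) := Real.exp_pos _
    nlinarith

theorem pointwise {ε : ℝ} (hε : 0 < ε) : ∀ᶠ T : ℝ in atTop, ∀ α : ℝ, 1 + ε ≤ α → α ≤ 3 / 2 → (bg T α).im = 0 ∧ 3 / 2 - α - ε ≤ (bg T α).re := by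
  obtain ⟨W, R, hR, hW, hW2, hWI⟩ := profile (ε := ε / 2) (by positivity)
  filter_upwards [zeros_s hW hR hε (ε := ε / 2) (by positivity), eventually_ge_atTop (3:ℝ)] with T hT hT3 α hα1 hα2
  obtain ⟨hi, he⟩ := bg_eq hT3 α
  have hL : 0 < Real.log T := Real.log_pos (by linarith)
  have hff : ∀ x, 0 ≤ Pool.Agent.Helper57.FL.ff T x := fun x => Pool.Agent.Helper57.FL.ff_nonneg (by linarith) x
  rw [he]
  refine ⟨Complex.ofReal_im _, ?_⟩
  rw [Complex.ofReal_re]
  rcases le_or_gt α (3 / 2 - ε) with h | h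
  · have h1 := hT (α * Real.log T) (by nlinarith) (by nlinarith)
    have h2 : ∀ y : ℝ, (y + α * Real.log T) / Real.log T = α + y / Real.log T := by
      intro y
      field_simp
      ring
    simp only [h2] at h1
    have h3 : α * Real.log T / Real.log T = α := by field_simp
    rw [h3] at h1
    have h4 : ∫ y, W y ^ 2 * Pool.Agent.Helper57.FL.ff T (α + y / Real.log T) ≤
        ∫ y, Real.exp (-2 * |y|) * Pool.Agent.Helper57.FL.ff T (α + y / Real.log T) := by
      refine integral_mono_of_nonneg (Eventually.of_forall fun y => mul_nonneg (sq_nonneg _) (hff _)) hi (Eventually.of_forall fun y => ?_)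
      exact mul_le_mul_of_nonneg_right (hW2 y) (hff _)
    have h5 : (3 / 2 - α) * (1 - ε / 2) ≤ (3 / 2 - α) * ∫ y, W y ^ 2 := mul_le_mul_of_nonneg_left hWI (by linarith)
    nlinarith
  · have h1 : 0 ≤ ∫ y, Real.exp (-2 * |y|) * Pool.Agent.Helper57.FL.ff T (α + y / Real.log T) :=
      integral_nonneg fun y => mul_nonneg (Real.exp_pos _).le (hff _)
    linarith

end Pool.Agent.Helper57.KP
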