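import Pool.Agent.Helper57.KP.Defs
import Pool.Agent.Helper69.FF.AmD

/-!
# KP-M1: `⟨A_w, m D⟩` is the additive prime sum, uniformly in bounded weights

PROOF. Copy Helper69/FF/AmD.lean (theorem AmD and its private lemmas; rename with a suffix, or cite those which are not private). The proof of `AmD` uses `WR w a b`, `WR v a' b'`
only through the bounds `|w| ≤ Bw`, `|v| ≤ Bv` (`h93_wr_bdd`), and all `T ≥ e` are admissible: the constant there is `2 C3 C2 + 1` with `C3 = 2 Bv Bw C1 (exp (c+1) + 1)`; here keep the factor `Bw Bv` outside.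
-/

open MeasureTheory Set Filter Topology
open Pool.Agent.Helper57.Zeta Pool.Agent.Helper57.PC Pool.Agent.Helper57.LH Pool.Agent.Helper78.SG
open Pool.Agent.Helper4.SH (om)
open Pool.Agent.Helper69.FF
open scoped ContDiff

set_option autoImplicit false

namespace Pool.Agent.Helper57.KP

/-- the pointwise comparison -/
private lemma kpm_bracket (g : TF) {k : ℝ → ℝ} {c : ℝ} (hk : KW g k c) : ∃ C : ℝ, 0 < C ∧ ∀ T y : ℝ, 1 ≤ T → 0 < y → 1 / T ≤ y →
    ‖HH g k T y - ((2 * Real.pi * Real.sqrt y * g.h (2 * Real.pi * y / T - 1 / 2) : ℝ) : ℂ) * Helper69.FF.ee (-y)‖ / Real.sqrt y ≤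
      (if y ≤ Real.exp (c + 1) * T then C / T else 0) + C / T ^ 4 := by
  obtain ⟨C1, hC1, h1⟩ := HH_near g hk
  obtain ⟨C2, hC2, h2⟩ := HH_far g hk 5
  refine ⟨C1 * Real.exp ((c + 1) / 2) + C2, by positivity, fun T y hT hy hyT => ?_⟩
  have hT0 : 0 < T := by linarith
  have hsy : 0 < Real.sqrt y := Real.sqrt_pos.2 hy
  have hsT : 0 < Real.sqrt T := Real.sqrt_pos.2 hT0
  have hlog : Real.log (y / T) = Real.log y - Real.log T := Real.log_div hy.ne' hT0.ne'
  rcases le_total (|Real.log (y / T)|) (c + 1) with hc | hc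
  · have a1 := h1 T y hT hy hc
    have hc' := abs_le.1 hc
    have a2 : y ≤ Real.exp (c + 1) * T := by
      have : y / T ≤ Real.exp (c + 1) := by
        rw [← Real.exp_log (div_pos hy hT0)]
        exact Real.exp_le_exp.2 hc'.2
      rwa [div_le_iff₀ hT0] at this
    rw [if_pos a2]
    have a3 : T * Real.exp (-(c + 1)) ≤ y := by
      have : Real.exp (-(c + 1)) ≤ y / T := by
        rw [← Real.exp_log (div_pos hy hT0)]
        exact Real.exp_le_exp.2 hc'.1
      rw [le_div_iff₀ hT0] at this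
      linarith
    have a4 : Real.sqrt T * Real.exp (-((c + 1) / 2)) ≤ Real.sqrt y := by
      apply Real.le_sqrt_of_sq_le
      rw [mul_pow, Real.sq_sqrt hT0.le, ← Real.exp_nat_mul]
      have : ((2 : ℕ) : ℝ) * -((c + 1) / 2) = -(c + 1) := by push_cast; ring
      rw [this]
      exact a3
    have a5 : ‖HH g k T y - ((2 * Real.pi * Real.sqrt y * g.h (2 * Real.pi * y / T - 1 / 2) : ℝ) : ℂ) * Helper69.FF.ee (-y)‖ / Real.sqrt y ≤
        C1 * Real.exp ((c + 1) / 2) / T := by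
      rw [div_le_iff₀ hsy]
      refine a1.trans ?_
      have e1 : C1 / Real.sqrt T = C1 * Real.exp ((c + 1) / 2) / T * (Real.sqrt T * Real.exp (-((c + 1) / 2))) := by
        rw [Real.exp_neg]
        have := Real.exp_pos ((c + 1) / 2)
        have hTT : T = Real.sqrt T * Real.sqrt T := (Real.mul_self_sqrt hT0.le).symm
        rw [div_eq_iff hsT.ne']
        rw [show C1 * Real.exp ((c + 1) / 2) / T * (Real.sqrt T * (Real.exp ((c + 1) / 2))⁻¹) * Real.sqrt T =
          C1 * (Real.exp ((c + 1) / 2) * (Real.exp ((c + 1) / 2))⁻¹) * (Real.sqrt T * Real.sqrt T) / T by ring]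
        rw [← hTT, mul_inv_cancel₀ this.ne']
        field_simp
      rw [e1]
      gcongr
    refine a5.trans ?_
    have e2 : C1 * Real.exp ((c + 1) / 2) / T ≤ (C1 * Real.exp ((c + 1) / 2) + C2) / T := by
      gcongr
      linarith
    have e3 : 0 ≤ (C1 * Real.exp ((c + 1) / 2) + C2) / T ^ 4 := by positivity
    linarith
  · have a1 := h2 T y hT hy hc
    have a2 : g.h (2 * Real.pi * y / T - 1 / 2) = 0 := by
      by_contra hne
      have b1 : |2 * Real.pi * y / T - 1 / 2| < g.th := by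
        by_contra hcon
        exact hne (g.supp _ (not_lt.1 hcon))
      have b2 := abs_lt.1 b1
      have b3 := g.th1
      have b4 := g.th0
      have b5 : 2 * Real.pi * Real.exp (Real.log (y / T)) = 2 * Real.pi * y / T := by
        rw [Real.exp_log (div_pos hy hT0)]; ring
      have b6 := hk.one (Real.log (y / T)) (by rw [b5]; linarith [b2.1]) (by rw [b5]; linarith [b2.2])
      have b7 := hk.supp (Real.log (y / T)) (by linarith)
      rw [b6] at b7
      exact one_ne_zero b7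
    rw [a2, mul_zero, Complex.ofReal_zero, zero_mul, sub_zero]
    have a3 : 1 / Real.sqrt y ≤ Real.sqrt T := by
      rw [div_le_iff₀ hsy, ← Real.sqrt_mul hT0.le]
      apply Real.le_sqrt_of_sq_le
      rw [div_le_iff₀ hT0] at hyT
      linarith
    have a4 : Real.sqrt T ≤ T := by
      rw [Real.sqrt_le_left (by linarith)]
      nlinarith
    have a5 : ‖HH g k T y‖ / Real.sqrt y ≤ C2 / T ^ 4 := by
      rw [div_eq_mul_one_div]
      calc ‖HH g k T y‖ * (1 / Real.sqrt y) ≤ C2 / T ^ 5 * T := by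
            gcongr
            exact a3.trans a4
        _ = C2 / T ^ 4 := by field_simp
    refine a5.trans ?_
    have e2 : C2 / T ^ 4 ≤ (C1 * Real.exp ((c + 1) / 2) + C2) / T ^ 4 := by
      gcongr
      have : 0 < C1 * Real.exp ((c + 1) / 2) := by positivity
      linarith
    have e3 : 0 ≤ (if y ≤ Real.exp (c + 1) * T then (C1 * Real.exp ((c + 1) / 2) + C2) / T else 0) := by
      split_ifs
      · positivity
      · exact le_rfl
    linarith

private lemma kpm_mfr : ∃ C : ℝ, 0 < C ∧ ∀ r : ℕ, r ≠ 0 → |mf r| * r ≤ C * (r : ℝ) ^ (1 / 4 : ℝ) := by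
  obtain ⟨C, hC, hd⟩ := div_bound (ε := 1 / 4) (by norm_num)
  refine ⟨C, hC, fun r hr => ?_⟩
  by_cases hs : Squarefree r
  · have h1 := tot_ge hs
    have h2 := hd r hr
    have h3 : (0 : ℝ) < (Nat.totient r : ℝ) := by exact_mod_cast Nat.totient_pos.2 (Nat.pos_of_ne_zero hr)
    have h4 : |((ArithmeticFunction.moebius r : ℤ) : ℝ)| ≤ 1 := by
      have := ArithmeticFunction.abs_moebius_le_one (n := r)
      exact_mod_cast this
    unfold mf
    rw [abs_div, abs_of_pos h3, div_mul_eq_mul_div, div_le_iff₀ h3]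
    calc |((ArithmeticFunction.moebius r : ℤ) : ℝ)| * r ≤ 1 * r := by gcongr
      _ ≤ (r.divisors.card : ℝ) * (Nat.totient r : ℝ) := by rw [one_mul]; exact h1
      _ ≤ _ := by gcongr
  · unfold mf
    rw [ArithmeticFunction.moebius_eq_zero_of_not_squarefree hs]
    simp only [Int.cast_zero, zero_div, abs_zero, zero_mul]
    positivity

private lemma kpm_harm (N : ℕ) : ∑ a ∈ Finset.Icc 1 N, 1 / (a : ℝ) ≤ 1 + Real.log N := by
  have h := harmonic_le_one_add_log N
  rw [harmonic_eq_sum_Icc] at h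
  push_cast at h
  simpa [one_div] using h

/-- the sum of `|mf| r/a` over `Helper69.FF.RA` -/
private lemma kpm_sumRA : ∃ C : ℝ, 0 < C ∧ ∀ e T : ℝ, 0 < e → 1 ≤ T →
    ∑ x ∈ Helper69.FF.RA e T, |mf x.1| * ((x.1 : ℝ) / x.2) ≤ C * T ^ (3 / 4 : ℝ) * (1 + Real.log T) := by
  obtain ⟨C, hC, hm⟩ := kpm_mfr
  refine ⟨C, hC, fun e T he hT => ?_⟩
  have hT0 : 0 < T := by linarith
  set R := ⌊T ^ (1 / 2 : ℝ)⌋₊ with hR
  have hRT : (R : ℝ) ≤ T ^ (1 / 2 : ℝ) := Nat.floor_le (by positivity)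
  have hsub : Helper69.FF.RA e T ⊆ Finset.Icc 1 R ×ˢ Finset.Icc 1 R := by
    intro x hx
    unfold Helper69.FF.RA at hx
    simp only [Finset.mem_filter, Finset.mem_product, Finset.mem_Icc] at hx
    obtain ⟨⟨⟨h1, -⟩, ⟨h3, -⟩⟩, -, h6, -, h8, -⟩ := hx
    have h9 : (x.1 : ℝ) ≤ T ^ (1 / 2 : ℝ) := h6.trans (Real.rpow_le_rpow_of_exponent_le hT (by linarith))
    have h10 : x.1 ≤ R := Nat.le_floor h9
    simp only [Finset.mem_product, Finset.mem_Icc]
    exact ⟨⟨h1, h10⟩, ⟨h3, h8.trans h10⟩⟩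
  calc ∑ x ∈ Helper69.FF.RA e T, |mf x.1| * ((x.1 : ℝ) / x.2) ≤
        ∑ x ∈ Finset.Icc 1 R ×ˢ Finset.Icc 1 R, |mf x.1| * ((x.1 : ℝ) / x.2) := by
        apply Finset.sum_le_sum_of_subset_of_nonneg hsub
        intro x _ _
        positivity
    _ ≤ ∑ x ∈ Finset.Icc 1 R ×ˢ Finset.Icc 1 R, C * T ^ (1 / 4 : ℝ) * (1 / (x.2 : ℝ)) := by
        apply Finset.sum_le_sum
        intro x hx
        simp only [Finset.mem_product, Finset.mem_Icc] at hx
        have h1 := hm x.1 (by omega)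
        have h2 : (x.1 : ℝ) ^ (1 / 4 : ℝ) ≤ T ^ (1 / 4 : ℝ) := by
          apply Real.rpow_le_rpow (by positivity) _ (by norm_num)
          calc (x.1 : ℝ) ≤ (R : ℝ) := by exact_mod_cast hx.1.2
            _ ≤ T ^ (1 / 2 : ℝ) := hRT
            _ ≤ T ^ (1 : ℝ) := Real.rpow_le_rpow_of_exponent_le hT (by norm_num)
            _ = T := Real.rpow_one T
        calc |mf x.1| * ((x.1 : ℝ) / x.2) = (|mf x.1| * x.1) * (1 / (x.2 : ℝ)) := by ring
          _ ≤ (C * (x.1 : ℝ) ^ (1 / 4 : ℝ)) * (1 / (x.2 : ℝ)) := by gcongr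
          _ ≤ (C * T ^ (1 / 4 : ℝ)) * (1 / (x.2 : ℝ)) := by gcongr
    _ = (R : ℝ) * (C * T ^ (1 / 4 : ℝ)) * ∑ a ∈ Finset.Icc 1 R, 1 / (a : ℝ) := by
        rw [Finset.sum_product]
        simp only [Finset.sum_const, Nat.card_Icc, Nat.add_sub_cancel, nsmul_eq_mul]
        rw [← Finset.mul_sum]
        ring
    _ ≤ T ^ (1 / 2 : ℝ) * (C * T ^ (1 / 4 : ℝ)) * (1 + Real.log T) := by
        gcongr
        refine (kpm_harm R).trans ?_
        refine add_le_add le_rfl ?_
        rcases Nat.eq_zero_or_pos R with h0 | h0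
        · rw [h0]; simp; exact Real.log_nonneg hT
        · apply Real.log_le_log (by exact_mod_cast h0)
          calc (R : ℝ) ≤ T ^ (1 / 2 : ℝ) := hRT
            _ ≤ T ^ (1 : ℝ) := Real.rpow_le_rpow_of_exponent_le hT (by norm_num)
            _ = T := Real.rpow_one T
    _ = C * T ^ (3 / 4 : ℝ) * (1 + Real.log T) := by
        have : T ^ (1 / 2 : ℝ) * T ^ (1 / 4 : ℝ) = T ^ (3 / 4 : ℝ) := by
          rw [← Real.rpow_add hT0]; norm_num
        rw [← this]; ring

private lemma kpm_xp {n r a : ℕ} (hn : 1 ≤ n) (hr : 1 ≤ r) (ha : 1 ≤ a) (t : ℝ) :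
    xp t n * (starRingEnd ℂ) (xp t ((r : ℝ) / a)) = xp t ((a : ℝ) * n / r) := by
  have h1 : (n : ℝ) ≠ 0 := by positivity
  have h2 : (r : ℝ) ≠ 0 := by positivity
  have h3 : (a : ℝ) ≠ 0 := by positivity
  unfold xp
  rw [← Complex.exp_conj, ← Complex.exp_add, Real.log_div h2 h3, Real.log_div (mul_ne_zero h3 h1) h2, Real.log_mul h3 h1]
  congr 1
  rw [map_neg, map_mul, Complex.conj_ofReal, Complex.conj_I]
  push_cast
  ring

private lemma kpm_int (g : TF) {k : ℝ → ℝ} {c : ℝ} (hk : KW g k c) {T : ℝ} (hT : 0 < T) (x : ℝ) :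
    Integrable (fun t : ℝ => ((om g.h T t : ℝ) : ℂ) * ((starRingEnd ℂ) (mm k T t) * xp t x)) := by
  have h1 := mm_cont g hk T
  have h2 : Continuous (fun t : ℝ => xp t x) := by
    unfold xp
    fun_prop
  have h3 : Continuous (fun t : ℝ => (starRingEnd ℂ) (mm k T t) * xp t x) := (Complex.continuous_conj.comp h1).mul h2
  have h4 : HasCompactSupport (fun t => om g.h T t) := by
    refine HasCompactSupport.intro (isCompact_Icc (a := 0) (b := T)) fun t ht => ?_
    unfold Pool.Agent.Helper4.SH.om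
    apply g.supp
    by_contra hcon
    rw [not_le] at hcon
    have hcon' := hcon.trans g.th1
    rw [abs_lt] at hcon'
    apply ht
    constructor
    · have : 0 < t / T := by linarith [hcon'.1]
      have := (div_pos_iff_of_pos_right hT).1 this
      exact this.le
    · have : t / T < 1 := by linarith [hcon'.2]
      rw [div_lt_one hT] at this
      exact this.le
  have h5 : Continuous (fun t => om g.h T t) := by
    unfold Pool.Agent.Helper4.SH.om
    exact g.smooth.continuous.comp (by fun_prop)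
  have h6 : Continuous (fun t => ((om g.h T t : ℝ) : ℂ)) := Complex.continuous_ofReal.comp h5
  apply (h6.mul h3).integrable_of_hasCompactSupport
  apply HasCompactSupport.mul_right
  exact h4.comp_left (g := fun x : ℝ => (x : ℂ)) Complex.ofReal_zero

theorem AmD_b (g : TF) {k : ℝ → ℝ} {c : ℝ} (hk : KW g k c) {e : ℝ} (he : 0 < e) (he1 : e < 1 / 4) :
    ∃ C : ℝ, 0 < C ∧ ∀ T : ℝ, Real.exp 1 ≤ T → ∀ (w v : ℝ → ℝ) (Bw Bv : ℝ), (∀ x, |w x| ≤ Bw) → (∀ x, |v x| ≤ Bv) →
    ‖(∫ t, ((om g.h T t : ℝ) : ℂ) * (AA w T t * (starRingEnd ℂ) (mm k T t * DD v e T t))) -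
      ((2 * Real.pi / Real.log T ^ 2 : ℝ) : ℂ) * SS g w v e T‖ ≤ C * Bw * Bv * T ^ ((3 : ℝ) / 4) := by
  obtain ⟨C1, hC1, hbr⟩ := kpm_bracket g hk
  obtain ⟨C2, hC2, hsum⟩ := kpm_sumRA
  refine ⟨4 * (C1 * (Real.exp (c + 1) + 1)) * C2, by positivity, fun T hT w v Bw Bv hBw hBv => ?_⟩
  have hBw0 : 0 ≤ Bw := (abs_nonneg _).trans (hBw 0)
  have hBv0 : 0 ≤ Bv := (abs_nonneg _).trans (hBv 0)
  set C3 : ℝ := 2 * Bv * Bw * C1 * (Real.exp (c + 1) + 1) with hC3
  have hC30 : 0 ≤ C3 := by positivity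
  have hT1 : 1 ≤ T := (Real.one_le_exp (by norm_num)).trans hT
  have hT0 : 0 < T := by linarith
  have hL : 1 ≤ Real.log T := by
    rw [Real.le_log_iff_exp_le hT0]; exact hT
  have hL0 : 0 < Real.log T := by linarith
  have hmem : ∀ x ∈ Helper69.FF.RA e T, 1 ≤ x.1 ∧ 1 ≤ x.2 ∧ (x.1 : ℝ) ≤ T ∧ x.2 ≤ x.1 := by
    intro x hx
    unfold Helper69.FF.RA at hx
    simp only [Finset.mem_filter, Finset.mem_product, Finset.mem_Icc] at hx
    refine ⟨hx.1.1.1, hx.1.2.1, ?_, hx.2.2.2.2.1⟩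
    exact (Nat.le_floor_iff hT0.le).1 hx.1.1.2
  set N := ⌊T ^ 2⌋₊ with hN
  set A : ℕ → ℝ := fun n => ArithmeticFunction.vonMangoldt n / Real.sqrt n * w (Real.log n / Real.log T) / Real.log T with hA
  set cx : ℕ × ℕ → ℝ := fun x => mf x.1 * Real.sqrt ((x.1 : ℝ) / x.2) * v (lr T x) / Real.log T with hcx
  have hI : (∫ t, ((om g.h T t : ℝ) : ℂ) * (AA w T t * (starRingEnd ℂ) (mm k T t * DD v e T t))) =
      ∑ x ∈ Helper69.FF.RA e T, ∑ n ∈ Finset.Icc 1 N, ((A n * cx x : ℝ) : ℂ) * HH g k T ((x.2 : ℝ) * n / x.1) := by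
    have hpt : ∀ t, ((om g.h T t : ℝ) : ℂ) * (AA w T t * (starRingEnd ℂ) (mm k T t * DD v e T t)) =
        ∑ x ∈ Helper69.FF.RA e T, ∑ n ∈ Finset.Icc 1 N, ((A n * cx x : ℝ) : ℂ) *
          (((om g.h T t : ℝ) : ℂ) * ((starRingEnd ℂ) (mm k T t) * xp t ((x.2 : ℝ) * n / x.1))) := by
      intro t
      have e1 : (starRingEnd ℂ) (DD v e T t) = ∑ x ∈ Helper69.FF.RA e T, ((cx x : ℝ) : ℂ) * (starRingEnd ℂ) (xp t ((x.1 : ℝ) / x.2)) := by
        unfold DD
        rw [map_sum]
        refine Finset.sum_congr rfl fun x _ => ?_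
        rw [map_mul, Complex.conj_ofReal]
      have e2 : AA w T t = ∑ n ∈ Finset.Icc 1 N, ((A n : ℝ) : ℂ) * xp t n := rfl
      rw [map_mul, e1, e2]
      rw [show ((om g.h T t : ℝ) : ℂ) * ((∑ n ∈ Finset.Icc 1 N, ((A n : ℝ) : ℂ) * xp t n) * ((starRingEnd ℂ) (mm k T t) *
          ∑ x ∈ Helper69.FF.RA e T, ((cx x : ℝ) : ℂ) * (starRingEnd ℂ) (xp t ((x.1 : ℝ) / x.2)))) =
          (((om g.h T t : ℝ) : ℂ) * (starRingEnd ℂ) (mm k T t)) * ((∑ x ∈ Helper69.FF.RA e T, ((cx x : ℝ) : ℂ) * (starRingEnd ℂ) (xp t ((x.1 : ℝ) / x.2))) *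
            (∑ n ∈ Finset.Icc 1 N, ((A n : ℝ) : ℂ) * xp t n)) by ring]
      rw [Finset.sum_mul_sum, Finset.mul_sum]
      refine Finset.sum_congr rfl fun x hx => ?_
      rw [Finset.mul_sum]
      refine Finset.sum_congr rfl fun n hn => ?_
      obtain ⟨h1, h2, -, -⟩ := hmem x hx
      rw [Finset.mem_Icc] at hn
      rw [← kpm_xp hn.1 h1 h2 t]
      push_cast
      ring
    have e3 : (fun t => ((om g.h T t : ℝ) : ℂ) * (AA w T t * (starRingEnd ℂ) (mm k T t * DD v e T t))) =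
        fun t => ∑ x ∈ Helper69.FF.RA e T, ∑ n ∈ Finset.Icc 1 N, ((A n * cx x : ℝ) : ℂ) *
          (((om g.h T t : ℝ) : ℂ) * ((starRingEnd ℂ) (mm k T t) * xp t ((x.2 : ℝ) * n / x.1))) := funext hpt
    rw [e3, integral_finsetSum]
    · refine Finset.sum_congr rfl fun x _ => ?_
      rw [integral_finsetSum]
      · refine Finset.sum_congr rfl fun n _ => ?_
        rw [integral_const_mul]
        rfl
      · intro n _
        exact (kpm_int g hk hT0 _).const_mul _
    · intro x _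
      apply integrable_finsetSum
      intro n _
      exact (kpm_int g hk hT0 _).const_mul _
  have hS : ((2 * Real.pi / Real.log T ^ 2 : ℝ) : ℂ) * SS g w v e T = ∑ x ∈ Helper69.FF.RA e T, ∑ n ∈ Finset.Icc 1 N,
      (((2 * Real.pi / Real.log T ^ 2) * mf x.1 * (ArithmeticFunction.vonMangoldt n * FW g w v T x n) : ℝ) : ℂ) *
        Helper69.FF.ee (-((x.2 : ℝ) * n / x.1)) := by
    unfold SS
    rw [Finset.mul_sum]
    refine Finset.sum_congr rfl fun x _ => ?_
    rw [Finset.mul_sum, Finset.mul_sum]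
    refine Finset.sum_congr rfl fun n _ => ?_
    push_cast
    ring
  rw [hI, hS, ← Finset.sum_sub_distrib]
  -- bound each inner difference
  have hin : ∀ x ∈ Helper69.FF.RA e T, ‖(∑ n ∈ Finset.Icc 1 N, ((A n * cx x : ℝ) : ℂ) * HH g k T ((x.2 : ℝ) * n / x.1)) -
      ∑ n ∈ Finset.Icc 1 N, (((2 * Real.pi / Real.log T ^ 2) * mf x.1 * (ArithmeticFunction.vonMangoldt n * FW g w v T x n) : ℝ) : ℂ) *
        Helper69.FF.ee (-((x.2 : ℝ) * n / x.1))‖ ≤ C3 / Real.log T * (|mf x.1| * ((x.1 : ℝ) / x.2)) := by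
    intro x hx
    obtain ⟨h1, h2, h3, h4⟩ := hmem x hx
    have h1' : (1 : ℝ) ≤ (x.1 : ℝ) := by exact_mod_cast h1
    have h2' : (1 : ℝ) ≤ (x.2 : ℝ) := by exact_mod_cast h2
    have h4' : (x.2 : ℝ) ≤ (x.1 : ℝ) := by exact_mod_cast h4
    have hx1 : (0 : ℝ) < (x.1 : ℝ) := by linarith
    have hx2 : (0 : ℝ) < (x.2 : ℝ) := by linarith
    have hra : 1 ≤ (x.1 : ℝ) / x.2 := by rw [le_div_iff₀ hx2]; linarith
    set N0 : ℝ := Real.exp (c + 1) * T * ((x.1 : ℝ) / x.2) with hN0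
    have hN00 : 0 ≤ N0 := by positivity
    rw [← Finset.sum_sub_distrib]
    have hterm : ∀ n ∈ Finset.Icc 1 N, ‖((A n * cx x : ℝ) : ℂ) * HH g k T ((x.2 : ℝ) * n / x.1) -
        (((2 * Real.pi / Real.log T ^ 2) * mf x.1 * (ArithmeticFunction.vonMangoldt n * FW g w v T x n) : ℝ) : ℂ) *
        Helper69.FF.ee (-((x.2 : ℝ) * n / x.1))‖ ≤ (2 * Bv * Bw / Real.log T * |mf x.1|) * ((if (n : ℝ) ≤ N0 then C1 / T else 0) + C1 / T ^ 4) := by
      intro n hn
      rw [Finset.mem_Icc] at hn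
      have hn1 : (1 : ℝ) ≤ (n : ℝ) := by exact_mod_cast hn.1
      have hn0 : (0 : ℝ) < (n : ℝ) := by linarith
      set y : ℝ := (x.2 : ℝ) * n / x.1 with hy
      have hy0 : 0 < y := by positivity
      have hyT : 1 / T ≤ y := by
        rw [hy, div_le_div_iff₀ hT0 hx1]
        have g1 : (1 : ℝ) ≤ (x.2 : ℝ) * n := by nlinarith
        nlinarith
      have hb1 := hbr T y hT1 hy0 hyT
      have hsy : 0 < Real.sqrt y := Real.sqrt_pos.2 hy0
      have e1 : Real.sqrt ((x.1 : ℝ) / x.2) / Real.sqrt n = 1 / Real.sqrt y := by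
        rw [← Real.sqrt_div (by positivity), one_div, ← Real.sqrt_inv]
        congr 1
        rw [hy]
        field_simp
      have e2 : ((A n * cx x : ℝ) : ℂ) * HH g k T y -
          (((2 * Real.pi / Real.log T ^ 2) * mf x.1 * (ArithmeticFunction.vonMangoldt n * FW g w v T x n) : ℝ) : ℂ) * Helper69.FF.ee (-y) =
          (((1 / Real.log T ^ 2) * mf x.1 * v (lr T x) * ArithmeticFunction.vonMangoldt n * w (Real.log n / Real.log T) / Real.sqrt y : ℝ) : ℂ) *
          (HH g k T y - ((2 * Real.pi * Real.sqrt y * g.h (2 * Real.pi * y / T - 1 / 2) : ℝ) : ℂ) * Helper69.FF.ee (-y)) := by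
        have e3 : A n * cx x = (1 / Real.log T ^ 2) * mf x.1 * v (lr T x) * ArithmeticFunction.vonMangoldt n * w (Real.log n / Real.log T) / Real.sqrt y := by
          calc A n * cx x = (1 / Real.log T ^ 2) * mf x.1 * v (lr T x) * ArithmeticFunction.vonMangoldt n * w (Real.log n / Real.log T) *
                (Real.sqrt ((x.1 : ℝ) / x.2) / Real.sqrt n) := by
                rw [hA, hcx]; simp only; field_simp
            _ = _ := by rw [e1]; ring
        have e4 : (2 * Real.pi / Real.log T ^ 2) * mf x.1 * (ArithmeticFunction.vonMangoldt n * FW g w v T x n) =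
            ((1 / Real.log T ^ 2) * mf x.1 * v (lr T x) * ArithmeticFunction.vonMangoldt n * w (Real.log n / Real.log T) / Real.sqrt y) *
            (2 * Real.pi * Real.sqrt y * g.h (2 * Real.pi * y / T - 1 / 2)) := by
          have e5 : FW g w v T x n = w (Real.log n / Real.log T) * v (lr T x) * g.h (2 * Real.pi * y / T - 1 / 2) := rfl
          rw [e5]
          field_simp
        rw [e3, e4, Complex.ofReal_mul (((1 / Real.log T ^ 2) * mf x.1 * v (lr T x) * ArithmeticFunction.vonMangoldt n *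
          w (Real.log n / Real.log T) / Real.sqrt y)) _]
        ring
      rw [e2, norm_mul, Complex.norm_real, Real.norm_eq_abs, abs_div, abs_of_pos hsy]
      rw [div_mul_eq_mul_div, mul_div_assoc]
      have e6 : |1 / Real.log T ^ 2 * mf x.1 * v (lr T x) * ArithmeticFunction.vonMangoldt n * w (Real.log n / Real.log T)| ≤
          2 * Bv * Bw / Real.log T * |mf x.1| := by
        rw [abs_mul, abs_mul, abs_mul, abs_mul]
        have f1 : |ArithmeticFunction.vonMangoldt n| ≤ 2 * Real.log T := by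
          rw [abs_of_nonneg ArithmeticFunction.vonMangoldt_nonneg]
          refine ArithmeticFunction.vonMangoldt_le_log.trans ?_
          have : (n : ℝ) ≤ T ^ 2 := (Nat.le_floor_iff (by positivity)).1 hn.2
          calc Real.log n ≤ Real.log (T ^ 2) := Real.log_le_log hn0 this
            _ = 2 * Real.log T := by rw [Real.log_pow]; push_cast; ring
        have f2 := hBv (lr T x)
        have f3 := hBw (Real.log n / Real.log T)
        have f4 : |1 / Real.log T ^ 2| = 1 / Real.log T ^ 2 := abs_of_pos (by positivity)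
        rw [f4]
        calc 1 / Real.log T ^ 2 * |mf x.1| * |v (lr T x)| * |ArithmeticFunction.vonMangoldt n| * |w (Real.log n / Real.log T)| ≤
              1 / Real.log T ^ 2 * |mf x.1| * Bv * (2 * Real.log T) * Bw := by gcongr
          _ = 2 * Bv * Bw / Real.log T * |mf x.1| := by field_simp
      have e7 : (if y ≤ Real.exp (c + 1) * T then C1 / T else 0) ≤ (if (n : ℝ) ≤ N0 then C1 / T else 0) := by
        by_cases hyc : y ≤ Real.exp (c + 1) * T
        · have : (n : ℝ) ≤ N0 := by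
            rw [hy, div_le_iff₀ hx1] at hyc
            rw [hN0, mul_div_assoc', le_div_iff₀ hx2]
            linarith
          rw [if_pos hyc, if_pos this]
        · rw [if_neg hyc]
          split_ifs
          · positivity
          · exact le_rfl
      calc |1 / Real.log T ^ 2 * mf x.1 * v (lr T x) * ArithmeticFunction.vonMangoldt n * w (Real.log n / Real.log T)| *
            (‖HH g k T y - ((2 * Real.pi * Real.sqrt y * g.h (2 * Real.pi * y / T - 1 / 2) : ℝ) : ℂ) * Helper69.FF.ee (-y)‖ / Real.sqrt y) ≤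
            (2 * Bv * Bw / Real.log T * |mf x.1|) * ((if y ≤ Real.exp (c + 1) * T then C1 / T else 0) + C1 / T ^ 4) := by
            gcongr
        _ ≤ _ := by gcongr
    refine (norm_sum_le _ _).trans ((Finset.sum_le_sum hterm).trans ?_)
    rw [← Finset.mul_sum, Finset.sum_add_distrib]
    have hNT : (N : ℝ) ≤ T ^ 2 := Nat.floor_le (by positivity)
    have s1 : ∑ n ∈ Finset.Icc 1 N, (if (n : ℝ) ≤ N0 then C1 / T else 0) ≤ N0 * (C1 / T) := by
      rw [← Finset.sum_filter, Finset.sum_const, nsmul_eq_mul]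
      gcongr
      have : (Finset.Icc 1 N).filter (fun n : ℕ => (n : ℝ) ≤ N0) ⊆ Finset.Icc 1 ⌊N0⌋₊ := by
        intro n hn
        simp only [Finset.mem_filter, Finset.mem_Icc] at hn ⊢
        exact ⟨hn.1.1, Nat.le_floor hn.2⟩
      have h5 := Finset.card_le_card this
      rw [Nat.card_Icc, Nat.add_sub_cancel] at h5
      calc ((((Finset.Icc 1 N).filter (fun n : ℕ => (n : ℝ) ≤ N0)).card : ℕ) : ℝ) ≤ ((⌊N0⌋₊ : ℕ) : ℝ) := by exact_mod_cast h5
        _ ≤ N0 := Nat.floor_le hN00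
    have s2 : ∑ n ∈ Finset.Icc 1 N, C1 / T ^ 4 ≤ C1 := by
      rw [Finset.sum_const, Nat.card_Icc, Nat.add_sub_cancel, nsmul_eq_mul]
      calc (N : ℝ) * (C1 / T ^ 4) ≤ T ^ 2 * (C1 / T ^ 4) := by gcongr
        _ = C1 / T ^ 2 := by field_simp
        _ ≤ C1 / 1 := by gcongr; nlinarith
        _ = C1 := by ring
    have s3 : N0 * (C1 / T) = Real.exp (c + 1) * C1 * ((x.1 : ℝ) / x.2) := by
      rw [hN0]; field_simp
    have s4 : ∑ n ∈ Finset.Icc 1 N, (if (n : ℝ) ≤ N0 then C1 / T else 0) + ∑ n ∈ Finset.Icc 1 N, C1 / T ^ 4 ≤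
        C1 * (Real.exp (c + 1) + 1) * ((x.1 : ℝ) / x.2) := by
      have : C1 ≤ C1 * ((x.1 : ℝ) / x.2) := by nlinarith
      rw [s3] at s1
      nlinarith
    calc 2 * Bv * Bw / Real.log T * |mf x.1| * (∑ n ∈ Finset.Icc 1 N, (if (n : ℝ) ≤ N0 then C1 / T else 0) + ∑ n ∈ Finset.Icc 1 N, C1 / T ^ 4) ≤
          2 * Bv * Bw / Real.log T * |mf x.1| * (C1 * (Real.exp (c + 1) + 1) * ((x.1 : ℝ) / x.2)) := by gcongr
      _ = C3 / Real.log T * (|mf x.1| * ((x.1 : ℝ) / x.2)) := by rw [hC3]; ring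
  refine (norm_sum_le _ _).trans ((Finset.sum_le_sum hin).trans ?_)
  rw [← Finset.mul_sum]
  have h10 := hsum e T he hT1
  have h11 : (1 + Real.log T) / Real.log T ≤ 2 := by
    rw [div_le_iff₀ hL0]; linarith
  calc C3 / Real.log T * ∑ x ∈ Helper69.FF.RA e T, |mf x.1| * ((x.1 : ℝ) / x.2) ≤
        C3 / Real.log T * (C2 * T ^ (3 / 4 : ℝ) * (1 + Real.log T)) := by gcongr
    _ = C3 * C2 * T ^ (3 / 4 : ℝ) * ((1 + Real.log T) / Real.log T) := by ring
    _ ≤ C3 * C2 * T ^ (3 / 4 : ℝ) * 2 := by gcongr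
    _ = 4 * (C1 * (Real.exp (c + 1) + 1)) * C2 * Bw * Bv * T ^ ((3 : ℝ) / 4) := by
        rw [hC3]
        ring

end Pool.Agent.Helper57.KP
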