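import Pool.Agent.Helper57.KP.Defs
import Pool.Agent.Helper69.FF.DSq

/-!
# KP-M2: the mean square of `D`, uniformly in bounded weights

PROOF. The estimate `key` inside the proof of `DD_sq` (Helper69/FF/DSq.lean) holds for all `T ≥ e` and uses `WR v` only through `|v| ≤ B`: copy that proof (it cites `gmv` of Helper4/SH/GMV and elementary lemmas;
copy the private lemmas with a suffix).
-/

open MeasureTheory Set Filter Topology
open Pool.Agent.Helper57.Zeta Pool.Agent.Helper57.PC Pool.Agent.Helper57.LH Pool.Agent.Helper78.SG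
open Pool.Agent.Helper4.SH (om)
open Pool.Agent.Helper69.FF
open scoped ContDiff

set_option autoImplicit false

namespace Pool.Agent.Helper57.KP

private lemma xp_re45 (t x : ℝ) : (xp t x).re = Real.cos (t * Real.log x) := by
  unfold xp
  rw [← neg_mul, ← Complex.ofReal_neg, Complex.exp_ofReal_mul_I_re, Real.cos_neg]

private lemma xp_im45 (t x : ℝ) : (xp t x).im = -Real.sin (t * Real.log x) := by
  unfold xp
  rw [← neg_mul, ← Complex.ofReal_neg, Complex.exp_ofReal_mul_I_im, Real.sin_neg]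

/-- the squared modulus of a sum with real coefficients -/
private lemma norm_sq_sum45 {ι : Type} (S : Finset ι) (c : ι → ℝ) (z : ι → ℝ) (t : ℝ) :
    ‖∑ x ∈ S, ((c x : ℝ) : ℂ) * xp t (z x)‖ ^ 2 =
      ∑ p ∈ S ×ˢ S, c p.1 * c p.2 * Real.cos (t * (Real.log (z p.1) - Real.log (z p.2))) := by
  have h1 : (∑ x ∈ S, ((c x : ℝ) : ℂ) * xp t (z x)).re = ∑ x ∈ S, c x * Real.cos (t * Real.log (z x)) := by
    rw [Complex.re_sum]
    exact Finset.sum_congr rfl fun x _ => by rw [Complex.re_ofReal_mul, xp_re45]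
  have h2 : (∑ x ∈ S, ((c x : ℝ) : ℂ) * xp t (z x)).im = ∑ x ∈ S, -(c x * Real.sin (t * Real.log (z x))) := by
    rw [Complex.im_sum]
    exact Finset.sum_congr rfl fun x _ => by rw [Complex.im_ofReal_mul, xp_im45]; ring
  rw [← Complex.normSq_eq_norm_sq, Complex.normSq_apply, h1, h2, Finset.sum_mul_sum, Finset.sum_mul_sum,
    ← Finset.sum_add_distrib, Finset.sum_product]
  refine Finset.sum_congr rfl fun x _ => ?_
  rw [← Finset.sum_add_distrib]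
  refine Finset.sum_congr rfl fun y _ => ?_
  simp only
  rw [mul_sub, Real.cos_sub]
  ring

private lemma mf_le45 (r : ℕ) : |mf r| ≤ 1 := by
  unfold mf
  rcases Nat.eq_zero_or_pos r with rfl | hr
  · simp
  rw [abs_div]
  have h1 : |((ArithmeticFunction.moebius r : ℤ) : ℝ)| ≤ 1 := by
    have := ArithmeticFunction.abs_moebius_le_one (n := r)
    exact_mod_cast this
  have h2 : (1 : ℝ) ≤ (Nat.totient r : ℝ) := by exact_mod_cast Nat.totient_pos.2 hr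
  rw [abs_of_nonneg (by linarith : (0:ℝ) ≤ (Nat.totient r : ℝ))]
  rw [div_le_one (by linarith)]
  linarith

theorem DD_sq_b (g : TF) {e : ℝ} (he : 0 < e) (he1 : e < 1 / 4) :
    ∃ C : ℝ, 0 < C ∧ ∀ T : ℝ, Real.exp 1 ≤ T → ∀ (v : ℝ → ℝ) (B : ℝ), (∀ x, |v x| ≤ B) →
    |(∫ t, om g.h T t * ‖DD v e T t‖ ^ 2) / T -
      (∫ x, g.h x) * ((1 / Real.log T ^ 2) * ∑ x ∈ RA e T, mf x.1 ^ 2 * ((x.1 : ℝ) / x.2) * v (lr T x) ^ 2)| ≤
      C * B ^ 2 * T ^ (-(1:ℝ)) := by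
  obtain ⟨K, hK⟩ := exists_nat_ge (4 / e)
  have hK' : 8 ≤ 2 * e * K := by
    rw [div_le_iff₀ he] at hK
    linarith
  obtain ⟨C, hC, hg⟩ := Pool.Agent.Helper4.SH.gmv g (δ := 2 * e) (by linarith) K
  refine ⟨C, hC, fun T hT v B hB => ?_⟩
  have hB0 : 0 ≤ B := (abs_nonneg _).trans (hB 0)
  have hT1 : 1 ≤ T := (Real.one_le_exp (by norm_num)).trans hT
  have hT0 : 0 < T := by linarith
  have hL : 1 ≤ Real.log T := by
    rw [Real.le_log_iff_exp_le hT0]; exact hT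
  have hmem : ∀ x ∈ Pool.Agent.Helper69.FF.RA e T, 1 ≤ x.1 ∧ 1 ≤ x.2 ∧ (x.1 : ℝ) ≤ T ^ (1 / 2 - e) ∧ x.2 ≤ x.1 ∧ Nat.Coprime x.2 x.1 := by
    intro x hx
    unfold Pool.Agent.Helper69.FF.RA at hx
    simp only [Finset.mem_filter, Finset.mem_product, Finset.mem_Icc] at hx
    exact ⟨hx.1.1.1, hx.1.2.1, hx.2.2.1, hx.2.2.2.2.1, hx.2.2.2.2.2⟩
  have hcard : ((Pool.Agent.Helper69.FF.RA e T).card : ℝ) ≤ T ^ 2 := by
    have h1 : (Pool.Agent.Helper69.FF.RA e T).card ≤ ⌊T⌋₊ * ⌊T⌋₊ := by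
      refine (Finset.card_filter_le _ _).trans ?_
      rw [Finset.card_product, Nat.card_Icc]
      simp
    have h2 : ((⌊T⌋₊ : ℕ) : ℝ) ≤ T := Nat.floor_le hT0.le
    calc ((Pool.Agent.Helper69.FF.RA e T).card : ℝ) ≤ ((⌊T⌋₊ * ⌊T⌋₊ : ℕ) : ℝ) := by exact_mod_cast h1
      _ = (⌊T⌋₊ : ℝ) * ⌊T⌋₊ := by push_cast; ring
      _ ≤ T * T := by gcongr
      _ = T ^ 2 := by ring
  set c : ℕ × ℕ → ℝ := fun x => mf x.1 * Real.sqrt ((x.1 : ℝ) / x.2) * v (lr T x) / Real.log T with hc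
  have hcle : ∀ x ∈ Pool.Agent.Helper69.FF.RA e T, |c x| ≤ B * Real.sqrt T := by
    intro x hx
    obtain ⟨h1, h2, h3, h4, h5⟩ := hmem x hx
    have h2' : (1 : ℝ) ≤ (x.2 : ℝ) := by exact_mod_cast h2
    have hx1 : (x.1 : ℝ) ≤ T := h3.trans (by
      calc T ^ (1 / 2 - e) ≤ T ^ (1:ℝ) := Real.rpow_le_rpow_of_exponent_le hT1 (by linarith)
        _ = T := Real.rpow_one T)
    have h6 : (x.1 : ℝ) / x.2 ≤ T := by
      rw [div_le_iff₀ (by linarith)]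
      nlinarith
    rw [hc]
    simp only
    rw [abs_div, abs_mul, abs_mul, abs_of_nonneg (by linarith : (0:ℝ) ≤ Real.log T), abs_of_nonneg (Real.sqrt_nonneg _)]
    have h7 := mf_le45 x.1
    have h8 := hB (lr T x)
    have h9 := Real.sqrt_le_sqrt h6
    rw [div_le_iff₀ (by linarith)]
    calc |mf x.1| * Real.sqrt ((x.1 : ℝ) / x.2) * |v (lr T x)| ≤ 1 * Real.sqrt T * B := by gcongr
      _ = B * Real.sqrt T * 1 := by ring
      _ ≤ B * Real.sqrt T * Real.log T := by gcongr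
  have hpt : ∀ t, ‖DD v e T t‖ ^ 2 = ∑ p ∈ Pool.Agent.Helper69.FF.RA e T ×ˢ Pool.Agent.Helper69.FF.RA e T, (c p.1 * c p.2) *
      Real.cos (t * (Real.log ((p.1.1 * p.2.2 : ℕ) : ℝ) - Real.log ((p.2.1 * p.1.2 : ℕ) : ℝ))) := by
    intro t
    unfold DD
    rw [norm_sq_sum45 (Pool.Agent.Helper69.FF.RA e T) c (fun x => (x.1 : ℝ) / x.2) t]
    refine Finset.sum_congr rfl fun p hp => ?_
    rw [Finset.mem_product] at hp
    obtain ⟨h1, h2, -, -, -⟩ := hmem _ hp.1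
    obtain ⟨h3, h4, -, -, -⟩ := hmem _ hp.2
    have a1 : (p.1.1 : ℝ) ≠ 0 := by positivity
    have a2 : (p.1.2 : ℝ) ≠ 0 := by positivity
    have a3 : (p.2.1 : ℝ) ≠ 0 := by positivity
    have a4 : (p.2.2 : ℝ) ≠ 0 := by positivity
    rw [Nat.cast_mul, Nat.cast_mul, Real.log_div a1 a2, Real.log_div a3 a4, Real.log_mul a1 a4, Real.log_mul a3 a2]
    congr 2
    ring
  have hint : (∫ t, om g.h T t * ‖DD v e T t‖ ^ 2) = ∫ t, om g.h T t * ∑ p ∈ Pool.Agent.Helper69.FF.RA e T ×ˢ Pool.Agent.Helper69.FF.RA e T, (c p.1 * c p.2) *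
      Real.cos (t * (Real.log ((p.1.1 * p.2.2 : ℕ) : ℝ) - Real.log ((p.2.1 * p.1.2 : ℕ) : ℝ))) := by
    congr 1
    funext t
    rw [hpt t]
  have hgm := hg T hT1 ((ℕ × ℕ) × (ℕ × ℕ)) (Pool.Agent.Helper69.FF.RA e T ×ˢ Pool.Agent.Helper69.FF.RA e T) (fun p => c p.1 * c p.2) (fun p => p.1.1 * p.2.2)
    (fun p => p.2.1 * p.1.2) (by
      intro p hp
      rw [Finset.mem_product] at hp
      obtain ⟨h1, h2, h3, h4, -⟩ := hmem _ hp.1
      obtain ⟨h5, h6, h7, h8, -⟩ := hmem _ hp.2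
      refine ⟨Nat.mul_pos h1 h6, Nat.mul_pos h5 h2, ?_⟩
      have e1 : ((min (p.1.1 * p.2.2) (p.2.1 * p.1.2) : ℕ) : ℝ) ≤ (p.1.1 : ℝ) * p.2.2 := by
        have := Nat.min_le_left (p.1.1 * p.2.2) (p.2.1 * p.1.2)
        calc ((min (p.1.1 * p.2.2) (p.2.1 * p.1.2) : ℕ) : ℝ) ≤ ((p.1.1 * p.2.2 : ℕ) : ℝ) := by exact_mod_cast this
          _ = _ := by push_cast; ring
      refine e1.trans ?_
      have e2 : (p.2.2 : ℝ) ≤ T ^ (1 / 2 - e) := le_trans (by exact_mod_cast h8) h7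
      calc (p.1.1 : ℝ) * p.2.2 ≤ T ^ (1 / 2 - e) * T ^ (1 / 2 - e) := by gcongr
        _ = T ^ (1 - 2 * e) := by rw [← Real.rpow_add hT0]; congr 1; ring)
  rw [← hint] at hgm
  have hdiag : ∑ i ∈ Pool.Agent.Helper69.FF.RA e T ×ˢ Pool.Agent.Helper69.FF.RA e T, (if i.1.1 * i.2.2 = i.2.1 * i.1.2 then c i.1 * c i.2 else 0) =
      ∑ x ∈ Pool.Agent.Helper69.FF.RA e T, c x ^ 2 := by
    rw [Finset.sum_product]
    refine Finset.sum_congr rfl fun x hx => ?_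
    rw [Finset.sum_eq_single x]
    · rw [if_pos rfl]; ring
    · intro y hy hyx
      rw [if_neg]
      intro h
      simp only at h
      apply hyx
      obtain ⟨h1, h2, -, -, h5⟩ := hmem x hx
      obtain ⟨h1', h2', -, -, h5'⟩ := hmem y hy
      -- x.1 * y.2 = y.1 * x.2
      have d1 : x.1 ∣ y.1 := by
        have : x.1 ∣ y.1 * x.2 := ⟨y.2, h.symm⟩
        exact (Nat.Coprime.symm h5).dvd_of_dvd_mul_right this
      have d2 : y.1 ∣ x.1 := by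
        have : y.1 ∣ x.1 * y.2 := ⟨x.2, h⟩
        exact (Nat.Coprime.symm h5').dvd_of_dvd_mul_right this
      have d3 : x.1 = y.1 := Nat.dvd_antisymm d1 d2
      rw [d3] at h
      have d4 : y.2 = x.2 := Nat.eq_of_mul_eq_mul_left h1' h
      exact Prod.ext d3.symm d4
    · intro h; exact absurd hx h
  have hdiag2 : ∑ x ∈ Pool.Agent.Helper69.FF.RA e T, c x ^ 2 = (1 / Real.log T ^ 2) * ∑ x ∈ Pool.Agent.Helper69.FF.RA e T, mf x.1 ^ 2 * ((x.1 : ℝ) / x.2) * v (lr T x) ^ 2 := by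
    rw [Finset.mul_sum]
    refine Finset.sum_congr rfl fun x hx => ?_
    have h1 : Real.sqrt ((x.1 : ℝ) / x.2) ^ 2 = (x.1 : ℝ) / x.2 := Real.sq_sqrt (by positivity)
    rw [hc]
    simp only
    rw [div_pow, mul_pow, mul_pow, h1]
    ring
  have hgm2 : |(∫ t, om g.h T t * ‖DD v e T t‖ ^ 2) - T * (∫ x, g.h x) * ∑ x ∈ Pool.Agent.Helper69.FF.RA e T, c x ^ 2| ≤
      C * T ^ (1 - 2 * e * K) * ∑ i ∈ Pool.Agent.Helper69.FF.RA e T ×ˢ Pool.Agent.Helper69.FF.RA e T, |c i.1 * c i.2| := by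
    rw [← hdiag]; exact hgm
  have hsum : ∑ i ∈ Pool.Agent.Helper69.FF.RA e T ×ˢ Pool.Agent.Helper69.FF.RA e T, |c i.1 * c i.2| ≤ B ^ 2 * T ^ 5 := by
    have h1 : ∀ i ∈ Pool.Agent.Helper69.FF.RA e T ×ˢ Pool.Agent.Helper69.FF.RA e T, |c i.1 * c i.2| ≤ B ^ 2 * T := by
      intro i hi
      rw [Finset.mem_product] at hi
      rw [abs_mul]
      calc |c i.1| * |c i.2| ≤ (B * Real.sqrt T) * (B * Real.sqrt T) := by
            gcongr
            · exact hcle _ hi.1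
            · exact hcle _ hi.2
        _ = B ^ 2 * (Real.sqrt T * Real.sqrt T) := by ring
        _ = B ^ 2 * T := by rw [Real.mul_self_sqrt hT0.le]
    calc ∑ i ∈ Pool.Agent.Helper69.FF.RA e T ×ˢ Pool.Agent.Helper69.FF.RA e T, |c i.1 * c i.2| ≤ ∑ i ∈ Pool.Agent.Helper69.FF.RA e T ×ˢ Pool.Agent.Helper69.FF.RA e T, B ^ 2 * T := Finset.sum_le_sum h1
      _ = ((Pool.Agent.Helper69.FF.RA e T).card : ℝ) * ((Pool.Agent.Helper69.FF.RA e T).card : ℝ) * (B ^ 2 * T) := by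
          rw [Finset.sum_const, Finset.card_product, nsmul_eq_mul]; push_cast; ring
      _ ≤ T ^ 2 * T ^ 2 * (B ^ 2 * T) := by gcongr
      _ = B ^ 2 * T ^ 5 := by ring
  have hpow : T ^ (1 - 2 * e * K) ≤ T ^ (-(7:ℝ)) := Real.rpow_le_rpow_of_exponent_le hT1 (by linarith)
  have e3 : (∫ t, om g.h T t * ‖DD v e T t‖ ^ 2) / T - (∫ x, g.h x) * ((1 / Real.log T ^ 2) *
      ∑ x ∈ Pool.Agent.Helper69.FF.RA e T, mf x.1 ^ 2 * ((x.1 : ℝ) / x.2) * v (lr T x) ^ 2) =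
      ((∫ t, om g.h T t * ‖DD v e T t‖ ^ 2) - T * (∫ x, g.h x) * ∑ x ∈ Pool.Agent.Helper69.FF.RA e T, c x ^ 2) / T := by
    rw [hdiag2]
    field_simp
  rw [e3, abs_div, abs_of_pos hT0, div_le_iff₀ hT0]
  refine hgm2.trans ?_
  have e4 : T ^ (-(1:ℝ)) * T = 1 := by
    rw [Real.rpow_neg_one, inv_mul_cancel₀ hT0.ne']
  have e5 : T ^ (-(7:ℝ)) * T ^ 5 ≤ 1 := by
    rw [← Real.rpow_natCast T 5, ← Real.rpow_add hT0]
    apply Real.rpow_le_one_of_one_le_of_nonpos hT1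
    norm_num
  calc C * T ^ (1 - 2 * e * K) * ∑ i ∈ Pool.Agent.Helper69.FF.RA e T ×ˢ Pool.Agent.Helper69.FF.RA e T, |c i.1 * c i.2| ≤ C * T ^ (-(7:ℝ)) * (B ^ 2 * T ^ 5) := by
        gcongr
    _ = C * B ^ 2 * (T ^ (-(7:ℝ)) * T ^ 5) := by ring
    _ ≤ C * B ^ 2 * 1 := by gcongr
    _ = C * B ^ 2 * (T ^ (-(1:ℝ)) * T) := by rw [e4]
    _ = C * B ^ 2 * T ^ (-(1:ℝ)) * T := by ring

end Pool.Agent.Helper57.KP
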