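import Pool.Agent.Helper57.KP.P1

/-!
# KP-S1: lower bound for the main term

`w = sw W c T`, `v = sw W (c + ℓ) T`, `ℓ = log 4π`; `s = s(r,a) = L lr - (c + ℓ)`.

PROOF. `w (log n/L) = √L W(log n - c)`, `v (lr) = √L W(s)`, `a n/(r T) = exp((log n - c) - (s + ℓ))`, so with `u = log n - c`, `f_s(u) = W(u) g.h(2π e^(u - s - ℓ) - 1/2)`:
`(2π/L²) SM/T = (2π/(L T)) ∑_{(r,a)} mf² W(s) ∑_{(n,r)=1} Λ(n) f_s(log n - c)`. The `n` not coprime to `r` contribute at most `4 L²` to the inner sum (`n ≤ T²` is a power of a prime dividing `r`), which is `≤ ε₁ e^c` as `e^c ≥ T`.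
By `pnt_c1` (`f_s` is C¹ with `|f_s'| ≤ K` uniformly for `|s| ≤ R`: on the support of `g.h` the argument `2π e^(u-s-ℓ)` is at most 1) the inner sum is `e^c (∫ e^u f_s(u) du + O(ε₁))`, and `e^c/T = (r/a) e^(-(s+ℓ))`. With `y = 2π e^(u-s-ℓ)`:
`2π e^(-(s+ℓ)) ∫ e^u f_s(u) du = ∫ W(s + ℓ + log(y/2π)) g.h(y - 1/2) dy ≥ (∫ g.h) (W(s) - 4 η K)`, because `ℓ + log(y/2π) = log(2y)`, `|log(2y)| ≤ 4η` for `|y - 1/2| ≤ η ≤ 1/8`, and `|W(s + z) - W(s)| ≤ K |z|`.
`W(s) ≠ 0` forces `|s| ≤ R`, so `2π e^(-(s+ℓ)) ≤ e^R`. All terms have `W ≥ 0`, `g.h ≥ 0`.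
-/

open MeasureTheory Set Filter Topology
open Pool.Agent.Helper57.Zeta Pool.Agent.Helper57.PC Pool.Agent.Helper57.LH Pool.Agent.Helper78.SG
open Pool.Agent.Helper4.SH (om)
open Pool.Agent.Helper69.FF
open scoped ContDiff

set_option autoImplicit false

namespace Pool.Agent.Helper57.KP

private lemma bdd93 (g : TF) : ∃ M : ℝ, 0 < M ∧ (∀ x, |g.h x| ≤ M) ∧ ∀ x, |deriv g.h x| ≤ M := by
  have hc : HasCompactSupport g.h := by
    refine HasCompactSupport.of_support_subset_isCompact (isCompact_Icc (a := -g.th) (b := g.th)) ?_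
    intro x hx
    have h1 : |x| < g.th := by
      by_contra h2
      exact hx (g.supp x (not_lt.1 h2))
    rw [abs_lt] at h1
    exact ⟨h1.1.le, h1.2.le⟩
  obtain ⟨A, hA⟩ := hc.exists_bound_of_continuous g.smooth.continuous
  obtain ⟨B, hB⟩ := hc.deriv.exists_bound_of_continuous (g.smooth.continuous_deriv (by exact_mod_cast le_top))
  refine ⟨max A B + 1, ?_, fun x => ?_, fun x => ?_⟩
  · have h1 := (norm_nonneg _).trans (hA 0)
    have := le_max_left A B
    linarith
  · have h1 := hA x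
    rw [Real.norm_eq_abs] at h1
    have := le_max_left A B
    linarith
  · have h1 := hB x
    rw [Real.norm_eq_abs] at h1
    have := le_max_right A B
    linarith

private lemma bddW93 {W : ℝ → ℝ} {R : ℝ} (hW : PF W R) : ∃ M : ℝ, 0 < M ∧ ∀ x, |deriv W x| ≤ M := by
  have hc : HasCompactSupport W := by
    refine HasCompactSupport.of_support_subset_isCompact (isCompact_Icc (a := -R) (b := R)) ?_
    intro x hx
    exact abs_le.1 (hW.supp x hx)
  obtain ⟨B, hB⟩ := hc.deriv.exists_bound_of_continuous (hW.smooth.continuous_deriv (by exact_mod_cast le_top))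
  refine ⟨|B| + 1, by positivity, fun x => ?_⟩
  have h1 := hB x
  rw [Real.norm_eq_abs] at h1
  have := le_abs_self B
  linarith

private lemma dsupp93 (g : TF) {x : ℝ} (hx : deriv g.h x ≠ 0) : |x| ≤ g.th := by
  have h1 : x ∈ tsupport g.h := support_deriv_subset hx
  have h2 : tsupport g.h ⊆ Icc (-g.th) g.th := by
    refine closure_minimal ?_ isClosed_Icc
    intro y hy
    have h1 : |y| < g.th := by
      by_contra h2
      exact hy (g.supp y (not_lt.1 h2))
    rw [abs_lt] at h1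
    exact ⟨h1.1.le, h1.2.le⟩
  exact abs_le.2 (h2 h1)

/-- the weight of the inner sum -/
private noncomputable def fs93 (g : TF) (W : ℝ → ℝ) (q u : ℝ) : ℝ := W u * g.h (2 * Real.pi * Real.exp (u - q) - 1 / 2)

private lemma fs_smooth (g : TF) {W : ℝ → ℝ} {R : ℝ} (hW : PF W R) (q : ℝ) : ContDiff ℝ 1 (fs93 g W q) := by
  have h1 : ContDiff ℝ 1 W := hW.smooth.of_le (by exact_mod_cast le_top)
  have h2 : ContDiff ℝ 1 g.h := g.smooth.of_le (by exact_mod_cast le_top)
  unfold fs93
  refine h1.mul (h2.comp ?_)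
  exact ((contDiff_const.mul (Real.contDiff_exp.comp (contDiff_id.sub contDiff_const))).sub contDiff_const)

private lemma fs_deriv (g : TF) {W : ℝ → ℝ} {R : ℝ} (hW : PF W R) : ∃ K : ℝ, 0 ≤ K ∧ ∀ q u, |deriv (fs93 g W q) u| ≤ K := by
  obtain ⟨Mh, hMh0, hMh, hMh'⟩ := bdd93 g
  obtain ⟨Mw, hMw0, hMw⟩ := bddW93 hW
  refine ⟨Mw * Mh + Mh, by positivity, fun q u => ?_⟩
  have d1 : HasDerivAt W (deriv W u) u := ((hW.smooth.differentiable (by simp)) _).hasDerivAt
  have d2 : HasDerivAt (fun u : ℝ => 2 * Real.pi * Real.exp (u - q) - 1 / 2) (2 * Real.pi * Real.exp (u - q)) u := by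
    have h0 : HasDerivAt (fun u : ℝ => u - q) 1 u := (hasDerivAt_id u).sub_const q
    have h1 := ((h0.exp).const_mul (2 * Real.pi)).sub_const (1 / 2)
    refine h1.congr_deriv ?_
    ring
  have d3 : HasDerivAt g.h (deriv g.h (2 * Real.pi * Real.exp (u - q) - 1 / 2)) (2 * Real.pi * Real.exp (u - q) - 1 / 2) :=
    ((g.smooth.differentiable (by simp)) _).hasDerivAt
  have d4 := d1.mul (HasDerivAt.comp u d3 d2)
  have e : deriv (fs93 g W q) u = deriv W u * g.h (2 * Real.pi * Real.exp (u - q) - 1 / 2) +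
      W u * (deriv g.h (2 * Real.pi * Real.exp (u - q) - 1 / 2) * (2 * Real.pi * Real.exp (u - q))) := d4.deriv
  rw [e]
  refine (abs_add_le _ _).trans ?_
  have h1 : |deriv W u * g.h (2 * Real.pi * Real.exp (u - q) - 1 / 2)| ≤ Mw * Mh := by
    rw [abs_mul]
    exact mul_le_mul (hMw u) (hMh _) (abs_nonneg _) hMw0.le
  have h2 : |W u * (deriv g.h (2 * Real.pi * Real.exp (u - q) - 1 / 2) * (2 * Real.pi * Real.exp (u - q)))| ≤ Mh := by
    rw [abs_mul, abs_of_nonneg (hW.nonneg u)]
    have h3 : |deriv g.h (2 * Real.pi * Real.exp (u - q) - 1 / 2) * (2 * Real.pi * Real.exp (u - q))| ≤ Mh := by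
      by_cases hz : deriv g.h (2 * Real.pi * Real.exp (u - q) - 1 / 2) = 0
      · rw [hz, zero_mul, abs_zero]
        exact hMh0.le
      · have h4 := abs_le.1 (dsupp93 g hz)
        have h5 := g.th1
        have h6 : 2 * Real.pi * Real.exp (u - q) ≤ 1 := by linarith [h4.2]
        have h7 : 0 ≤ 2 * Real.pi * Real.exp (u - q) := by positivity
        rw [abs_mul, abs_of_nonneg h7]
        calc |deriv g.h (2 * Real.pi * Real.exp (u - q) - 1 / 2)| * (2 * Real.pi * Real.exp (u - q)) ≤ Mh * 1 :=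
            mul_le_mul (hMh' _) h6 h7 hMh0.le
          _ = Mh := mul_one _
    calc W u * |deriv g.h (2 * Real.pi * Real.exp (u - q) - 1 / 2) * (2 * Real.pi * Real.exp (u - q))| ≤ 1 * Mh :=
        mul_le_mul (hW.le_one u) h3 (abs_nonneg _) zero_le_one
      _ = Mh := one_mul _
  linarith

/-- substitution -/
private lemma subst93 (g : TF) (q : ℝ) :
    (∫ u, Real.exp u * g.h (2 * Real.pi * Real.exp (u - q) - 1 / 2)) = Real.exp q / (2 * Real.pi) * ∫ x, g.h x := by
  have hpi := Real.pi_pos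
  have h1 := integral_image_eq_integral_abs_deriv_smul (s := univ) (f := fun u : ℝ => 2 * Real.pi * Real.exp (u - q))
    (f' := fun u : ℝ => 2 * Real.pi * Real.exp (u - q)) MeasurableSet.univ (fun u _ => by
      have h0 : HasDerivAt (fun u : ℝ => u - q) 1 u := (hasDerivAt_id u).sub_const q
      have h1 := (h0.exp).const_mul (2 * Real.pi)
      refine (h1.congr_deriv ?_).hasDerivWithinAt
      ring) (fun x _ y _ h => by
      have h2 : Real.exp (x - q) = Real.exp (y - q) := by
        have h3 : (2 * Real.pi) * Real.exp (x - q) = (2 * Real.pi) * Real.exp (y - q) := h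
        exact mul_left_cancel₀ (by positivity) h3
      have := Real.exp_injective h2
      linarith) (fun y => g.h (y - 1 / 2))
  have h2 : (fun u : ℝ => 2 * Real.pi * Real.exp (u - q)) '' univ = Ioi 0 := by
    ext y
    simp only [image_univ, mem_range, mem_Ioi]
    constructor
    · rintro ⟨u, rfl⟩
      positivity
    · intro hy
      refine ⟨Real.log (y / (2 * Real.pi)) + q, ?_⟩
      rw [add_sub_cancel_right, Real.exp_log (by positivity)]
      field_simp
  rw [h2] at h1
  have h3 : ∫ y in Ioi (0:ℝ), g.h (y - 1 / 2) = ∫ y, g.h (y - 1 / 2) := by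
    apply setIntegral_eq_integral_of_forall_compl_eq_zero
    intro y hy
    apply g.supp
    have h4 : y ≤ 0 := not_lt.1 hy
    have h5 := g.th1
    rw [abs_of_neg (by linarith)]
    linarith
  have h4 : ∫ y, g.h (y - 1 / 2) = ∫ y, g.h y := integral_sub_right_eq_self g.h (1 / 2)
  rw [h3, h4, Measure.restrict_univ] at h1
  rw [h1, ← integral_const_mul]
  congr 1
  funext u
  have h5 : 0 ≤ 2 * Real.pi * Real.exp (u - q) := by positivity
  rw [abs_of_nonneg h5, smul_eq_mul]
  have h6 : Real.exp u = Real.exp q * Real.exp (u - q) := by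
    rw [← Real.exp_add]
    congr 1
    ring
  rw [h6]
  field_simp

private lemma log93 {η y : ℝ} (hη : 0 < η) (hη1 : η ≤ 1 / 8) (hy : |y - 1 / 2| ≤ η) : |Real.log (2 * y)| ≤ 4 * η := by
  have h := abs_le.1 hy
  have hy0 : 0 < 2 * y := by linarith [h.1]
  rw [abs_le]
  constructor
  · have h1 := Real.one_sub_inv_le_log_of_pos hy0
    have h2 : (2 * y)⁻¹ ≤ 1 + 4 * η := by
      rw [inv_le_comm₀ hy0 (by linarith)]
      have h3 : (1 + 4 * η)⁻¹ ≤ 1 - 2 * η := by
        rw [inv_le_iff_one_le_mul₀ (by linarith)]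
        nlinarith
      linarith [h.1]
    linarith
  · have h1 := Real.log_le_sub_one_of_pos hy0
    linarith [h.2]

/-- the integral of the weight -/
private lemma int_low (g : TF) (hg0 : ∀ x, 0 ≤ g.h x) {η : ℝ} (hη : 0 < η) (hη1 : η ≤ 1 / 8) (hgη : ∀ x, g.h x ≠ 0 → |x| ≤ η)
    {W : ℝ → ℝ} {R K : ℝ} (hW : PF W R) (hK : 0 ≤ K) (hLip : ∀ x y, |W x - W y| ≤ K * |x - y|) (s : ℝ) :
    Real.exp (s + Real.log (4 * Real.pi)) / (2 * Real.pi) * ((∫ x, g.h x) * (W s - 4 * η * K)) ≤
      ∫ u, Real.exp u * fs93 g W (s + Real.log (4 * Real.pi)) u := by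
  have hpi := Real.pi_pos
  set q := s + Real.log (4 * Real.pi) with hq
  have h1 : Real.exp q / (2 * Real.pi) * ((∫ x, g.h x) * (W s - 4 * η * K)) =
      ∫ u, (Real.exp u * g.h (2 * Real.pi * Real.exp (u - q) - 1 / 2)) * (W s - 4 * η * K) := by
    rw [integral_mul_const, subst93]
    ring
  rw [h1]
  have hcs : HasCompactSupport (fun u : ℝ => g.h (2 * Real.pi * Real.exp (u - q) - 1 / 2)) := by
    refine HasCompactSupport.of_support_subset_isCompact (isCompact_Icc (a := s - 4 * η) (b := s + 4 * η)) ?_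
    intro u hu
    have h2 := hgη _ hu
    have h3 := log93 hη hη1 h2
    have h4 : Real.log (2 * (2 * Real.pi * Real.exp (u - q))) = u - s := by
      have : 2 * (2 * Real.pi * Real.exp (u - q)) = (4 * Real.pi) * Real.exp (u - q) := by ring
      rw [this, Real.log_mul (by positivity) (Real.exp_pos _).ne', Real.log_exp, hq]
      ring
    rw [h4] at h3
    have h5 := abs_le.1 h3
    exact ⟨by linarith [h5.1], by linarith [h5.2]⟩
  have hc1 : Continuous (fun u : ℝ => g.h (2 * Real.pi * Real.exp (u - q) - 1 / 2)) := g.smooth.continuous.comp (by fun_prop)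
  have hWc := hW.smooth.continuous
  refine integral_mono ?_ ?_ ?_
  · apply Continuous.integrable_of_hasCompactSupport
    · exact (Real.continuous_exp.mul hc1).mul continuous_const
    · exact (hcs.mul_left).mul_right
  · apply Continuous.integrable_of_hasCompactSupport
    · unfold fs93
      exact Real.continuous_exp.mul (hWc.mul hc1)
    · unfold fs93
      exact (hcs.mul_left).mul_left
  · intro u
    simp only [fs93]
    by_cases hu : g.h (2 * Real.pi * Real.exp (u - q) - 1 / 2) = 0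
    · rw [hu]
      simp
    · have h2 := hgη _ hu
      have h3 := log93 hη hη1 h2
      have h4 : Real.log (2 * (2 * Real.pi * Real.exp (u - q))) = u - s := by
        have : 2 * (2 * Real.pi * Real.exp (u - q)) = (4 * Real.pi) * Real.exp (u - q) := by ring
        rw [this, Real.log_mul (by positivity) (Real.exp_pos _).ne', Real.log_exp, hq]
        ring
      rw [h4] at h3
      have h5 := hLip s u
      have h6 : W s - W u ≤ K * (4 * η) := by
        refine (le_abs_self _).trans (h5.trans ?_)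
        rw [abs_sub_comm] at h3
        exact mul_le_mul_of_nonneg_left h3 hK
      have h7 : W s - 4 * η * K ≤ W u := by linarith
      have h8 : 0 ≤ Real.exp u * g.h (2 * Real.pi * Real.exp (u - q) - 1 / 2) := mul_nonneg (Real.exp_pos _).le (hg0 _)
      calc Real.exp u * g.h (2 * Real.pi * Real.exp (u - q) - 1 / 2) * (W s - 4 * η * K) ≤
          Real.exp u * g.h (2 * Real.pi * Real.exp (u - q) - 1 / 2) * W u := mul_le_mul_of_nonneg_left h7 h8
        _ = _ := by ring

open scoped ArithmeticFunction in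
private lemma noncop93 {N r : ℕ} (hr : r ≠ 0) :
    ∑ n ∈ (Finset.Icc 1 N).filter (fun n => ¬ Nat.Coprime n r), Λ n ≤
      (r.divisors.card : ℝ) * ((Nat.log 2 N : ℝ) * Real.log N) := by
  classical
  have h1 : ∑ n ∈ (Finset.Icc 1 N).filter (fun n => ¬ Nat.Coprime n r), Λ n =
      ∑ n ∈ ((Finset.Icc 1 N).filter (fun n => ¬ Nat.Coprime n r)).filter (fun n => Λ n ≠ 0), Λ n :=
    (Finset.sum_filter_ne_zero _).symm
  rw [h1]
  have h2 : ((Finset.Icc 1 N).filter (fun n => ¬ Nat.Coprime n r)).filter (fun n => Λ n ≠ 0) ⊆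
      (r.primeFactors ×ˢ Finset.Icc 1 (Nat.log 2 N)).image (fun x => x.1 ^ x.2) := by
    intro n hn
    rw [Finset.mem_filter, Finset.mem_filter, Finset.mem_Icc] at hn
    obtain ⟨⟨⟨hn1, hnN⟩, hcop⟩, hL⟩ := hn
    rw [ArithmeticFunction.vonMangoldt_ne_zero_iff] at hL
    obtain ⟨p, k, hp, hk, rfl⟩ := hL
    have hp' : p.Prime := hp.nat_prime
    rw [Finset.mem_image]
    refine ⟨(p, k), ?_, rfl⟩
    rw [Finset.mem_product, Finset.mem_Icc, Nat.mem_primeFactors]
    refine ⟨⟨hp', ?_, hr⟩, hk, ?_⟩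
    · by_contra hnd
      exact hcop (Nat.Coprime.pow_left k ((Nat.Prime.coprime_iff_not_dvd hp').2 hnd))
    · have h3 : 2 ^ k ≤ N := (Nat.pow_le_pow_left hp'.two_le k).trans hnN
      exact Nat.le_log_of_pow_le (by norm_num) h3
  calc _ ≤ ∑ n ∈ ((Finset.Icc 1 N).filter (fun n => ¬ Nat.Coprime n r)).filter (fun n => Λ n ≠ 0),
        Real.log N := by
        refine Finset.sum_le_sum fun n hn => ?_
        rw [Finset.mem_filter, Finset.mem_filter, Finset.mem_Icc] at hn
        refine ArithmeticFunction.vonMangoldt_le_log.trans ?_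
        apply Real.log_le_log
        · exact_mod_cast hn.1.1.1
        · exact_mod_cast hn.1.1.2
    _ = (((Finset.Icc 1 N).filter (fun n => ¬ Nat.Coprime n r)).filter (fun n => Λ n ≠ 0)).card *
        Real.log N := by rw [Finset.sum_const, nsmul_eq_mul]
    _ ≤ ((r.divisors.card * Nat.log 2 N : ℕ) : ℝ) * Real.log N := by
        have h4 : (((Finset.Icc 1 N).filter (fun n => ¬ Nat.Coprime n r)).filter (fun n => Λ n ≠ 0)).card ≤
            r.divisors.card * Nat.log 2 N := by
          refine (Finset.card_le_card h2).trans (Finset.card_image_le.trans ?_)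
          rw [Finset.card_product, Nat.card_Icc, Nat.add_sub_cancel]
          refine Nat.mul_le_mul_right _ (Finset.card_le_card ?_)
          intro p hp
          rw [Nat.mem_primeFactors] at hp
          rw [Nat.mem_divisors]
          exact ⟨hp.2.1, hp.2.2⟩
        have h5 : 0 ≤ Real.log N := Real.log_natCast_nonneg N
        exact mul_le_mul_of_nonneg_right (by exact_mod_cast h4) h5
    _ = _ := by push_cast; ring

private lemma nat_log_le {N : ℕ} (hN : 1 ≤ N) : (Nat.log 2 N : ℝ) ≤ 2 * Real.log N := by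
  have h1 : ((2 ^ Nat.log 2 N : ℕ) : ℝ) ≤ N := by exact_mod_cast Nat.pow_log_le_self 2 (by omega)
  have h2 := Real.log_le_log (by positivity) h1
  push_cast at h2
  rw [Real.log_pow] at h2
  have h3 : (1:ℝ) / 2 ≤ Real.log 2 := by linarith [Real.log_two_gt_d9]
  have h4 : (0:ℝ) ≤ (Nat.log 2 N : ℝ) := Nat.cast_nonneg _
  nlinarith

theorem SM_low (g : TF) (hg0 : ∀ x, 0 ≤ g.h x) {η : ℝ} (hη : 0 < η) (hη1 : η ≤ 1 / 8) (hgη : ∀ x, g.h x ≠ 0 → |x| ≤ η) {W : ℝ → ℝ} {R K : ℝ} (hW : PF W R)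
    (hK : 0 ≤ K) (hLip : ∀ x y, |W x - W y| ≤ K * |x - y|) {e κ : ℝ} (he : 0 < e) (he1 : e < 1 / 4) (hκ : 0 < κ) {ε : ℝ} (hε : 0 < ε) :
    ∀ᶠ T : ℝ in atTop, ∀ c : ℝ, (1 + κ) * Real.log T ≤ c → c ≤ (3 / 2 - κ) * Real.log T →
    (1 / Real.log T) * (∑ x ∈ RA e T, mf x.1 ^ 2 * ((x.1 : ℝ) / x.2) * (W (Real.log T * lr T x - (c + Real.log (4 * Real.pi))) *
      ((∫ x, g.h x) * (W (Real.log T * lr T x - (c + Real.log (4 * Real.pi))) - 4 * η * K) - ε))) ≤
      2 * Real.pi / Real.log T ^ 2 * SM g (sw W c T) (sw W (c + Real.log (4 * Real.pi)) T) e T / T := by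
  have hpi := Real.pi_pos
  set R' : ℝ := |R| + 1 with hR'
  have hR0 : 0 < R' := by positivity
  have hsupp : ∀ y, W y ≠ 0 → |y| ≤ R' := fun y hy => by
    have := hW.supp y hy
    have := le_abs_self R
    linarith
  obtain ⟨K', hK'0, hK'⟩ := fs_deriv g hW
  obtain ⟨Mh, hMh0, hMh, -⟩ := bdd93 g
  set ε₁ : ℝ := ε * Real.exp (-R') with hε₁
  have hε₁0 : 0 < ε₁ := by positivity
  obtain ⟨c₀, hc₀⟩ := pnt_c1 hR0 hK'0 hε₁0
  have hlim : Tendsto (fun T : ℝ => 32 * Mh * ((Real.log T / 2) ^ 2 * Real.exp (-(Real.log T / 2)))) atTop (𝓝 0) := by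
    have h1 : Tendsto (fun T : ℝ => Real.log T / 2) atTop atTop := Real.tendsto_log_atTop.atTop_div_const (by norm_num)
    have h2 := (Real.tendsto_pow_mul_exp_neg_atTop_nhds_zero 2).comp h1
    simpa using h2.const_mul (32 * Mh)
  filter_upwards [hlim.eventually (gt_mem_nhds hε₁0), eventually_ge_atTop 2,
    Real.tendsto_log_atTop.eventually_ge_atTop (max 1 (max |c₀| (2 * (R' + 1))))] with T hT1 hT2 hL c hc1 hc2
  have hT0 : 0 < T := by linarith
  have hL1 : 1 ≤ Real.log T := (le_max_left _ _).trans hL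
  have hL0 : 0 < Real.log T := by linarith
  have hLc : |c₀| ≤ Real.log T := (le_max_left _ _).trans ((le_max_right _ _).trans hL)
  have hLR : 2 * (R' + 1) ≤ Real.log T := (le_max_right _ _).trans ((le_max_right _ _).trans hL)
  set L := Real.log T with hLdef
  set ℓ := Real.log (4 * Real.pi) with hℓ
  have hcc : c₀ ≤ c := by
    have := le_abs_self c₀
    nlinarith
  set N : ℕ := ⌊T ^ 2⌋₊ with hN
  have hexpN : Real.exp (c + R') ≤ N := by
    have h1 : c + R' ≤ 2 * L - 1 := by nlinarith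
    have h2 : Real.exp (c + R') ≤ Real.exp (2 * L - 1) := Real.exp_le_exp.2 h1
    have h3 : Real.exp (2 * L - 1) = T ^ 2 * Real.exp (-1) := by
      rw [sub_eq_add_neg, Real.exp_add]
      congr 1
      rw [two_mul, Real.exp_add, hLdef, Real.exp_log hT0]
      ring
    have h4 : Real.exp (-1) ≤ 1 / 2 := by
      have := Real.exp_neg_one_lt_d9
      linarith
    have h5 := Nat.lt_floor_add_one (T ^ 2)
    have h6 : (4:ℝ) ≤ T ^ 2 := by nlinarith
    have h7 : T ^ 2 * Real.exp (-1) ≤ T ^ 2 * (1 / 2) := mul_le_mul_of_nonneg_left h4 (by positivity)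
    rw [hN]
    linarith
  have hN1 : 1 ≤ N := by
    rw [hN, Nat.one_le_floor_iff]
    nlinarith
  have hlogN : Real.log N ≤ 2 * L := by
    have h1 : (N : ℝ) ≤ T ^ 2 := Nat.floor_le (by positivity)
    have h2 := Real.log_le_log (by exact_mod_cast hN1) h1
    rw [Real.log_pow] at h2
    exact_mod_cast h2
  -- the inner sums
  have hA : ∀ x ∈ Pool.Agent.Helper69.FF.RA e T, ∑ n ∈ (Finset.Icc 1 N).filter (fun n => Nat.Coprime n x.1),
      ArithmeticFunction.vonMangoldt n * FW g (sw W c T) (sw W (c + ℓ) T) T x n =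
      L * W (L * lr T x - (c + ℓ)) * ∑ n ∈ (Finset.Icc 1 N).filter (fun n => Nat.Coprime n x.1),
        ArithmeticFunction.vonMangoldt n * fs93 g W ((L * lr T x - (c + ℓ)) + ℓ) (Real.log n - c) := by
    intro x hx
    rw [Finset.mul_sum]
    refine Finset.sum_congr rfl fun n hn => ?_
    rw [Pool.Agent.Helper69.FF.RA, Finset.mem_filter, Finset.mem_product, Finset.mem_Icc, Finset.mem_Icc] at hx
    rw [Finset.mem_filter, Finset.mem_Icc] at hn
    have hr0 : (0:ℝ) < x.1 := by exact_mod_cast hx.1.1.1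
    have ha0 : (0:ℝ) < x.2 := by exact_mod_cast hx.1.2.1
    have hn0 : (0:ℝ) < n := by exact_mod_cast hn.1.1
    unfold FW sw fs93
    rw [← hLdef]
    have e1 : L * (Real.log n / L) = Real.log n := by field_simp
    have e2 : 2 * Real.pi * Real.exp (Real.log n - c - (L * lr T x - (c + ℓ) + ℓ)) =
        2 * Real.pi * ((x.2 : ℝ) * n / x.1) / T := by
      have e3 : Real.log n - c - (L * lr T x - (c + ℓ) + ℓ) = Real.log n + Real.log x.2 - Real.log x.1 - Real.log T := by
        unfold lr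
        rw [← hLdef]
        field_simp
        ring
      rw [e3, Real.exp_sub, Real.exp_sub, Real.exp_add, Real.exp_log hn0, Real.exp_log ha0, Real.exp_log hr0, Real.exp_log hT0]
      ring
    rw [e1, e2]
    have e4 : Real.sqrt L * Real.sqrt L = L := Real.mul_self_sqrt hL0.le
    calc _ = (Real.sqrt L * Real.sqrt L) * (ArithmeticFunction.vonMangoldt n * (W (Real.log n - c) * W (L * lr T x - (c + ℓ)) *
          g.h (2 * Real.pi * ((x.2 : ℝ) * n / x.1) / T - 1 / 2))) := by ring
      _ = _ := by rw [e4]; ring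
  have hB : ∀ x ∈ Pool.Agent.Helper69.FF.RA e T, |L * lr T x - (c + ℓ)| ≤ R' →
      ((x.1 : ℝ) / x.2) * ((∫ x, g.h x) * (W (L * lr T x - (c + ℓ)) - 4 * η * K) - ε) ≤
      (2 * Real.pi / T) * ∑ n ∈ (Finset.Icc 1 N).filter (fun n => Nat.Coprime n x.1),
        ArithmeticFunction.vonMangoldt n * fs93 g W ((L * lr T x - (c + ℓ)) + ℓ) (Real.log n - c) := by
    intro x hx hsx
    rw [Pool.Agent.Helper69.FF.RA, Finset.mem_filter, Finset.mem_product, Finset.mem_Icc, Finset.mem_Icc] at hx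
    have hr0 : (0:ℝ) < x.1 := by exact_mod_cast hx.1.1.1
    have ha0 : (0:ℝ) < x.2 := by exact_mod_cast hx.1.2.1
    set s := L * lr T x - (c + ℓ) with hs
    have hra : (x.1 : ℝ) / x.2 = Real.exp c * Real.exp (s + ℓ) / T := by
      rw [← Real.exp_add]
      have e3 : c + (s + ℓ) = Real.log T + Real.log x.1 - Real.log x.2 := by
        rw [hs]
        unfold lr
        rw [← hLdef]
        field_simp
        ring
      rw [e3, Real.exp_sub, Real.exp_add, Real.exp_log ha0, Real.exp_log hr0, Real.exp_log hT0]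
      field_simp
    have hil := int_low g hg0 hη hη1 hgη hW hK hLip s
    rw [← hℓ] at hil
    have hpnt := hc₀ c hcc (fs93 g W (s + ℓ)) (fs_smooth g hW _) (hK' _) (fun u hu => hsupp u (left_ne_zero_of_mul hu)) N hexpN
    have hsplit := Finset.sum_filter_add_sum_filter_not (Finset.Icc 1 N) (fun n => Nat.Coprime n x.1)
      (fun n => ArithmeticFunction.vonMangoldt n * fs93 g W (s + ℓ) (Real.log n - c))
    have hnc : ∑ n ∈ (Finset.Icc 1 N).filter (fun n => ¬ Nat.Coprime n x.1),
        ArithmeticFunction.vonMangoldt n * fs93 g W (s + ℓ) (Real.log n - c) ≤ Mh * (T ^ (1 / 2 : ℝ) * (8 * L ^ 2)) := by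
      calc ∑ n ∈ (Finset.Icc 1 N).filter (fun n => ¬ Nat.Coprime n x.1),
          ArithmeticFunction.vonMangoldt n * fs93 g W (s + ℓ) (Real.log n - c) ≤
          ∑ n ∈ (Finset.Icc 1 N).filter (fun n => ¬ Nat.Coprime n x.1), ArithmeticFunction.vonMangoldt n * Mh := by
            refine Finset.sum_le_sum fun n _ => ?_
            refine mul_le_mul_of_nonneg_left ?_ ArithmeticFunction.vonMangoldt_nonneg
            unfold fs93
            calc W (Real.log n - c) * g.h (2 * Real.pi * Real.exp (Real.log n - c - (s + ℓ)) - 1 / 2) ≤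
                1 * Mh := mul_le_mul (hW.le_one _) ((le_abs_self _).trans (hMh _)) (hg0 _) zero_le_one
              _ = Mh := one_mul _
        _ = Mh * ∑ n ∈ (Finset.Icc 1 N).filter (fun n => ¬ Nat.Coprime n x.1), ArithmeticFunction.vonMangoldt n := by
            rw [← Finset.sum_mul, mul_comm]
        _ ≤ Mh * ((x.1.divisors.card : ℝ) * ((Nat.log 2 N : ℝ) * Real.log N)) := by
            refine mul_le_mul_of_nonneg_left (noncop93 (by omega)) hMh0.le
        _ ≤ Mh * (T ^ (1 / 2 : ℝ) * (8 * L ^ 2)) := by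
            refine mul_le_mul_of_nonneg_left ?_ hMh0.le
            have h1 : (x.1.divisors.card : ℝ) ≤ T ^ (1 / 2 : ℝ) := by
              have h2 : (x.1.divisors.card : ℝ) ≤ x.1 := by exact_mod_cast Nat.card_divisors_le_self x.1
              have h3 : T ^ (1 / 2 - e) ≤ T ^ (1 / 2 : ℝ) := Real.rpow_le_rpow_of_exponent_le (by linarith) (by linarith)
              exact h2.trans (hx.2.2.1.trans h3)
            have h2 := nat_log_le hN1
            have h3 : 0 ≤ Real.log N := Real.log_natCast_nonneg N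
            have h4 : (Nat.log 2 N : ℝ) * Real.log N ≤ 8 * L ^ 2 := by
              calc (Nat.log 2 N : ℝ) * Real.log N ≤ (2 * Real.log N) * Real.log N := mul_le_mul_of_nonneg_right h2 h3
                _ ≤ (2 * (2 * L)) * (2 * L) := by gcongr
                _ = 8 * L ^ 2 := by ring
            have h5 : (0:ℝ) ≤ (Nat.log 2 N : ℝ) * Real.log N := mul_nonneg (Nat.cast_nonneg _) h3
            exact mul_le_mul h1 h4 h5 (by positivity)
    have hnc2 : Real.exp (-c) * (Mh * (T ^ (1 / 2 : ℝ) * (8 * L ^ 2))) ≤ ε₁ := by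
      have h1 : T ^ (1 / 2 : ℝ) = Real.exp (L / 2) := by
        rw [Real.rpow_def_of_pos hT0, ← hLdef]
        congr 1
        ring
      rw [h1]
      have h2 : Real.exp (-c) * Real.exp (L / 2) ≤ Real.exp (-(L / 2)) := by
        rw [← Real.exp_add]
        apply Real.exp_le_exp.2
        nlinarith
      have h3 : 0 ≤ Mh * (8 * L ^ 2) := by positivity
      calc Real.exp (-c) * (Mh * (Real.exp (L / 2) * (8 * L ^ 2))) = (Real.exp (-c) * Real.exp (L / 2)) * (Mh * (8 * L ^ 2)) := by ring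
        _ ≤ Real.exp (-(L / 2)) * (Mh * (8 * L ^ 2)) := mul_le_mul_of_nonneg_right h2 h3
        _ = 32 * Mh * ((L / 2) ^ 2 * Real.exp (-(L / 2))) := by ring
        _ ≤ ε₁ := hT1.le
    have hnc3 : Real.exp (-c) * ∑ n ∈ (Finset.Icc 1 N).filter (fun n => ¬ Nat.Coprime n x.1),
        ArithmeticFunction.vonMangoldt n * fs93 g W (s + ℓ) (Real.log n - c) ≤ ε₁ :=
      (mul_le_mul_of_nonneg_left hnc (Real.exp_pos _).le).trans hnc2
    rw [← hsplit, mul_add] at hpnt
    have hp1 := (abs_le.1 hpnt).1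
    set S' := ∑ n ∈ (Finset.Icc 1 N).filter (fun n => Nat.Coprime n x.1),
        ArithmeticFunction.vonMangoldt n * fs93 g W (s + ℓ) (Real.log n - c) with hS'
    set J := ∫ u, Real.exp u * fs93 g W (s + ℓ) u with hJ
    have hS1 : J - 2 * ε₁ ≤ Real.exp (-c) * S' := by linarith
    set I := (∫ x, g.h x) * (W s - 4 * η * K) with hI
    have hq : 4 * Real.pi * ε₁ ≤ Real.exp (s + ℓ) * ε := by
      have h1 : Real.exp (s + ℓ) = Real.exp s * (4 * Real.pi) := by
        rw [Real.exp_add, hℓ, Real.exp_log (by positivity)]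
      have h2 : Real.exp (-R') ≤ Real.exp s := Real.exp_le_exp.2 (abs_le.1 hsx).1
      rw [h1, hε₁]
      have h3 : 4 * Real.pi * ε * Real.exp (-R') ≤ 4 * Real.pi * ε * Real.exp s := mul_le_mul_of_nonneg_left h2 (by positivity)
      linarith
    have hfin : Real.exp (s + ℓ) * (I - ε) ≤ 2 * Real.pi * (Real.exp (-c) * S') := by
      have h1 : Real.exp (s + ℓ) * I ≤ 2 * Real.pi * J := by
        have h2 := mul_le_mul_of_nonneg_left hil (by positivity : 0 ≤ 2 * Real.pi)
        calc Real.exp (s + ℓ) * I = 2 * Real.pi * (Real.exp (s + ℓ) / (2 * Real.pi) * I) := by field_simp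
          _ ≤ _ := h2
      have h3 := mul_le_mul_of_nonneg_left hS1 (by positivity : 0 ≤ 2 * Real.pi)
      linarith
    rw [hra]
    have h4 := mul_le_mul_of_nonneg_left hfin (by positivity : 0 ≤ Real.exp c / T)
    have h5 : Real.exp c * Real.exp (-c) = 1 := by rw [← Real.exp_add]; simp
    calc Real.exp c * Real.exp (s + ℓ) / T * (I - ε) = Real.exp c / T * (Real.exp (s + ℓ) * (I - ε)) := by ring
      _ ≤ Real.exp c / T * (2 * Real.pi * (Real.exp (-c) * S')) := h4
      _ = (Real.exp c * Real.exp (-c)) * (2 * Real.pi / T * S') := by ring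
      _ = _ := by rw [h5, one_mul]
  -- assembly
  have hRHS : 2 * Real.pi / L ^ 2 * SM g (sw W c T) (sw W (c + ℓ) T) e T / T =
      (1 / L) * ∑ x ∈ Pool.Agent.Helper69.FF.RA e T, mf x.1 ^ 2 * (W (L * lr T x - (c + ℓ)) * ((2 * Real.pi / T) *
        ∑ n ∈ (Finset.Icc 1 N).filter (fun n => Nat.Coprime n x.1),
        ArithmeticFunction.vonMangoldt n * fs93 g W ((L * lr T x - (c + ℓ)) + ℓ) (Real.log n - c))) := by
    have hSM : SM g (sw W c T) (sw W (c + ℓ) T) e T = ∑ x ∈ Pool.Agent.Helper69.FF.RA e T, mf x.1 ^ 2 *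
        (L * W (L * lr T x - (c + ℓ)) * ∑ n ∈ (Finset.Icc 1 N).filter (fun n => Nat.Coprime n x.1),
        ArithmeticFunction.vonMangoldt n * fs93 g W ((L * lr T x - (c + ℓ)) + ℓ) (Real.log n - c)) := by
      unfold SM
      exact Finset.sum_congr rfl (fun x hx => by rw [← hA x hx])
    rw [hSM, Finset.mul_sum, Finset.mul_sum, Finset.sum_div]
    refine Finset.sum_congr rfl fun x _ => ?_
    field_simp
  rw [hRHS]
  refine mul_le_mul_of_nonneg_left (Finset.sum_le_sum fun x hx => ?_) (by positivity)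
  by_cases hz : W (L * lr T x - (c + ℓ)) = 0
  · rw [hz]
    simp
  · have h1 := hB x hx (hsupp _ hz)
    have h2 := mul_le_mul_of_nonneg_left h1 (mul_nonneg (sq_nonneg (mf x.1)) (hW.nonneg (L * lr T x - (c + ℓ))))
    calc _ = mf x.1 ^ 2 * W (L * lr T x - (c + ℓ)) * (((x.1 : ℝ) / x.2) * ((∫ x, g.h x) * (W (L * lr T x - (c + ℓ)) - 4 * η * K) - ε)) := by ring
      _ ≤ _ := h2
      _ = _ := by ring

end Pool.Agent.Helper57.KP
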