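import Pool.Agent.Helper57.KP.B3
import Pool.Agent.Helper57.KP.M1
import Pool.Agent.Helper57.KP.M2
import Pool.Agent.Helper57.KP.E1
import Pool.Agent.Helper57.KP.S1
import Pool.Agent.Helper69.FF.Ineq

/-!
# KP-L1: the lower bound on one piece
-/

open MeasureTheory Set Filter Topology
open Pool.Agent.Helper57.Zeta Pool.Agent.Helper57.PC Pool.Agent.Helper57.LH Pool.Agent.Helper78.SG
open Pool.Agent.Helper4.SH (om)
open Pool.Agent.Helper69.FF
open scoped ContDiff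

set_option autoImplicit false

namespace Pool.Agent.Helper57.KP

private theorem j9_xp (x : ℝ) : Continuous (fun t : ℝ => xp t x) := by
  unfold xp
  fun_prop

private theorem j9_AA (w : ℝ → ℝ) (T : ℝ) : Continuous (fun t : ℝ => AA w T t) := by
  unfold AA
  exact continuous_finsetSum _ fun n _ => continuous_const.mul (j9_xp _)

private theorem j9_DD (v : ℝ → ℝ) (e T : ℝ) : Continuous (fun t : ℝ => DD v e T t) := by
  unfold DD
  exact continuous_finsetSum _ fun x _ => continuous_const.mul (j9_xp _)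

private theorem j9_om (g : TF) (T : ℝ) : Continuous (fun t : ℝ => om g.h T t) := by
  unfold Pool.Agent.Helper4.SH.om
  have := g.smooth.continuous
  fun_prop

private theorem j9_om_cs (g : TF) {T : ℝ} (hT : 0 < T) : HasCompactSupport (fun t : ℝ => om g.h T t) := by
  refine HasCompactSupport.intro (isCompact_Icc (a := T * (1 / 2 - g.th)) (b := T * (1 / 2 + g.th))) fun t ht => ?_
  show om g.h T t = 0
  unfold Pool.Agent.Helper4.SH.om
  refine g.supp _ ?_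
  by_contra h
  rw [not_le, abs_lt] at h
  apply ht
  have h1 : t = T * (t / T) := by field_simp
  constructor
  · rw [h1]; exact mul_le_mul_of_nonneg_left (by linarith [h.1]) hT.le
  · rw [h1]; exact mul_le_mul_of_nonneg_left (by linarith [h.2]) hT.le

private theorem j9_int (g : TF) {T : ℝ} (hT : 0 < T) {F : ℝ → ℝ} (hF : Continuous F) :
    Integrable (fun t : ℝ => om g.h T t * F t) := by
  have hc : Continuous (fun t : ℝ => om g.h T t * F t) := (j9_om g T).mul hF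
  have hs : HasCompactSupport (fun t : ℝ => om g.h T t * F t) := (j9_om_cs g hT).mul_right
  exact hc.integrable_of_hasCompactSupport hs

private theorem j9_intC (g : TF) {T : ℝ} (hT : 0 < T) {F : ℝ → ℂ} (hF : Continuous F) :
    Integrable (fun t : ℝ => ((om g.h T t : ℝ) : ℂ) * F t) := by
  have hc : Continuous (fun t : ℝ => ((om g.h T t : ℝ) : ℂ) * F t) := (Complex.continuous_ofReal.comp (j9_om g T)).mul hF
  have hs : HasCompactSupport (fun t : ℝ => ((om g.h T t : ℝ) : ℂ) * F t) :=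
    HasCompactSupport.mul_right ((j9_om_cs g hT).comp_left (g := fun x : ℝ => (x : ℂ)) (by simp))
  exact hc.integrable_of_hasCompactSupport hs

private theorem j9_ptw (A M D : ℂ) {q : ℝ} (hq : ‖M‖ ≤ q) :
    2 * (A * (starRingEnd ℂ) (M * D)).re - q ^ 2 * ‖D‖ ^ 2 ≤ ‖A‖ ^ 2 := by
  have h1 : ‖A - M * D‖ ^ 2 = ‖A‖ ^ 2 - 2 * (A * (starRingEnd ℂ) (M * D)).re + ‖M * D‖ ^ 2 := by
    generalize M * D = B
    simp only [← Complex.normSq_eq_norm_sq, Complex.normSq_apply, Complex.sub_re, Complex.sub_im,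
      Complex.mul_re, Complex.conj_re, Complex.conj_im]
    ring
  have h0 : 0 ≤ ‖A - M * D‖ ^ 2 := by positivity
  have h2 : ‖M * D‖ ^ 2 ≤ q ^ 2 * ‖D‖ ^ 2 := by
    rw [norm_mul, mul_pow]
    exact mul_le_mul_of_nonneg_right (pow_le_pow_left₀ (norm_nonneg _) hq 2) (by positivity)
  linarith

/-- the inequality before the evaluation of the terms -/
private theorem j9_ineq (g : TF) (hg0 : ∀ x, 0 ≤ g.h x) {k : ℝ → ℝ} {c0 C : ℝ} (hk : KW g k c0)
    (hm : ∀ T t : ℝ, 1 ≤ T → om g.h T t ≠ 0 → ‖mm k T t‖ ≤ 1 + C / Real.sqrt T) (w v : ℝ → ℝ) (e : ℝ) {T : ℝ} (hT : 1 ≤ T) :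
    2 * (∫ t, ((om g.h T t : ℝ) : ℂ) * (AA w T t * (starRingEnd ℂ) (mm k T t * DD v e T t))).re -
      (1 + C / Real.sqrt T) ^ 2 * (∫ t, om g.h T t * ‖DD v e T t‖ ^ 2) ≤ ∫ t, om g.h T t * ‖AA w T t‖ ^ 2 := by
  have hT0 : 0 < T := by linarith
  have cA := j9_AA w T
  have cM : Continuous (fun t => mm k T t * DD v e T t) := (mm_cont g hk T).mul (j9_DD v e T)
  have cD := j9_DD v e T
  have cP : Continuous (fun t => AA w T t * (starRingEnd ℂ) (mm k T t * DD v e T t)) := cA.mul (Complex.continuous_conj.comp cM)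
  have j0 := j9_intC g hT0 cP
  have j2 := j9_int g hT0 (F := fun t => (AA w T t * (starRingEnd ℂ) (mm k T t * DD v e T t)).re) (Complex.continuous_re.comp cP)
  have j5 := j9_int g hT0 (F := fun t => ‖DD v e T t‖ ^ 2) (cD.norm.pow 2)
  have j6 := j9_int g hT0 (F := fun t => ‖AA w T t‖ ^ 2) (cA.norm.pow 2)
  have e1 : (∫ t, ((om g.h T t : ℝ) : ℂ) * (AA w T t * (starRingEnd ℂ) (mm k T t * DD v e T t))).re =
      ∫ t, om g.h T t * (AA w T t * (starRingEnd ℂ) (mm k T t * DD v e T t)).re := by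
    have h := integral_re j0
    rw [← RCLike.re_eq_complex_re, ← h]
    refine integral_congr_ae (Eventually.of_forall fun t => ?_)
    simp only [RCLike.re_eq_complex_re]
    rw [Complex.re_ofReal_mul]
  rw [e1, ← integral_const_mul, ← integral_const_mul, ← integral_sub (j2.const_mul 2) (j5.const_mul _)]
  refine integral_mono ((j2.const_mul 2).sub (j5.const_mul _)) j6 ?_
  intro t
  show 2 * (om g.h T t * (AA w T t * (starRingEnd ℂ) (mm k T t * DD v e T t)).re) -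
      (1 + C / Real.sqrt T) ^ 2 * (om g.h T t * ‖DD v e T t‖ ^ 2) ≤ om g.h T t * ‖AA w T t‖ ^ 2
  by_cases h0 : om g.h T t = 0
  · rw [h0]; simp
  · have hq := hm T t hT h0
    have h2 := j9_ptw (AA w T t) (mm k T t) (DD v e T t) hq
    have h3 : 0 ≤ om g.h T t := hg0 _
    have h4 := mul_le_mul_of_nonneg_left h2 h3
    linarith

private theorem j9_sw {W : ℝ → ℝ} {R : ℝ} (hW : PF W R) {T : ℝ} (c x : ℝ) : |sw W c T x| ≤ Real.sqrt (Real.log T) := by
  unfold sw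
  rw [abs_mul, abs_of_nonneg (Real.sqrt_nonneg _), abs_of_nonneg (hW.nonneg _)]
  have := hW.le_one (Real.log T * x - c)
  have h2 := Real.sqrt_nonneg (Real.log T)
  nlinarith

private theorem j9_fin {G Q1 Q2 M M' I1 I2 θ R η K ε₁ ε₂ τ q2 X Z ρ : ℝ} (hG : 0 < G) (hR : 0 < R) (hη : 0 ≤ η) (hK : 0 ≤ K)
    (hηθ : 16 * η * K * R ≤ θ) (hθ : 0 < θ) (h2a : M' * I2 - ε₂ ≤ Q2) (h2b : Q2 ≤ M' * I2 + ε₂) (h1b : Q1 ≤ M' * I1 + ε₂)
    (hI1 : I1 ≤ 2 * R) (hI1' : 0 ≤ I1) (hI2 : I2 ≤ 2 * R) (hI2' : 0 ≤ I2) (hM : M' ≤ 1 / 2) (hM0 : 0 ≤ M') (hMM : M ≤ M' + ρ) (hρ : ρ * (2 * R) ≤ θ / 16)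
    (hρ0 : 0 ≤ ρ) (hQ2 : 0 ≤ Q2) (hε₂ : 0 ≤ ε₂) (hε₂1 : ε₂ ≤ θ / 32) (hε₂2 : ε₂ ≤ R / 8) (hε₁ : 0 ≤ ε₁) (hε₁1 : ε₁ * (64 * R) ≤ G * θ) (hτ : q2 ≤ 1 + τ)
    (hτ1 : τ * (32 * R) ≤ θ) (hτ0 : 0 ≤ τ) (hX : X ≤ G * θ / 16)
    (hY : 2 * (G * Q2 - (4 * η * K * G + ε₁) * Q1) - q2 * (G * Q2) - X ≤ Z) : G * (M * I2 - θ) ≤ Z := by
  have hRe : R + ε₂ ≤ 2 * R := by linarith
  have hQ2b : Q2 ≤ 2 * R := by nlinarith
  have hQ1b : Q1 ≤ R + ε₂ := by nlinarith
  have a1 : 8 * η * K * Q1 ≤ θ / 2 + θ / 16 := by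
    have h8 : 0 ≤ 8 * η * K := by positivity
    have b1 : 8 * η * K * Q1 ≤ 8 * η * K * (R + ε₂) := mul_le_mul_of_nonneg_left hQ1b h8
    have b2 : 8 * η * K * ε₂ ≤ 8 * η * K * (R / 8) := mul_le_mul_of_nonneg_left hε₂2 h8
    have b3 : 8 * η * K * R ≤ θ / 2 := by linarith
    have b4 : 8 * η * K * (R / 8) = (8 * η * K * R) / 8 := by ring
    rw [b4] at b2
    have b5 : 8 * η * K * (R + ε₂) = 8 * η * K * R + 8 * η * K * ε₂ := by ring
    linarith
  have a2 : 2 * ε₁ * Q1 ≤ G * θ / 16 := by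
    have b1 : 2 * ε₁ * Q1 ≤ 2 * ε₁ * (2 * R) := mul_le_mul_of_nonneg_left (by linarith) (by positivity)
    nlinarith
  have a3 : τ * Q2 ≤ θ / 16 := by
    have b1 : τ * Q2 ≤ τ * (2 * R) := mul_le_mul_of_nonneg_left hQ2b hτ0
    linarith
  have a4 : M * I2 ≤ Q2 + ε₂ + θ / 16 := by
    have b1 : M * I2 ≤ (M' + ρ) * I2 := mul_le_mul_of_nonneg_right hMM hI2'
    have b2 : ρ * I2 ≤ ρ * (2 * R) := mul_le_mul_of_nonneg_left hI2 hρ0
    nlinarith
  have a5 : q2 * (G * Q2) ≤ (1 + τ) * (G * Q2) := mul_le_mul_of_nonneg_right hτ (by positivity)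
  have a6 : G * (M * I2) ≤ G * (Q2 + ε₂ + θ / 16) := mul_le_mul_of_nonneg_left a4 hG.le
  have a7 : G * (8 * η * K * Q1) ≤ G * (θ / 2 + θ / 16) := mul_le_mul_of_nonneg_left a1 hG.le
  have a8 : G * (τ * Q2) ≤ G * (θ / 16) := mul_le_mul_of_nonneg_left a3 hG.le
  have a9 : G * ε₂ ≤ G * (θ / 32) := mul_le_mul_of_nonneg_left hε₂1 hG.le
  have a10 : 0 < G * θ := by positivity
  have e1 : G * (M * I2 - θ) = G * (M * I2) - G * θ := by ring
  have e2 : 2 * (G * Q2 - (4 * η * K * G + ε₁) * Q1) = 2 * (G * Q2) - G * (8 * η * K * Q1) - 2 * ε₁ * Q1 := by ring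
  have e3 : (1 + τ) * (G * Q2) = G * Q2 + G * (τ * Q2) := by ring
  have e4 : G * (Q2 + ε₂ + θ / 16) = G * Q2 + G * ε₂ + G * θ / 16 := by ring
  have e5 : G * (θ / 2 + θ / 16) = G * θ * (9 / 16) := by ring
  have e6 : G * (θ / 16) = G * θ / 16 := by ring
  have e7 : G * (θ / 32) = G * θ / 32 := by ring
  linarith

theorem piece_low (g : TF) (hg0 : ∀ x, 0 ≤ g.h x) (hgI : 0 < ∫ x, g.h x) {η : ℝ} (hη : 0 < η) (hη1 : η ≤ 1 / 8) (hgη : ∀ x, g.h x ≠ 0 → |x| ≤ η)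
    {W : ℝ → ℝ} {R K θ : ℝ} (hW : PF W R) (hR : 0 < R) (hK : 0 ≤ K) (hLip : ∀ x y, |W x - W y| ≤ K * |x - y|) (hθ : 0 < θ) (hηθ : 16 * η * K * R ≤ θ)
    {e κ : ℝ} (he : 0 < e) (he1 : e < 1 / 4) (hκ : 0 < κ) :
    ∀ᶠ T : ℝ in atTop, ∀ c : ℝ, (1 + κ) * Real.log T ≤ c → c ≤ (3 / 2 - κ) * Real.log T →
    (∫ x, g.h x) * (max (3 / 2 - c / Real.log T - 2 * e) 0 * (∫ y, W y ^ 2) - θ) ≤ (∫ t, om g.h T t * ‖AA (sw W c T) T t‖ ^ 2) / T := by
  obtain ⟨k, c0, hk⟩ := KW_exists g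
  obtain ⟨C, hC, hm⟩ := mm_le g hk
  obtain ⟨C1, hC1, h1⟩ := AmD_b g hk he he1
  obtain ⟨C2, hC2, h2⟩ := DD_sq_b g he he1
  set G := ∫ x, g.h x with hGdef
  set ℓ : ℝ := Real.log (4 * Real.pi) with hℓdef
  have hℓ : 0 < ℓ := Real.log_pos (by have := Real.pi_gt_three; linarith)
  -- constants
  set ε₂ : ℝ := min (θ / 32) (R / 8) with hε₂def
  have hε₂ : 0 < ε₂ := by positivity
  set ε₁ : ℝ := G * θ / (64 * R) with hε₁def
  have hε₁ : 0 < ε₁ := by positivity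
  set τ : ℝ := min (θ / (32 * R)) 1 with hτdef
  have hτ : 0 < τ := by positivity
  have hK2 : ContDiff ℝ ∞ (fun y => W y ^ 2) := hW.smooth.pow 2
  have hS2 : ∀ y, (fun y => W y ^ 2) y ≠ 0 → |y| ≤ R := fun y hy => hW.supp y fun h => hy (by simp [h])
  have hI1b : ∫ y, W y ≤ 2 * R ∧ ∫ y, W y ^ 2 ≤ 2 * R := by
    have hz : ∀ y, y ∉ Icc (-R) R → W y = 0 := fun y hy => by
      by_contra h
      exact hy (abs_le.mp (hW.supp y h))
    have hone : ∫ y in Icc (-R) R, (1:ℝ) = 2 * R := by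
      rw [setIntegral_const, measureReal_def, Real.volume_Icc, ENNReal.toReal_ofReal (by linarith), smul_eq_mul]
      ring
    constructor
    · rw [← setIntegral_eq_integral_of_forall_compl_eq_zero (s := Icc (-R) R) (fun y hy => hz y hy), ← hone]
      refine setIntegral_mono_on (hW.smooth.continuous.integrableOn_Icc) (integrableOn_const (by simp)) measurableSet_Icc fun y _ => hW.le_one y
    · rw [← setIntegral_eq_integral_of_forall_compl_eq_zero (s := Icc (-R) R) (fun y hy => by rw [hz y hy]; norm_num), ← hone]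
      refine setIntegral_mono_on ((hW.smooth.continuous.pow 2).integrableOn_Icc) (integrableOn_const (by simp)) measurableSet_Icc fun y _ => ?_
      have := hW.le_one y
      have := hW.nonneg y
      nlinarith
  have ev1 : ∀ᶠ T : ℝ in atTop, (1 + C / Real.sqrt T) ^ 2 ≤ 1 + τ := by
    have h1 : Tendsto (fun T : ℝ => C / Real.sqrt T) atTop (𝓝 0) := tendsto_const_nhds.div_atTop Real.tendsto_sqrt_atTop
    have h2 := (h1.const_add 1).pow 2
    have h3 : Tendsto (fun T : ℝ => (1 + C / Real.sqrt T) ^ 2) atTop (𝓝 1) := by simpa using h2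
    exact h3.eventually (eventually_le_nhds (by linarith))
  have ev2 : ∀ᶠ T : ℝ in atTop, ℓ / Real.log T * (2 * R) ≤ θ / 16 := by
    have h1 : Tendsto (fun T : ℝ => ℓ / Real.log T * (2 * R)) atTop (𝓝 0) := by
      have := (tendsto_const_nhds.div_atTop Real.tendsto_log_atTop : Tendsto (fun T : ℝ => ℓ / Real.log T) atTop (𝓝 0)).mul_const (2 * R)
      simpa using this
    exact h1.eventually (eventually_le_nhds (by positivity))
  have ev3 : ∀ᶠ T : ℝ in atTop, 2 * (2 * Real.pi / Real.log T ^ 2) + 2 * (C1 * (Real.log T * T ^ (-(1 / 4) : ℝ))) + 2 * (C2 * (Real.log T * T ^ (-(1:ℝ)))) ≤ G * θ / 16 := by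
    have l1 : Tendsto (fun T : ℝ => 2 * Real.pi / Real.log T ^ 2) atTop (𝓝 0) :=
      tendsto_const_nhds.div_atTop ((tendsto_pow_atTop (by norm_num)).comp Real.tendsto_log_atTop)
    have lp : ∀ s : ℝ, 0 < s → Tendsto (fun T : ℝ => Real.log T * T ^ (-s)) atTop (𝓝 0) := by
      intro s hs
      have h := (isLittleO_log_rpow_atTop hs).tendsto_div_nhds_zero
      refine h.congr' ?_
      filter_upwards [eventually_gt_atTop 0] with T hT
      rw [Real.rpow_neg hT.le, div_eq_mul_inv]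
    have l2 := lp (1 / 4) (by norm_num)
    have l3 := lp 1 (by norm_num)
    have l4 := ((l1.const_mul 2).add ((l2.const_mul C1).const_mul 2)).add ((l3.const_mul C2).const_mul 2)
    simp only [mul_zero, add_zero] at l4
    exact l4.eventually (eventually_le_nhds (by positivity))
  have ev4 : ∀ᶠ T : ℝ in atTop, 2 * ℓ / κ ≤ Real.log T := Real.tendsto_log_atTop.eventually_ge_atTop _
  filter_upwards [ev1, ev2, ev3, ev4, eventually_ge_atTop (Real.exp 1), key_s g hW he he1 hκ ℓ (ε := 1) zero_lt_one,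
    dsum_s hK2 hS2 he he1 (κ := κ / 2) (by positivity) hε₂, dsum_s hW.smooth hW.supp he he1 (κ := κ / 2) (by positivity) hε₂,
    SM_low g hg0 hη hη1 hgη hW hK hLip he he1 hκ hε₁] with T e1 e2 e3 e4 hTe hkey hd2 hd1 hSM c hc1 hc2
  have hL1 : 1 ≤ Real.log T := by
    have := Real.log_le_log (Real.exp_pos 1) hTe
    rwa [Real.log_exp] at this
  have hL : 0 < Real.log T := by linarith
  have hT1 : 1 ≤ T := le_trans (by have := Real.add_one_le_exp (1:ℝ); linarith) hTe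
  have hT0 : 0 < T := by linarith
  have hℓL : ℓ ≤ κ / 2 * Real.log T := by
    rw [div_le_iff₀ hκ] at e4
    linarith
  have hc1' : (1 + κ / 2) * Real.log T ≤ c + ℓ := by nlinarith
  have hc2' : c + ℓ ≤ (3 / 2 - κ / 2) * Real.log T := by nlinarith
  have hd2' := abs_le.mp (hd2 (c + ℓ) hc1' hc2')
  have hd1' := abs_le.mp (hd1 (c + ℓ) hc1' hc2')
  have hk1 := hkey c hc1 hc2
  have hsm := hSM c hc1 hc2
  simp only [← hℓdef] at hsm
  have hA := h1 T hTe (sw W c T) (sw W (c + ℓ) T) _ _ (j9_sw hW c) (j9_sw hW (c + ℓ))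
  have hD := h2 T hTe (sw W (c + ℓ) T) _ (j9_sw hW (c + ℓ))
  have hI := j9_ineq g hg0 hk hm (sw W c T) (sw W (c + ℓ) T) e hT1
  set Q2 : ℝ := (1 / Real.log T) * ∑ x ∈ RA e T, mf x.1 ^ 2 * ((x.1 : ℝ) / x.2) * W (Real.log T * lr T x - (c + ℓ)) ^ 2 with hQ2
  set Q1 : ℝ := (1 / Real.log T) * ∑ x ∈ RA e T, mf x.1 ^ 2 * ((x.1 : ℝ) / x.2) * W (Real.log T * lr T x - (c + ℓ)) with hQ1
  have hQ20 : 0 ≤ Q2 := by
    refine mul_nonneg (by positivity) (Finset.sum_nonneg fun x _ => by positivity)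
  -- the mean square of D
  have hDs : (1 / Real.log T ^ 2) * ∑ x ∈ RA e T, mf x.1 ^ 2 * ((x.1 : ℝ) / x.2) * sw W (c + ℓ) T (lr T x) ^ 2 = Q2 := by
    rw [hQ2, Finset.mul_sum, Finset.mul_sum]
    refine Finset.sum_congr rfl fun x _ => ?_
    unfold sw
    rw [mul_pow, Real.sq_sqrt hL.le]
    field_simp
  rw [hDs, Real.sq_sqrt hL.le] at hD
  have hD2 := (abs_le.mp hD).2
  -- the main term
  have hMs : (1 / Real.log T) * (∑ x ∈ RA e T, mf x.1 ^ 2 * ((x.1 : ℝ) / x.2) * (W (Real.log T * lr T x - (c + ℓ)) *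
      (G * (W (Real.log T * lr T x - (c + ℓ)) - 4 * η * K) - ε₁))) = G * Q2 - (4 * η * K * G + ε₁) * Q1 := by
    rw [hQ1, hQ2]
    simp only [Finset.mul_sum, ← Finset.sum_sub_distrib]
    refine Finset.sum_congr rfl fun x _ => ?_
    ring
  rw [hMs] at hsm
  -- combine
  set S := SS g (sw W c T) (sw W (c + ℓ) T) e T with hS
  set P := SM g (sw W c T) (sw W (c + ℓ) T) e T with hP
  set J : ℂ := ∫ t, ((om g.h T t : ℝ) : ℂ) * (AA (sw W c T) T t * (starRingEnd ℂ) (mm k T t * DD (sw W (c + ℓ) T) e T t)) with hJ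
  have f1 : P - T ≤ S.re := by
    have a1 := (Complex.abs_re_le_norm _).trans hk1
    rw [Complex.sub_re, Complex.ofReal_re, one_mul] at a1
    linarith [(abs_le.mp a1).1]
  have f2 : (2 * Real.pi / Real.log T ^ 2) * S.re - C1 * Real.log T * T ^ ((3:ℝ) / 4) ≤ J.re := by
    have a1 := (Complex.abs_re_le_norm _).trans hA
    rw [Complex.sub_re, Complex.re_ofReal_mul] at a1
    have a2 : C1 * Real.sqrt (Real.log T) * Real.sqrt (Real.log T) = C1 * Real.log T := by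
      rw [mul_assoc, Real.mul_self_sqrt hL.le]
    rw [a2] at a1
    linarith [(abs_le.mp a1).1]
  set p : ℝ := 2 * Real.pi / Real.log T ^ 2 with hp
  have hp0 : 0 < p := by positivity
  have f3 : p * P / T - p - C1 * (Real.log T * T ^ (-(1 / 4) : ℝ)) ≤ J.re / T := by
    rw [le_div_iff₀ hT0]
    have a1 : p * (P - T) ≤ p * S.re := mul_le_mul_of_nonneg_left f1 hp0.le
    have a2 : T ^ (-(1 / 4) : ℝ) * T = T ^ ((3:ℝ) / 4) := by
      rw [← Real.rpow_add_one hT0.ne']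
      norm_num
    have a3 : (p * P / T - p - C1 * (Real.log T * T ^ (-(1 / 4) : ℝ))) * T = p * P - p * T - C1 * Real.log T * (T ^ (-(1 / 4) : ℝ) * T) := by
      field_simp
    rw [a3, a2]
    linarith
  have hq1 : (1 + C / Real.sqrt T) ^ 2 ≤ 2 := by
    have : τ ≤ 1 := min_le_right _ _
    linarith
  have hq0 : 0 ≤ (1 + C / Real.sqrt T) ^ 2 := sq_nonneg _
  have f4 : 2 * (J.re / T) - (1 + C / Real.sqrt T) ^ 2 * ((∫ t, om g.h T t * ‖DD (sw W (c + ℓ) T) e T t‖ ^ 2) / T) ≤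
      (∫ t, om g.h T t * ‖AA (sw W c T) T t‖ ^ 2) / T := by
    rw [le_div_iff₀ hT0]
    have a3 : (2 * (J.re / T) - (1 + C / Real.sqrt T) ^ 2 * ((∫ t, om g.h T t * ‖DD (sw W (c + ℓ) T) e T t‖ ^ 2) / T)) * T =
        2 * J.re - (1 + C / Real.sqrt T) ^ 2 * (∫ t, om g.h T t * ‖DD (sw W (c + ℓ) T) e T t‖ ^ 2) := by
      field_simp
    rw [a3]
    exact hI
  have f5 : (1 + C / Real.sqrt T) ^ 2 * ((∫ t, om g.h T t * ‖DD (sw W (c + ℓ) T) e T t‖ ^ 2) / T) ≤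
      (1 + C / Real.sqrt T) ^ 2 * (G * Q2) + 2 * (C2 * (Real.log T * T ^ (-(1:ℝ)))) := by
    have a1 : (∫ t, om g.h T t * ‖DD (sw W (c + ℓ) T) e T t‖ ^ 2) / T ≤ G * Q2 + C2 * (Real.log T * T ^ (-(1:ℝ))) := by linarith
    have a2 := mul_le_mul_of_nonneg_left a1 hq0
    have a4 : 0 ≤ C2 * (Real.log T * T ^ (-(1:ℝ))) := by positivity
    have a5 := mul_le_mul_of_nonneg_right hq1 a4
    linarith
  have hM'0 : (0:ℝ) ≤ max (3 / 2 - (c + ℓ) / Real.log T - 2 * e) 0 := le_max_right _ _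
  have hcL : 1 + κ ≤ c / Real.log T := by rwa [le_div_iff₀ hL]
  have hcl : (c + ℓ) / Real.log T = c / Real.log T + ℓ / Real.log T := add_div _ _ _
  have hlL : 0 ≤ ℓ / Real.log T := by positivity
  refine j9_fin (G := G) (Q1 := Q1) (Q2 := Q2) (M' := max (3 / 2 - (c + ℓ) / Real.log T - 2 * e) 0) (I1 := ∫ y, W y) (R := R) (η := η) (K := K)
    (ε₁ := ε₁) (ε₂ := ε₂) (τ := τ) (q2 := (1 + C / Real.sqrt T) ^ 2)
    (X := 2 * (2 * Real.pi / Real.log T ^ 2) + 2 * (C1 * (Real.log T * T ^ (-(1 / 4) : ℝ))) + 2 * (C2 * (Real.log T * T ^ (-(1:ℝ)))))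
    (ρ := ℓ / Real.log T) hgI hR hη.le hK hηθ hθ ?_ ?_ ?_ hI1b.1 (integral_nonneg hW.nonneg) hI1b.2 (integral_nonneg fun y => sq_nonneg _)
    ?_ hM'0 ?_ e2 hlL hQ20 hε₂.le (min_le_left _ _) (min_le_right _ _) hε₁.le ?_ e1 ?_ hτ.le e3 ?_
  · linarith [hd2'.1]
  · linarith [hd2'.2]
  · linarith [hd1'.2]
  · refine max_le ?_ (by norm_num)
    rw [hcl]
    linarith
  · refine max_le ?_ (by linarith)
    have := le_max_left (3 / 2 - (c + ℓ) / Real.log T - 2 * e) 0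
    rw [hcl] at this ⊢
    linarith
  · rw [hε₁def]
    field_simp
    exact le_refl _
  · have : τ ≤ θ / (32 * R) := min_le_left _ _
    calc τ * (32 * R) ≤ θ / (32 * R) * (32 * R) := by gcongr
      _ = θ := by field_simp
  · linarith

end Pool.Agent.Helper57.KP
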