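import Pool.Agent.Helper57.KP.L1

/-!
# KP-L2: the mean square of the prime sum
-/

open MeasureTheory Set Filter Topology
open Pool.Agent.Helper57.Zeta Pool.Agent.Helper57.PC Pool.Agent.Helper57.LH Pool.Agent.Helper78.SG
open Pool.Agent.Helper4.SH (om)
open Pool.Agent.Helper69.FF
open scoped ContDiff

set_option autoImplicit false

namespace Pool.Agent.Helper57.KP

private theorem l2_bump {η w : ℝ} (hη : 0 < η) (hη1 : η ≤ 1 / 8) (hw : 0 < w) (hw1 : w < 1) :
    ∃ g : TF, (∀ x, 0 ≤ g.h x) ∧ (∀ x, g.h x ≤ 1) ∧ 2 * η * (1 - w) ≤ ∫ x, g.h x ∧ g.th = η := by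
  let f : ContDiffBump (0 : ℝ) :=
    { rIn := η * (1 - w)
      rOut := η
      rIn_pos := mul_pos hη (by linarith)
      rIn_lt_rOut := by nlinarith }
  let g : TF :=
    { h := fun x => f x
      th := η
      smooth := f.contDiff
      even := fun x => f.neg x
      th0 := hη
      th1 := by linarith
      supp := fun x hx => f.zero_of_le_dist (by
        rw [Real.dist_eq, sub_zero]
        exact hx) }
  refine ⟨g, fun x => f.nonneg, fun x => f.le_one, ?_, rfl⟩
  have h1 := f.measure_closedBall_le_integral volume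
  have h2 : volume.real (Metric.closedBall (0 : ℝ) f.rIn) = 2 * η * (1 - w) := by
    rw [Measure.real, Real.volume_closedBall, ENNReal.toReal_ofReal]
    · show 2 * (η * (1 - w)) = 2 * η * (1 - w)
      ring
    · show 0 ≤ 2 * (η * (1 - w))
      have : 0 < 1 - w := by linarith
      positivity
  rw [h2] at h1
  exact h1

private theorem l2_AA {W : ℝ → ℝ} {R : ℝ} (hW : PF W R) {c T : ℝ} (hL : 0 < Real.log T) (hc : Real.exp (c + R) ≤ T ^ 2) (t : ℝ) :
    ((Real.sqrt (Real.log T) : ℝ) : ℂ) * AA (sw W c T) T t = ∑ n ∈ Finset.Icc 1 ⌊Real.exp (c + R)⌋₊,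
      ((ArithmeticFunction.vonMangoldt n / Real.sqrt n * W (Real.log n - c) : ℝ) : ℂ) * xp t n := by
  have h1 : ((Real.sqrt (Real.log T) : ℝ) : ℂ) * AA (sw W c T) T t = ∑ n ∈ Finset.Icc 1 ⌊T ^ 2⌋₊,
      ((ArithmeticFunction.vonMangoldt n / Real.sqrt n * W (Real.log n - c) : ℝ) : ℂ) * xp t n := by
    unfold AA
    rw [Finset.mul_sum]
    refine Finset.sum_congr rfl fun n _ => ?_
    rw [← mul_assoc, ← Complex.ofReal_mul]
    congr 2
    unfold sw
    have e1 : Real.log T * (Real.log n / Real.log T) - c = Real.log n - c := by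
      field_simp
    rw [e1]
    have e2 : Real.sqrt (Real.log T) * Real.sqrt (Real.log T) = Real.log T := Real.mul_self_sqrt hL.le
    calc Real.sqrt (Real.log T) * (ArithmeticFunction.vonMangoldt n / Real.sqrt n * (Real.sqrt (Real.log T) * W (Real.log n - c)) / Real.log T)
        = ArithmeticFunction.vonMangoldt n / Real.sqrt n * W (Real.log n - c) * ((Real.sqrt (Real.log T) * Real.sqrt (Real.log T)) / Real.log T) := by ring
      _ = ArithmeticFunction.vonMangoldt n / Real.sqrt n * W (Real.log n - c) := by rw [e2, div_self hL.ne', mul_one]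
  rw [h1]
  symm
  refine Finset.sum_subset (Finset.Icc_subset_Icc_right (Nat.floor_le_floor hc)) ?_
  intro n hn hn'
  have h2 : ⌊Real.exp (c + R)⌋₊ < n := by
    rw [Finset.mem_Icc] at hn hn'
    by_contra h
    exact hn' ⟨hn.1, by omega⟩
  have h3 : Real.exp (c + R) < n := (Nat.floor_lt (Real.exp_pos _).le).mp h2
  have h4 : c + R < Real.log n := by
    rw [Real.lt_log_iff_exp_lt (by exact lt_trans (Real.exp_pos _) h3)]
    exact h3
  have h5 : W (Real.log n - c) = 0 := by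
    by_contra h
    have := (abs_le.mp (hW.supp _ h)).2
    linarith
  rw [h5]
  simp

private theorem l2_sq {W : ℝ → ℝ} {R : ℝ} (hW : PF W R) {c T T' : ℝ} (hL : 0 < Real.log T) (hL' : 0 < Real.log T')
    (hc : Real.exp (c + R) ≤ T ^ 2) (hc' : Real.exp (c + R) ≤ T' ^ 2) (t : ℝ) :
    Real.log T * ‖AA (sw W c T) T t‖ ^ 2 = Real.log T' * ‖AA (sw W c T') T' t‖ ^ 2 := by
  have h := (l2_AA hW hL hc t).trans (l2_AA hW hL' hc' t).symm
  have h1 := congrArg (fun z : ℂ => ‖z‖ ^ 2) h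
  simp only [norm_mul, Complex.norm_real, mul_pow, Real.norm_eq_abs, sq_abs] at h1
  rwa [Real.sq_sqrt hL.le, Real.sq_sqrt hL'.le] at h1

private theorem l2_cont (w : ℝ → ℝ) (T : ℝ) : Continuous (fun t : ℝ => AA w T t) := by
  unfold AA
  refine continuous_finsetSum _ fun n _ => continuous_const.mul ?_
  unfold xp
  fun_prop

private theorem l2_om (g : TF) {T t : ℝ} (hT : 0 < T) (h : om g.h T t ≠ 0) :
    T * (1 / 2 - g.th) < t ∧ t < T * (1 / 2 + g.th) := by
  unfold Pool.Agent.Helper4.SH.om at h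
  have h1 : |t / T - 1 / 2| < g.th := by
    by_contra h2
    rw [not_lt] at h2
    exact h (g.supp _ h2)
  rw [abs_lt] at h1
  have h3 : t = T * (t / T) := by field_simp
  constructor
  · rw [h3]
    exact mul_lt_mul_of_pos_left (by linarith [h1.1]) hT
  · rw [h3]
    exact mul_lt_mul_of_pos_left (by linarith [h1.2]) hT

/-- the tiling -/
private theorem l2_tile (g : TF) (hg0 : ∀ x, 0 ≤ g.h x) (hg1 : ∀ x, g.h x ≤ 1) {q δ T : ℝ} (hT : 0 < T) (hq0 : 0 < q) (hq1 : q ≤ 1)
    (hq : q * (1 / 2 + g.th) = 1 / 2 - g.th) (hδ1 : δ < 1) (J : ℕ) (hJ : δ ≤ (1 - δ) * q ^ J) {F : ℝ → ℝ} (hF : Continuous F) (hF0 : ∀ t, 0 ≤ F t) :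
    ∑ j ∈ Finset.range J, ∫ t, om g.h ((1 - δ) / (1 / 2 + g.th) * q ^ j * T) t * F t ≤ ∫ t in (δ * T)..((1 - δ) * T), F t := by
  have hth := g.th0
  have hth1 := g.th1
  have hA : (0:ℝ) < 1 / 2 + g.th := by linarith
  have hB : (0:ℝ) < 1 / 2 - g.th := by linarith
  have hD : (0:ℝ) < 1 - δ := by linarith
  have hTj : ∀ j : ℕ, 0 < (1 - δ) / (1 / 2 + g.th) * q ^ j * T := fun j => by positivity
  have hle : δ * T ≤ (1 - δ) * T := by
    refine mul_le_mul_of_nonneg_right (hJ.trans ?_) hT.le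
    exact mul_le_of_le_one_right hD.le (pow_le_one₀ hq0.le hq1)
  -- upper and lower end points
  have hup : ∀ j : ℕ, (1 - δ) / (1 / 2 + g.th) * q ^ j * T * (1 / 2 + g.th) = (1 - δ) * q ^ j * T := fun j => by
    field_simp
  have hlo : ∀ j : ℕ, (1 - δ) / (1 / 2 + g.th) * q ^ j * T * (1 / 2 - g.th) = (1 - δ) * q ^ (j + 1) * T := fun j => by
    rw [← hq, pow_succ]
    field_simp
  have hcont : ∀ T' : ℝ, Continuous (fun t : ℝ => om g.h T' t) := fun T' => by
    unfold Pool.Agent.Helper4.SH.om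
    have := g.smooth.continuous
    fun_prop
  have hint : ∀ j : ℕ, Integrable (fun t => om g.h ((1 - δ) / (1 / 2 + g.th) * q ^ j * T) t * F t) := by
    intro j
    refine Continuous.integrable_of_hasCompactSupport ((hcont _).mul hF) ?_
    refine HasCompactSupport.intro (isCompact_Icc (a := (1 - δ) / (1 / 2 + g.th) * q ^ j * T * (1 / 2 - g.th)) (b := (1 - δ) / (1 / 2 + g.th) * q ^ j * T * (1 / 2 + g.th))) ?_
    intro t ht
    show om g.h _ t * F t = 0
    have : om g.h ((1 - δ) / (1 / 2 + g.th) * q ^ j * T) t = 0 := by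
      by_contra h
      have := l2_om g (hTj j) h
      exact ht ⟨this.1.le, this.2.le⟩
    rw [this, zero_mul]
  rw [← integral_finsetSum _ fun j _ => hint j, intervalIntegral.integral_of_le hle, ← integral_Icc_eq_integral_Ioc,
    ← integral_indicator measurableSet_Icc]
  refine integral_mono (integrable_finsetSum _ fun j _ => hint j) ((hF.continuousOn.integrableOn_Icc).integrable_indicator measurableSet_Icc) ?_
  intro t
  show ∑ j ∈ Finset.range J, om g.h ((1 - δ) / (1 / 2 + g.th) * q ^ j * T) t * F t ≤ (Icc (δ * T) ((1 - δ) * T)).indicator F t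
  rw [← Finset.sum_mul]
  by_cases hall : ∀ j ∈ Finset.range J, om g.h ((1 - δ) / (1 / 2 + g.th) * q ^ j * T) t = 0
  · rw [Finset.sum_eq_zero hall, zero_mul]
    exact indicator_nonneg (fun t _ => hF0 t) t
  · push Not at hall
    obtain ⟨j0, hj0, hne⟩ := hall
    have hb := l2_om g (hTj j0) hne
    rw [hup, hlo] at hb
    have hj0' : j0 < J := Finset.mem_range.mp hj0
    have hmem : t ∈ Icc (δ * T) ((1 - δ) * T) := by
      constructor
      · have h1 : q ^ J ≤ q ^ (j0 + 1) := pow_le_pow_of_le_one hq0.le hq1 hj0'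
        have h2 : δ * T ≤ (1 - δ) * q ^ (j0 + 1) * T := by
          refine mul_le_mul_of_nonneg_right (hJ.trans ?_) hT.le
          exact mul_le_mul_of_nonneg_left h1 hD.le
        linarith [hb.1]
      · have h2 : (1 - δ) * q ^ j0 * T ≤ (1 - δ) * T := by
          refine mul_le_mul_of_nonneg_right ?_ hT.le
          exact mul_le_of_le_one_right hD.le (pow_le_one₀ hq0.le hq1)
        linarith [hb.2]
    rw [indicator_of_mem hmem]
    have hsum : ∑ j ∈ Finset.range J, om g.h ((1 - δ) / (1 / 2 + g.th) * q ^ j * T) t = om g.h ((1 - δ) / (1 / 2 + g.th) * q ^ j0 * T) t := by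
      refine Finset.sum_eq_single j0 ?_ (fun h => absurd hj0 h)
      intro j _ hj
      by_contra h
      have hb' := l2_om g (hTj j) h
      rw [hup, hlo] at hb'
      rcases lt_or_gt_of_ne hj with hlt | hlt
      · have h1 : q ^ j0 ≤ q ^ (j + 1) := pow_le_pow_of_le_one hq0.le hq1 hlt
        have h2 : (1 - δ) * q ^ j0 * T ≤ (1 - δ) * q ^ (j + 1) * T := mul_le_mul_of_nonneg_right (mul_le_mul_of_nonneg_left h1 hD.le) hT.le
        linarith [hb.2, hb'.1]
      · have h1 : q ^ j ≤ q ^ (j0 + 1) := pow_le_pow_of_le_one hq0.le hq1 hlt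
        have h2 : (1 - δ) * q ^ j * T ≤ (1 - δ) * q ^ (j0 + 1) * T := mul_le_mul_of_nonneg_right (mul_le_mul_of_nonneg_left h1 hD.le) hT.le
        linarith [hb.1, hb'.2]
    rw [hsum]
    have h1 : om g.h ((1 - δ) / (1 / 2 + g.th) * q ^ j0 * T) t ≤ 1 := hg1 _
    exact mul_le_of_le_one_left (hF0 t) h1

private theorem l2_gsum {q δ η : ℝ} (hη : 0 < η) (hq : q * (1 / 2 + η) = 1 / 2 - η) (J : ℕ) :
    ∑ j ∈ Finset.range J, (1 - δ) / (1 / 2 + η) * q ^ j = (1 - δ) * (1 - q ^ J) / (2 * η) := by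
  have hA : (1 / 2 + η) ≠ 0 := by positivity
  have hq1 : (1 - q) * (1 / 2 + η) = 2 * η := by linarith
  have hq2 : 1 - q ≠ 0 := by
    intro h
    rw [h, zero_mul] at hq1
    linarith
  have h1 : (∑ j ∈ Finset.range J, q ^ j) * (1 - q) = 1 - q ^ J := by
    have := geom_sum_mul_neg q J
    exact this
  rw [← Finset.mul_sum, ← hq1]
  field_simp
  linear_combination (1 - δ) * h1

/-- one piece seen from `T` -/
private theorem l2_piece (g : TF) (hg0 : ∀ x, 0 ≤ g.h x) (hgI : 0 < ∫ x, g.h x) {η : ℝ} (hη : 0 < η) (hη1 : η ≤ 1 / 8) (hgη : ∀ x, g.h x ≠ 0 → |x| ≤ η)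
    {W : ℝ → ℝ} {R K θ : ℝ} (hW : PF W R) (hR : 0 < R) (hK : 0 ≤ K) (hLip : ∀ x y, |W x - W y| ≤ K * |x - y|) (hθ : 0 < θ) (hηθ : 16 * η * K * R ≤ θ)
    {e κ : ℝ} (he : 0 < e) (he1 : e < 1 / 4) (hκ : 0 < κ) {w : ℝ} (hw : 0 < w) {s : ℝ} (hs : 0 < s) :
    ∀ᶠ T : ℝ in atTop, ∀ c : ℝ, (1 + κ) * Real.log T ≤ c → c ≤ (3 / 2 - κ) * Real.log T →
    (1 - w) * (s * T * ((∫ x, g.h x) * max ((3 / 2 - c / Real.log T - 2 * e - w) * (∫ y, W y ^ 2) - θ) 0)) ≤ ∫ t, om g.h (s * T) t * ‖AA (sw W c T) T t‖ ^ 2 := by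
  have hp := piece_low g hg0 hgI hη hη1 hgη hW hR hK hLip hθ hηθ he he1 (κ := κ / 2) (by positivity)
  have hp' := (tendsto_id.const_mul_atTop hs : Tendsto (fun T : ℝ => s * T) atTop atTop).eventually hp
  have hlog : ∀ a : ℝ, ∀ᶠ T : ℝ in atTop, a ≤ Real.log T := fun a => Real.tendsto_log_atTop.eventually_ge_atTop a
  set b : ℝ := |Real.log s| with hb
  have hb0 : 0 ≤ b := abs_nonneg _
  filter_upwards [hp', eventually_gt_atTop 0, hlog 1, hlog (2 * (2 + κ) * b / κ), hlog (3 * b / w), hlog (2 * b + 1), hlog (4 * (R + 2 * b)), hlog (b / w)] with T h hT h1 h2 h3 h4 h5 h6 c hc1 hc2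
  have hL : 0 < Real.log T := by linarith
  have hlogs : Real.log (s * T) = Real.log s + Real.log T := Real.log_mul hs.ne' hT.ne'
  have hbl := abs_le.mp (le_refl b : |Real.log s| ≤ b)
  rw [div_le_iff₀ hκ] at h2
  rw [div_le_iff₀ hw] at h3 h6
  have hLj : 0 < Real.log (s * T) := by rw [hlogs]; linarith [hbl.1]
  have hsT : 0 < s * T := by positivity
  have hc0 : 0 < c := by nlinarith
  have hc32 : c ≤ 3 / 2 * Real.log T := by nlinarith
  have q1 : (1 + κ / 2) * Real.log (s * T) ≤ c := by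
    rw [hlogs]
    have : (1 + κ / 2) * Real.log s ≤ (1 + κ / 2) * b := mul_le_mul_of_nonneg_left hbl.2 (by positivity)
    nlinarith
  have q2 : c ≤ (3 / 2 - κ / 2) * Real.log (s * T) := by
    rw [hlogs]
    have k4 : κ ≤ 1 / 4 := by
      have := hc1.trans hc2
      nlinarith
    have : (3 / 2 - κ / 2) * (-b) ≤ (3 / 2 - κ / 2) * Real.log s := mul_le_mul_of_nonneg_left hbl.1 (by linarith)
    nlinarith
  have h7 := h c q1 q2
  -- exp (c + R) bounds
  have x1 : Real.exp (c + R) ≤ T ^ 2 := by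
    have : T ^ 2 = Real.exp (2 * Real.log T) := by
      rw [mul_comm, Real.exp_mul, Real.exp_log hT]
      norm_num
    rw [this, Real.exp_le_exp]
    linarith
  have x2 : Real.exp (c + R) ≤ (s * T) ^ 2 := by
    have : (s * T) ^ 2 = Real.exp (2 * Real.log (s * T)) := by
      rw [mul_comm 2, Real.exp_mul, Real.exp_log hsT]
      norm_num
    rw [this, Real.exp_le_exp, hlogs]
    linarith [hbl.1]
  have hsq := fun t => l2_sq hW hL hLj x1 x2 t
  set P := max ((3 / 2 - c / Real.log T - 2 * e - w) * (∫ y, W y ^ 2) - θ) 0 with hP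
  have hP0 : 0 ≤ P := le_max_right _ _
  have hI0 : 0 ≤ ∫ y, W y ^ 2 := integral_nonneg fun y => sq_nonneg _
  have hom0 : 0 ≤ ∫ t, om g.h (s * T) t * ‖AA (sw W c (s * T)) (s * T) t‖ ^ 2 := integral_nonneg fun t => mul_nonneg (hg0 _) (sq_nonneg _)
  -- c / L_j ≤ c / L + w
  have h8 : c / Real.log (s * T) ≤ c / Real.log T + w := by
    rw [div_le_iff₀ hLj, hlogs]
    have e0 : c / Real.log T * Real.log T = c := div_mul_cancel₀ c hL.ne'
    have e1 : (c / Real.log T + w) * (Real.log s + Real.log T) = c + c / Real.log T * Real.log s + w * (Real.log s + Real.log T) := by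
      linear_combination e0
    rw [e1]
    have e2 : c / Real.log T ≤ 3 / 2 := by rwa [div_le_iff₀ hL]
    have e3 : 0 ≤ c / Real.log T := by positivity
    have e4 : -(3 / 2 * b) ≤ c / Real.log T * Real.log s := by
      have : c / Real.log T * (-b) ≤ c / Real.log T * Real.log s := mul_le_mul_of_nonneg_left hbl.1 e3
      nlinarith
    have e5 : Real.log T / 2 ≤ Real.log s + Real.log T := by linarith [hbl.1]
    have e6 : w * (Real.log T / 2) ≤ w * (Real.log s + Real.log T) := mul_le_mul_of_nonneg_left e5 hw.le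
    nlinarith
  have h9 : (∫ x, g.h x) * P ≤ (∫ t, om g.h (s * T) t * ‖AA (sw W c (s * T)) (s * T) t‖ ^ 2) / (s * T) := by
    rcases le_or_gt ((3 / 2 - c / Real.log T - 2 * e - w) * (∫ y, W y ^ 2) - θ) 0 with hn | hn
    · rw [hP, max_eq_right hn, mul_zero]
      positivity
    · refine le_trans ?_ h7
      rw [hP, max_eq_left hn.le]
      refine mul_le_mul_of_nonneg_left ?_ hgI.le
      have e1 : 3 / 2 - c / Real.log T - 2 * e - w ≤ max (3 / 2 - c / Real.log (s * T) - 2 * e) 0 := le_trans (by linarith) (le_max_left _ _)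
      have e2 := mul_le_mul_of_nonneg_right e1 hI0
      linarith
  rw [le_div_iff₀ hsT] at h9
  have h10 : ∫ t, om g.h (s * T) t * ‖AA (sw W c T) T t‖ ^ 2 = Real.log (s * T) / Real.log T * ∫ t, om g.h (s * T) t * ‖AA (sw W c (s * T)) (s * T) t‖ ^ 2 := by
    rw [← integral_const_mul]
    refine integral_congr_ae (Eventually.of_forall fun t => ?_)
    simp only
    have := hsq t
    field_simp
    linear_combination (om g.h (s * T) t) * this
  rw [h10]
  have h11 : 1 - w ≤ Real.log (s * T) / Real.log T := by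
    rw [le_div_iff₀ hL, hlogs]
    nlinarith [hbl.1]
  have h12 : 0 ≤ s * T * ((∫ x, g.h x) * P) := by positivity
  calc (1 - w) * (s * T * ((∫ x, g.h x) * P)) ≤ Real.log (s * T) / Real.log T * (s * T * ((∫ x, g.h x) * P)) := mul_le_mul_of_nonneg_right h11 h12
    _ ≤ _ := mul_le_mul_of_nonneg_left (by linarith) (by positivity)

theorem primes_s {W : ℝ → ℝ} {R : ℝ} (hW : PF W R) (hR : 0 < R) {κ ε : ℝ} (hκ : 0 < κ) (hε : 0 < ε) : ∃ δ : ℝ, 0 < δ ∧ δ < 1 / 2 ∧
    ∀ᶠ T : ℝ in atTop, ∀ c : ℝ, (1 + κ) * Real.log T ≤ c → c ≤ (3 / 2 - κ) * Real.log T →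
    (3 / 2 - c / Real.log T) * (∫ y, W y ^ 2) - ε ≤ (1 / T) * ∫ t in (δ * T)..((1 - δ) * T), ‖AA (sw W c T) T t‖ ^ 2 := by
  -- Lipschitz constant
  obtain ⟨K0, hK0⟩ := hW.smooth.lipschitzWith_of_hasCompactSupport hW.compact (by simp)
  set K : ℝ := (K0 : ℝ) with hKdef
  have hK : 0 ≤ K := K0.2
  have hLip : ∀ x y, |W x - W y| ≤ K * |x - y| := fun x y => by
    have := hK0.dist_le_mul x y
    rwa [Real.dist_eq, Real.dist_eq] at this
  have hI2 : ∫ y, W y ^ 2 ≤ 2 * R := by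
    have hz : ∀ y, y ∉ Icc (-R) R → W y = 0 := fun y hy => by
      by_contra h
      exact hy (abs_le.mp (hW.supp y h))
    have hone : ∫ y in Icc (-R) R, (1:ℝ) = 2 * R := by
      rw [setIntegral_const, measureReal_def, Real.volume_Icc, ENNReal.toReal_ofReal (by linarith), smul_eq_mul]
      ring
    rw [← setIntegral_eq_integral_of_forall_compl_eq_zero (s := Icc (-R) R) (fun y hy => by rw [hz y hy]; norm_num), ← hone]
    refine setIntegral_mono_on ((hW.smooth.continuous.pow 2).integrableOn_Icc) (integrableOn_const (by simp)) measurableSet_Icc fun y _ => ?_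
    have := hW.le_one y
    have := hW.nonneg y
    nlinarith
  have hI0 : 0 ≤ ∫ y, W y ^ 2 := integral_nonneg fun y => sq_nonneg _
  set w : ℝ := min (ε / (12 * R + 1)) (1 / 10) with hwdef
  have hw : 0 < w := by positivity
  have hw1 : w ≤ 1 / 10 := min_le_right _ _
  have hwε : w * (12 * R + 1) ≤ ε := by
    calc w * (12 * R + 1) ≤ ε / (12 * R + 1) * (12 * R + 1) := by gcongr; exact min_le_left _ _
      _ = ε := by field_simp
  set η : ℝ := min (1 / 8) (w / (16 * K * R + 1)) with hηdef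
  have hη : 0 < η := by positivity
  have hη1 : η ≤ 1 / 8 := min_le_left _ _
  have hηθ : 16 * η * K * R ≤ w := by
    have h0 : 0 ≤ 16 * K * R := by positivity
    have h1 : η * (16 * K * R + 1) ≤ w := by
      calc η * (16 * K * R + 1) ≤ w / (16 * K * R + 1) * (16 * K * R + 1) := by gcongr; exact min_le_right _ _
        _ = w := by field_simp
    nlinarith
  obtain ⟨g, hg0, hg1, hgI, hgth⟩ := l2_bump hη hη1 hw (by linarith)
  have hgI0 : 0 < ∫ x, g.h x := lt_of_lt_of_le (mul_pos (by positivity) (by linarith)) hgI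
  have hgη : ∀ x, g.h x ≠ 0 → |x| ≤ η := fun x hx => by
    by_contra h
    push Not at h
    exact hx (g.supp x (by rw [hgth]; exact h.le))
  -- the ratio
  obtain ⟨q, hqdef⟩ : ∃ q : ℝ, q = (1 / 2 - η) / (1 / 2 + η) := ⟨_, rfl⟩
  have hqe : q * (1 / 2 + η) = 1 / 2 - η := by rw [hqdef]; field_simp
  have hq0 : 0 < q := by rw [hqdef]; exact div_pos (by linarith) (by linarith)
  have hq1 : q < 1 := by rw [hqdef, div_lt_one (by linarith)]; linarith
  obtain ⟨J, hJ⟩ := exists_pow_lt_of_lt_one hw hq1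
  have hqJ : 0 < q ^ J := pow_pos hq0 J
  set δ : ℝ := q ^ J / 2 with hδdef
  have hδ : 0 < δ := by positivity
  have hδw : δ ≤ w / 2 := by rw [hδdef]; linarith
  have hδJ : δ ≤ (1 - δ) * q ^ J := by
    have : 1 / 2 ≤ 1 - δ := by linarith
    calc δ = 1 / 2 * q ^ J := by rw [hδdef]; ring
      _ ≤ (1 - δ) * q ^ J := mul_le_mul_of_nonneg_right this hqJ.le
  refine ⟨δ, hδ, by linarith, ?_⟩
  have hall : ∀ᶠ T : ℝ in atTop, ∀ j ∈ Finset.range J, ∀ c : ℝ, (1 + κ) * Real.log T ≤ c → c ≤ (3 / 2 - κ) * Real.log T →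
      (1 - w) * ((1 - δ) / (1 / 2 + g.th) * q ^ j * T * ((∫ x, g.h x) * max ((3 / 2 - c / Real.log T - 2 * (w / 2) - w) * (∫ y, W y ^ 2) - w) 0)) ≤
      ∫ t, om g.h ((1 - δ) / (1 / 2 + g.th) * q ^ j * T) t * ‖AA (sw W c T) T t‖ ^ 2 := by
    rw [Filter.eventually_all_finset]
    intro j _
    have hth0 := g.th0
    have hs : 0 < (1 - δ) / (1 / 2 + g.th) * q ^ j := by
      have : 0 < 1 - δ := by linarith
      positivity
    exact l2_piece g hg0 hgI0 hη hη1 hgη hW hR hK hLip hw hηθ (e := w / 2) (by positivity) (by linarith) hκ hw hs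
  filter_upwards [hall, eventually_gt_atTop 1] with T hT hT1 c hc1 hc2
  have hT0 : 0 < T := by linarith
  have hL : 0 < Real.log T := Real.log_pos hT1
  have hFc : Continuous (fun t => ‖AA (sw W c T) T t‖ ^ 2) := (l2_cont (sw W c T) T).norm.pow 2
  have htile := l2_tile g hg0 hg1 hT0 hq0 hq1.le (by rw [hgth]; exact hqe) (by linarith) J hδJ hFc (fun t => sq_nonneg _)
  set P := max ((3 / 2 - c / Real.log T - 2 * (w / 2) - w) * (∫ y, W y ^ 2) - w) 0 with hP
  have hP0 : 0 ≤ P := le_max_right _ _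
  have hsum : ∑ j ∈ Finset.range J, (1 - w) * ((1 - δ) / (1 / 2 + g.th) * q ^ j * T * ((∫ x, g.h x) * P)) ≤
      ∫ t in (δ * T)..((1 - δ) * T), ‖AA (sw W c T) T t‖ ^ 2 := (Finset.sum_le_sum fun j hj => hT j hj c hc1 hc2).trans htile
  have hsum2 : ∑ j ∈ Finset.range J, (1 - w) * ((1 - δ) / (1 / 2 + g.th) * q ^ j * T * ((∫ x, g.h x) * P)) =
      (1 - w) * ((1 - δ) * (1 - q ^ J) / (2 * η) * (∫ x, g.h x)) * P * T := by
    have h1 := l2_gsum (δ := δ) hη hqe J
    rw [hgth, ← h1, Finset.sum_mul, Finset.mul_sum, Finset.sum_mul, Finset.sum_mul]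
    refine Finset.sum_congr rfl fun j _ => ?_
    ring
  rw [hsum2] at hsum
  have hcoef : 1 - 4 * w ≤ (1 - w) * ((1 - δ) * (1 - q ^ J) / (2 * η) * (∫ x, g.h x)) := by
    have a1 : (1 - w) * (1 - w) ≤ (1 - δ) * (1 - q ^ J) := mul_le_mul (by linarith) (by linarith) (by linarith) (by linarith)
    have a2 : (1 - w) * (1 - w) / (2 * η) ≤ (1 - δ) * (1 - q ^ J) / (2 * η) := div_le_div_of_nonneg_right a1 (by positivity)
    have a3 : (1 - w) * (1 - w) / (2 * η) * (2 * η * (1 - w)) ≤ (1 - δ) * (1 - q ^ J) / (2 * η) * (∫ x, g.h x) := by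
      refine mul_le_mul a2 hgI (mul_nonneg (by positivity) (by linarith)) (le_trans ?_ a2)
      have : 0 ≤ 1 - w := by linarith
      positivity
    have a4 : (1 - w) * (1 - w) / (2 * η) * (2 * η * (1 - w)) = (1 - w) * (1 - w) * (1 - w) := by field_simp
    rw [a4] at a3
    have a5 := mul_le_mul_of_nonneg_left a3 (by linarith : 0 ≤ 1 - w)
    have a6 : 1 - 4 * w ≤ (1 - w) * ((1 - w) * (1 - w) * (1 - w)) := by nlinarith [mul_pos hw hw, mul_pos (mul_pos hw hw) hw, sq_nonneg (w ^ 2)]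
    linarith
  have hPR : P ≤ R := by
    refine max_le ?_ hR.le
    have hcL : 1 ≤ c / Real.log T := by
      rw [le_div_iff₀ hL]
      nlinarith
    have a1 : (3 / 2 - c / Real.log T - 2 * (w / 2) - w) * (∫ y, W y ^ 2) ≤ 1 / 2 * (∫ y, W y ^ 2) := mul_le_mul_of_nonneg_right (by linarith) hI0
    linarith
  have hPl : (3 / 2 - c / Real.log T) * (∫ y, W y ^ 2) - 2 * w * (2 * R) - w ≤ P := by
    refine le_trans ?_ (le_max_left _ _)
    have a1 : 2 * w * (∫ y, W y ^ 2) ≤ 2 * w * (2 * R) := mul_le_mul_of_nonneg_left hI2 (by positivity)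
    nlinarith
  have hfin : (1 - 4 * w) * P ≤ (1 / T) * ∫ t in (δ * T)..((1 - δ) * T), ‖AA (sw W c T) T t‖ ^ 2 := by
    have a1 : (1 - 4 * w) * P * T ≤ ∫ t in (δ * T)..((1 - δ) * T), ‖AA (sw W c T) T t‖ ^ 2 :=
      (mul_le_mul_of_nonneg_right (mul_le_mul_of_nonneg_right hcoef hP0) hT0.le).trans hsum
    rw [one_div, inv_mul_eq_div, le_div_iff₀ hT0]
    exact a1
  have a7 : 4 * w * P ≤ 4 * w * R := mul_le_mul_of_nonneg_left hPR (by positivity)
  nlinarith

end Pool.Agent.Helper57.KP
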