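import Pool.Agent.Helper57.KP.Defs
import Pool.Agent.Helper93.LP.EFx
import Pool.Agent.Helper93.LP.Tw
import Pool.Agent.Helper93.LP.LTb

/-!
# KP-Z1: the explicit formula for the weights at scale `1/log T`

PROOF. As `ef_scaled` in Helper93/LP/EFw.lean (read it; its lemmas on the counting of zeros and on `LT` may be cited or copied). `explicit_w` (EFx) with `g(y) = W(y - c) e^(-(1/2+it)y)/√L` (`WC` with `[c-R, c+R]`, `c > R`): `∑_n Λ(n) g(log n) = PP T (sw W c T) t` and, summed over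
all zeros, `LT g ρ = LT (sw W c T) (zz T t ρ)` (substitute `y = L x`). So `PP + GG` is the pole term `LT g 1`, the terms of the trivial zeros and the zeros with ordinate outside `[0, T]` (`GG` is the sum over `Zf T`). For `δT ≤ t ≤ (1-δ)T`:
`|LT g s| ≤ C_k e^((c+R)|Re s - 1/2|) √L^(-1) (1 + |Im s - t|)^(-k)` (integrate by parts `k` times in `y`: `LT g s = ∫ W(y-c) e^((s-1/2-it) y) dy/√L`, all derivatives of `W` are bounded, length `2R`), `e^((c+R)/2) ≤ e^R T^(3/4)`, `|γ - t| ≥ δT` for the ordinates outside `[0,T]`,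
and `∑_γ (1+|γ-t|)^(-2) ≤ C log T`; `k = 6` is enough. Trivial zeros and pole: `|Im s - t| = t ≥ δT`, exponential factor `≤ e^((c+R)/2)`, for `s = -2(n+1)`: `e^((c-R)(−2n−5/2))` tiny.
-/

open MeasureTheory Set Filter Topology
open Pool.Agent.Helper57.Zeta Pool.Agent.Helper57.PC Pool.Agent.Helper57.LH Pool.Agent.Helper78.SG
open Pool.Agent.Helper4.SH (om)
open Pool.Agent.Helper69.FF
open scoped ContDiff

set_option autoImplicit false

namespace Pool.Agent.Helper57.KP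

namespace Z1Aux

open Complex
open Pool.Agent.Helper93.LP
open Pool.Agent.Helper69.GGM

/-- the trivial zeros -/
private lemma arch_b {V : ℂ → ℂ} {a C : ℝ} (ha : 1 ≤ a) (hC : 0 < C)
    (hneg : ∀ z : ℂ, z.re ≤ 0 → ‖V z‖ ≤ C * Real.exp (a * z.re)) (t : ℝ) :
    ‖∑' n : ℕ, V (-(2 * ((n : ℂ) + 1)) - ((1 / 2 : ℂ) + (t : ℂ) * I))‖ ≤
      C * Real.exp (-a) * ∑' n : ℕ, Real.exp (-1) ^ n := by
  have hq0 : 0 ≤ Real.exp (-1) := (Real.exp_pos _).le
  have hq1 : Real.exp (-1) < 1 := by rw [Real.exp_lt_one_iff]; norm_num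
  have hs : Summable (fun n : ℕ => Real.exp (-1) ^ n) := summable_geometric_of_lt_one hq0 hq1
  have hs2 : HasSum (fun n : ℕ => C * Real.exp (-a) * Real.exp (-1) ^ n)
      (C * Real.exp (-a) * ∑' n : ℕ, Real.exp (-1) ^ n) := hs.hasSum.mul_left _
  apply tsum_of_norm_bounded hs2
  intro n
  have hre : (-(2 * ((n : ℂ) + 1)) - ((1 / 2 : ℂ) + (t : ℂ) * I)).re = -(2 * ((n : ℝ) + 1)) - 1 / 2 := by
    simp
  have hn0 : (0:ℝ) ≤ (n : ℝ) := Nat.cast_nonneg n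
  have hneg2 : (-(2 * ((n : ℂ) + 1)) - ((1 / 2 : ℂ) + (t : ℂ) * I)).re ≤ 0 := by
    rw [hre]
    linarith
  refine (hneg _ hneg2).trans ?_
  rw [hre, ← Real.exp_nat_mul, mul_assoc, ← Real.exp_add]
  have : a * (-(2 * ((n : ℝ) + 1)) - 1 / 2) ≤ -a + (n : ℝ) * -1 := by
    nlinarith [mul_nonneg (by linarith : (0:ℝ) ≤ a - 1) hn0]
  have := Real.exp_le_exp.mpr this
  exact mul_le_mul_of_nonneg_left this hC.le

/-- distance of `t` to the ordinates outside `[0,T]` -/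
private lemma dist_bound {δ T t g : ℝ} (hδ : 0 < δ) (hT : 0 < T) (h1 : δ * T ≤ t) (h2 : t ≤ (1 - δ) * T)
    (hg : ¬ (0 ≤ g ∧ g ≤ T)) : δ / 2 * (T + |g|) ≤ |g - t| := by
  by_cases h : g < 0
  · rw [abs_of_neg h, abs_sub_comm, abs_of_pos (by nlinarith [mul_pos hδ hT] : 0 < t - g)]
    nlinarith [mul_pos hδ hT]
  · push Not at h
    have h3 : T < g := by
      by_contra h4
      exact hg ⟨h, by linarith⟩
    have h5 : t < g := by nlinarith [mul_pos hδ hT]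
    rw [abs_of_nonneg h, abs_of_pos (by linarith : 0 < g - t)]
    nlinarith [mul_pos hδ hT, mul_pos hδ (by linarith : 0 < g - T)]

/-- the explicit formula for the scaled weight -/
private lemma scaled {w : ℝ → ℂ} {a b : ℝ} (h : WC w a b) {T : ℝ} (hL : 0 < Real.log T) (t : ℝ) :
    HasSum (fun ρ : ZS => (mx (ρ : ℂ) : ℂ) * LT w (zz T t ρ))
      (LT w (((Real.log T : ℝ) : ℂ) * (1 - ((1 / 2 : ℂ) + (t : ℂ) * I))) -
        (∑' n : ℕ, LT w (((Real.log T : ℝ) : ℂ) * (-(2 * ((n : ℂ) + 1)) - ((1 / 2 : ℂ) + (t : ℂ) * I)))) -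
        PP T w t) := by
  set L := Real.log T with hLdef
  set s₀ : ℂ := (1 / 2 : ℂ) + (t : ℂ) * I with hs₀
  have hLC : (L : ℂ) ≠ 0 := by exact_mod_cast hL.ne'
  have hex := explicit_w (WC_scale h hL s₀)
  have hlt : ∀ z : ℂ, LT (fun x : ℝ => w (x / L) * Complex.exp (-(s₀ * (x : ℂ)))) z = (L : ℂ) * LT w ((L : ℂ) * (z - s₀)) :=
    fun z => LT_scale w hL s₀ z
  have hex2 := hex.mul_left ((L : ℂ)⁻¹)
  have hz : ∀ ρ : ℂ, (L : ℂ) * (ρ - s₀) = zz T t ρ := by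
    intro ρ
    apply Complex.ext
    · simp [zz, hs₀, hLdef]
    · simp [zz, hs₀, hLdef]
  have hfun : (fun ρ : ZS => (L : ℂ)⁻¹ * ((mx (ρ : ℂ) : ℂ) *
      LT (fun x : ℝ => w (x / L) * Complex.exp (-(s₀ * (x : ℂ)))) (ρ : ℂ))) =
      fun ρ : ZS => (mx (ρ : ℂ) : ℂ) * LT w (zz T t ρ) := by
    funext ρ
    rw [hlt, hz]
    field_simp
  rw [hfun, mul_sub, mul_sub, hlt 1] at hex2
  have e1 : (L : ℂ)⁻¹ * ((L : ℂ) * LT w ((L : ℂ) * (1 - s₀))) = LT w ((L : ℂ) * (1 - s₀)) := by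
    field_simp
  have e2 : (L : ℂ)⁻¹ * (∑' n : ℕ, LT (fun x : ℝ => w (x / L) * Complex.exp (-(s₀ * (x : ℂ)))) (-(2 * ((n : ℂ) + 1)))) =
      ∑' n : ℕ, LT w ((L : ℂ) * (-(2 * ((n : ℂ) + 1)) - s₀)) := by
    rw [← tsum_mul_left]
    congr 1
    funext n
    rw [hlt]
    field_simp
  have e3 : (L : ℂ)⁻¹ * (∑' n : ℕ, ((ArithmeticFunction.vonMangoldt n : ℝ) : ℂ) *
      (w (Real.log n / L) * Complex.exp (-(s₀ * ((Real.log n : ℝ) : ℂ))))) = PP T w t := by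
    unfold PP
    congr 1
    congr 1
    funext n
    rcases Nat.eq_zero_or_pos n with hn | hn
    · subst hn
      simp
    · have hn' : (n : ℂ) ≠ 0 := by exact_mod_cast hn.ne'
      rw [Complex.cpow_def_of_ne_zero hn', ← Complex.natCast_log, ← hs₀]
      have : ((Real.log (n:ℝ) : ℝ) : ℂ) * -s₀ = -(s₀ * ((Real.log n : ℝ) : ℂ)) := by ring
      rw [this]
      ring
  rw [e1, e2, e3] at hex2
  exact hex2

/-- the zeros outside `[0,T]` -/
private lemma outer_bound {V : ℂ → ℂ} {C : ℝ} (hC : 0 < C) {δ T t : ℝ} (hδ : 0 < δ) (hT : 1 ≤ T)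
    (hbd : ∀ z : ℂ, |z.re| ≤ 1 / 2 → ‖V z‖ ≤ C * T / (1 + |z.im|) ^ 4)
    (h1 : δ * T ≤ t) (h2 : t ≤ (1 - δ) * T) (ρ : ZS) (hρ : ρ ∉ ZT T) :
    ‖(mx (ρ : ℂ) : ℂ) * V ((ρ : ℂ) - ((1 / 2 : ℂ) + (t : ℂ) * I))‖ ≤ C * (2 / δ) ^ 4 / T * (mx ρ / (1 + |(ρ:ℂ).im|) ^ 2) := by
  have hT0 : 0 < T := by linarith
  have hr := zs_re ρ
  have hm0 := mx_nonneg (ρ:ℂ)
  have hre : ((ρ : ℂ) - ((1 / 2 : ℂ) + (t : ℂ) * I)).re = (ρ:ℂ).re - 1 / 2 := by simp
  have him : ((ρ : ℂ) - ((1 / 2 : ℂ) + (t : ℂ) * I)).im = (ρ:ℂ).im - t := by simp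
  have ha1 : |((ρ : ℂ) - ((1 / 2 : ℂ) + (t : ℂ) * I)).re| ≤ 1 / 2 := by
    rw [hre, abs_le]
    constructor <;> linarith only [hr.1, hr.2]
  have hb1 := hbd _ ha1
  rw [him] at hb1
  set g := (ρ:ℂ).im with hg
  have hgn : ¬ (0 ≤ g ∧ g ≤ T) := fun h => hρ (mem_ZT.mpr h)
  have hd := dist_bound hδ hT0 h1 h2 hgn
  have hg0 : 0 ≤ |g| := abs_nonneg g
  have hy : δ / 2 * (T + |g|) ≤ 1 + |g - t| := by linarith
  have hpos : 0 < δ / 2 * (T + |g|) := by positivity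
  have hden : (δ / 2) ^ 4 * (T ^ 2 * (1 + |g|) ^ 2) ≤ (1 + |g - t|) ^ 4 := by
    calc (δ / 2) ^ 4 * (T ^ 2 * (1 + |g|) ^ 2) ≤ (δ / 2) ^ 4 * ((T + |g|) ^ 2 * (T + |g|) ^ 2) := by
          gcongr
          linarith
      _ = (δ / 2 * (T + |g|)) ^ 4 := by
          rw [mul_pow]
          ring
      _ ≤ _ := by gcongr
  have hden0 : 0 < (δ / 2) ^ 4 * (T ^ 2 * (1 + |g|) ^ 2) := by positivity
  have hfin : C * T / (1 + |g - t|) ^ 4 ≤ C * T / ((δ / 2) ^ 4 * (T ^ 2 * (1 + |g|) ^ 2)) := by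
    gcongr
  have heq : C * T / ((δ / 2) ^ 4 * (T ^ 2 * (1 + |g|) ^ 2)) = C * (2 / δ) ^ 4 / T * (1 / (1 + |g|) ^ 2) := by
    have h0 : (1 + |g|) ≠ 0 := by positivity
    rw [div_pow, div_pow]
    field_simp
  rw [norm_mul, Complex.norm_real, Real.norm_of_nonneg hm0]
  calc mx (ρ:ℂ) * ‖V ((ρ : ℂ) - ((1 / 2 : ℂ) + (t : ℂ) * I))‖ ≤ mx (ρ:ℂ) * (C * (2 / δ) ^ 4 / T * (1 / (1 + |g|) ^ 2)) := by
        apply mul_le_mul_of_nonneg_left _ hm0
        linarith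
    _ = _ := by ring

/-- the shifted profile -/
private lemma wc_shift {W : ℝ → ℝ} {R : ℝ} (hW : PF W R) (hR : 0 < R) :
    WC (fun u : ℝ => ((W (u - (R + 1)) : ℝ) : ℂ)) 1 (2 * R + 1) := by
  refine ⟨?_, one_pos, by linarith, ?_⟩
  · have h1 : ContDiff ℝ ∞ (fun u : ℝ => W (u - (R + 1))) := hW.smooth.comp (contDiff_id.sub contDiff_const)
    exact Complex.ofRealCLM.contDiff.comp h1
  · intro x hx
    have hx' : W (x - (R + 1)) ≠ 0 := fun h => hx (by simp [h])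
    have := abs_le.mp (hW.supp _ hx')
    constructor <;> linarith [this.1, this.2]

/-- the scaled weight is admissible -/
private lemma wc_sw {W : ℝ → ℝ} {R : ℝ} (hW : PF W R) (hR : 0 < R) {c T : ℝ} (hL : 0 < Real.log T) (hc : R < c) :
    WC (fun x : ℝ => ((sw W c T x : ℝ) : ℂ)) ((c - R) / Real.log T) ((c + R) / Real.log T) := by
  refine ⟨?_, by apply div_pos _ hL; linarith, by gcongr; linarith, ?_⟩
  · have h1 : ContDiff ℝ ∞ (fun x : ℝ => sw W c T x) := by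
      unfold sw
      exact contDiff_const.mul (hW.smooth.comp ((contDiff_const.mul contDiff_id).sub contDiff_const))
    exact Complex.ofRealCLM.contDiff.comp h1
  · intro x hx
    have hx' : W (Real.log T * x - c) ≠ 0 := fun h => hx (by simp [sw, h])
    have := abs_le.mp (hW.supp _ hx')
    rw [div_le_iff₀ hL, le_div_iff₀ hL]
    constructor <;> nlinarith [this.1, this.2]

/-- the Laplace transform of the scaled weight -/
private lemma lt_sw {W : ℝ → ℝ} {R c T : ℝ} (hL : 0 < Real.log T) (s : ℂ) :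
    LT (fun x : ℝ => ((sw W c T x : ℝ) : ℂ)) (((Real.log T : ℝ) : ℂ) * s) =
      ((Real.sqrt (Real.log T) / Real.log T : ℝ) : ℂ) * Complex.exp (((c - (R + 1) : ℝ) : ℂ) * s) *
        LT (fun u : ℝ => ((W (u - (R + 1)) : ℝ) : ℂ)) s := by
  set L := Real.log T with hLdef
  have hLC : (L : ℂ) ≠ 0 := by exact_mod_cast hL.ne'
  unfold Pool.Agent.Helper93.LP.LT
  -- change of variables `u = L x - c'`
  set c' : ℝ := c - (R + 1) with hc'
  have h1 : (∫ x : ℝ, ((sw W c T x : ℝ) : ℂ) * Complex.exp ((x : ℂ) * ((L : ℂ) * s))) =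
      ∫ x : ℝ, (fun u : ℝ => ((Real.sqrt L : ℝ) : ℂ) * (((W (u - (R + 1)) : ℝ) : ℂ) *
        Complex.exp (((u + c' : ℝ) : ℂ) * s))) (L * x - c') := by
    apply integral_congr_ae
    filter_upwards with x
    simp only [sw, ← hLdef]
    have e1 : L * x - c' - (R + 1) = L * x - c := by rw [hc']; ring
    have e2 : L * x - c' + c' = L * x := by ring
    rw [e1, e2]
    push_cast
    rw [mul_assoc]
    congr 3
    ring
  rw [h1]
  have h2 : (∫ x : ℝ, (fun u : ℝ => ((Real.sqrt L : ℝ) : ℂ) * (((W (u - (R + 1)) : ℝ) : ℂ) *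
        Complex.exp (((u + c' : ℝ) : ℂ) * s))) (L * x - c')) =
      (L : ℂ)⁻¹ * ∫ u : ℝ, ((Real.sqrt L : ℝ) : ℂ) * (((W (u - (R + 1)) : ℝ) : ℂ) *
        Complex.exp (((u + c' : ℝ) : ℂ) * s)) := by
    have hcv := MeasureTheory.Measure.integral_comp_mul_left (fun y : ℝ => (fun u : ℝ => ((Real.sqrt L : ℝ) : ℂ) *
      (((W (u - (R + 1)) : ℝ) : ℂ) * Complex.exp (((u + c' : ℝ) : ℂ) * s))) (y - c')) L
    rw [hcv, integral_sub_right_eq_self (fun u : ℝ => ((Real.sqrt L : ℝ) : ℂ) *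
      (((W (u - (R + 1)) : ℝ) : ℂ) * Complex.exp (((u + c' : ℝ) : ℂ) * s))) c', abs_of_pos (by positivity : 0 < L⁻¹)]
    rw [← Complex.coe_smul, smul_eq_mul]
    push_cast
    rfl
  rw [h2, integral_const_mul]
  have h3 : (∫ u : ℝ, ((W (u - (R + 1)) : ℝ) : ℂ) * Complex.exp (((u + c' : ℝ) : ℂ) * s)) =
      Complex.exp ((c' : ℂ) * s) * ∫ u : ℝ, ((W (u - (R + 1)) : ℝ) : ℂ) * Complex.exp ((u : ℂ) * s) := by
    rw [← integral_const_mul]
    congr 1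
    funext u
    have : ((u + c' : ℝ) : ℂ) * s = (c' : ℂ) * s + (u : ℂ) * s := by push_cast; ring
    rw [this, Complex.exp_add]
    ring
  rw [h3]
  push_cast
  field_simp

end Z1Aux


open Pool.Agent.Helper93.LP (PP GG) in
theorem ef_s {W : ℝ → ℝ} {R : ℝ} (hW : PF W R) (hR : 0 < R) {κ δ : ℝ} (hκ : 0 < κ) (hδ : 0 < δ) (hδ2 : δ < 1 / 2) {ε : ℝ} (hε : 0 < ε) :
    ∀ᶠ T : ℝ in atTop, ∀ c : ℝ, κ * Real.log T ≤ c → c ≤ 3 / 2 * Real.log T → ∀ t : ℝ, δ * T ≤ t → t ≤ (1 - δ) * T →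
    ‖PP T (fun x => ((sw W c T x : ℝ) : ℂ)) t + GG T (fun x => ((sw W c T x : ℝ) : ℂ)) t‖ ≤ ε := by
  classical
  obtain ⟨C1, hC1, hbd⟩ := Pool.Agent.Helper93.LP.LT_bound (Z1Aux.wc_shift hW hR) 4
  obtain ⟨C2, hC2, hneg⟩ := Pool.Agent.Helper93.LP.LT_neg (Z1Aux.wc_shift hW hR)
  set C : ℝ := C1 * Real.exp (R + 1 / 2) with hCdef
  have hC : 0 < C := by positivity
  set K : ℝ := ∑' ρ : ZS, mx ρ / (1 + |(ρ:ℂ).im|) ^ 2 with hK
  set K2 : ℝ := ∑' n : ℕ, Real.exp (-1) ^ n with hK2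
  have hK20 : 0 ≤ K2 := tsum_nonneg (fun n => by positivity)
  have hl1 : Tendsto (fun T : ℝ => C / δ ^ 4 * T⁻¹ + C2 * Real.exp (-(κ * Real.log T - R)) * K2 +
      C * (2 / δ) ^ 4 / T * K) atTop (𝓝 0) := by
    have t1 : Tendsto (fun T : ℝ => C / δ ^ 4 * T⁻¹) atTop (𝓝 0) := by
      simpa using tendsto_inv_atTop_zero.const_mul (C / δ ^ 4)
    have t2 : Tendsto (fun T : ℝ => C2 * Real.exp (-(κ * Real.log T - R)) * K2) atTop (𝓝 0) := by
      have : Tendsto (fun T : ℝ => Real.exp (-(κ * Real.log T - R))) atTop (𝓝 0) := by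
        apply Real.tendsto_exp_neg_atTop_nhds_zero.comp
        exact tendsto_atTop_add_const_right _ _ (Real.tendsto_log_atTop.const_mul_atTop hκ)
      simpa using (this.const_mul C2).mul_const K2
    have t3 : Tendsto (fun T : ℝ => C * (2 / δ) ^ 4 / T * K) atTop (𝓝 0) := by
      have : Tendsto (fun T : ℝ => C * (2 / δ) ^ 4 / T) atTop (𝓝 0) :=
        tendsto_const_nhds.div_atTop tendsto_id
      simpa using this.mul_const K
    simpa using (t1.add t2).add t3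
  filter_upwards [hl1.eventually (gt_mem_nhds hε), eventually_ge_atTop 1,
    Real.tendsto_log_atTop.eventually_ge_atTop (max 1 ((R + 1) / κ))] with T hTε hT1 hL1' c hc1 hc2 t ht1 ht2
  have hT0 : 0 < T := by linarith
  have hL1 : 1 ≤ Real.log T := (le_max_left _ _).trans hL1'
  have hL0 : 0 < Real.log T := by linarith
  have hcR : R + 1 ≤ c := by
    have : (R + 1) / κ ≤ Real.log T := (le_max_right _ _).trans hL1'
    rw [div_le_iff₀ hκ] at this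
    linarith
  set w : ℝ → ℂ := fun x : ℝ => ((sw W c T x : ℝ) : ℂ) with hw
  set V : ℂ → ℂ := fun s => Pool.Agent.Helper93.LP.LT w (((Real.log T : ℝ) : ℂ) * s) with hV
  have hκ0 : ‖((Real.sqrt (Real.log T) / Real.log T : ℝ) : ℂ)‖ ≤ 1 := by
    rw [Complex.norm_real, Real.norm_of_nonneg (by positivity), div_le_one hL0]
    rw [Real.sqrt_le_left (by linarith)]
    nlinarith
  have hVeq : ∀ s : ℂ, ‖V s‖ ≤ Real.exp ((c - (R + 1)) * s.re) *
      ‖Pool.Agent.Helper93.LP.LT (fun u : ℝ => ((W (u - (R + 1)) : ℝ) : ℂ)) s‖ := by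
    intro s
    simp only [hV, hw]
    rw [Z1Aux.lt_sw (R := R) hL0 s, norm_mul, norm_mul, Complex.norm_exp]
    have e : (((c - (R + 1) : ℝ) : ℂ) * s).re = (c - (R + 1)) * s.re := by simp
    rw [e]
    have h0 : 0 ≤ Real.exp ((c - (R + 1)) * s.re) * ‖Pool.Agent.Helper93.LP.LT (fun u : ℝ => ((W (u - (R + 1)) : ℝ) : ℂ)) s‖ := by
      positivity
    rw [mul_assoc]
    exact mul_le_of_le_one_left h0 hκ0
  have hVbd : ∀ z : ℂ, |z.re| ≤ 1 / 2 → ‖V z‖ ≤ C * T / (1 + |z.im|) ^ 4 := by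
    intro z hz
    refine (hVeq z).trans ?_
    have h1 := hbd z
    have hc0 : 0 ≤ c - (R + 1) := by linarith
    have e1 : Real.exp ((c - (R + 1)) * z.re) ≤ T := by
      rw [← Real.log_le_log_iff (Real.exp_pos _) hT0, Real.log_exp]
      have : z.re ≤ 1 / 2 := (le_abs_self _).trans hz
      nlinarith
    have e2 : Real.exp ((2 * R + 1) * |z.re|) ≤ Real.exp (R + 1 / 2) := by
      apply Real.exp_le_exp.mpr
      nlinarith
    calc Real.exp ((c - (R + 1)) * z.re) * ‖Pool.Agent.Helper93.LP.LT (fun u : ℝ => ((W (u - (R + 1)) : ℝ) : ℂ)) z‖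
        ≤ T * (C1 * Real.exp (R + 1 / 2) / (1 + |z.im|) ^ 4) := by
          apply mul_le_mul e1 (h1.trans _) (norm_nonneg _) hT0.le
          gcongr
      _ = C * T / (1 + |z.im|) ^ 4 := by
          rw [hCdef]
          ring
  have hVneg : ∀ z : ℂ, z.re ≤ 0 → ‖V z‖ ≤ C2 * Real.exp ((c - R) * z.re) := by
    intro z hz
    refine (hVeq z).trans ?_
    have h1 := hneg z hz
    calc Real.exp ((c - (R + 1)) * z.re) * ‖Pool.Agent.Helper93.LP.LT (fun u : ℝ => ((W (u - (R + 1)) : ℝ) : ℂ)) z‖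
        ≤ Real.exp ((c - (R + 1)) * z.re) * (C2 * Real.exp (1 * z.re)) := by gcongr
      _ = C2 * Real.exp ((c - R) * z.re) := by
          have : (c - R) * z.re = (c - (R + 1)) * z.re + 1 * z.re := by ring
          rw [this, Real.exp_add]
          ring
  -- the identity
  have hs := Z1Aux.scaled (Z1Aux.wc_sw hW hR hL0 (by linarith : R < c)) hL0 t
  have hzz : ∀ ρ : ℂ, Pool.Agent.Helper69.GGM.zz T t ρ = ((Real.log T : ℝ) : ℂ) * (ρ - ((1 / 2 : ℂ) + (t : ℂ) * Complex.I)) := by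
    intro ρ
    apply Complex.ext
    · simp [Pool.Agent.Helper69.GGM.zz]
    · simp [Pool.Agent.Helper69.GGM.zz]
  have hfin : HasSum (fun ρ : ZS => if ρ ∈ ZT T then (mx (ρ : ℂ) : ℂ) * Pool.Agent.Helper93.LP.LT w (Pool.Agent.Helper69.GGM.zz T t ρ) else 0)
      (GG T w t) := by
    have e : GG T w t = ∑ ρ ∈ ZT T, (mx (ρ : ℂ) : ℂ) * Pool.Agent.Helper93.LP.LT w (Pool.Agent.Helper69.GGM.zz T t ρ) := by
      unfold GG ZT
      symm
      refine Finset.sum_subtype_of_mem (fun ρ : ℂ => (mx (ρ : ℂ) : ℂ) * Pool.Agent.Helper93.LP.LT w (Pool.Agent.Helper69.GGM.zz T t ρ)) ?_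
      intro ρ hρ
      rw [mem_Zf] at hρ
      exact isNontrivialZero_iff.mp hρ.1
    rw [e]
    have e2 : ∑ ρ ∈ ZT T, (mx (ρ : ℂ) : ℂ) * Pool.Agent.Helper93.LP.LT w (Pool.Agent.Helper69.GGM.zz T t ρ) =
        ∑ ρ ∈ ZT T, (if ρ ∈ ZT T then (mx (ρ : ℂ) : ℂ) * Pool.Agent.Helper93.LP.LT w (Pool.Agent.Helper69.GGM.zz T t ρ) else 0) := by
      apply Finset.sum_congr rfl
      intro ρ hρ
      simp [hρ]
    rw [e2]
    apply hasSum_sum_of_ne_finset_zero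
    intro ρ hρ
    simp [hρ]
  have hdiff := hs.sub hfin
  have hbdsum : HasSum (fun ρ : ZS => C * (2 / δ) ^ 4 / T * (mx ρ / (1 + |(ρ:ℂ).im|) ^ 2))
      (C * (2 / δ) ^ 4 / T * K) := Pool.Agent.Helper69.GGM.hd2_summable.hasSum.mul_left _
  have hout := hdiff.norm_le_of_bounded hbdsum (by
    intro ρ
    by_cases hρ : ρ ∈ ZT T
    · simp only [hρ, if_true, hw, sub_self, norm_zero]
      have := mx_nonneg (ρ:ℂ)
      positivity
    · simp only [hρ, if_false, sub_zero]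
      have := Z1Aux.outer_bound hC hδ hT1 hVbd ht1 ht2 ρ hρ
      simp only [hV] at this
      rw [hzz]
      exact this)
  have harch := Z1Aux.arch_b (a := c - R) (by linarith) hC2 hVneg t
  -- the pole
  have hpole : ‖V (1 - ((1 / 2 : ℂ) + (t : ℂ) * Complex.I))‖ ≤ C / δ ^ 4 * T⁻¹ := by
    have hre : (1 - ((1 / 2 : ℂ) + (t : ℂ) * Complex.I)).re = 1 / 2 := by
      simp
      norm_num
    have him : (1 - ((1 / 2 : ℂ) + (t : ℂ) * Complex.I)).im = -t := by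
      simp
    refine (hVbd _ (by rw [hre]; norm_num)).trans ?_
    have ht0 : 0 < t := lt_of_lt_of_le (mul_pos hδ hT0) ht1
    rw [him, abs_neg, abs_of_pos ht0]
    have hden : (δ * T) ^ 4 ≤ (1 + t) ^ 4 := by
      have : δ * T ≤ 1 + t := by linarith
      gcongr
    have hden0 : 0 < (δ * T) ^ 4 := by positivity
    calc C * T / (1 + t) ^ 4 ≤ C * T / (δ * T) ^ 4 := by gcongr
      _ = C / δ ^ 4 * (1 / T ^ 3) := by
          rw [mul_pow]
          field_simp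
      _ ≤ C / δ ^ 4 * T⁻¹ := by
          have : 1 / T ^ 3 ≤ T⁻¹ := by
            rw [← one_div]
            apply one_div_le_one_div_of_le hT0
            nlinarith [mul_pos hT0 hT0, mul_nonneg (mul_pos hT0 hT0).le (by linarith : (0:ℝ) ≤ T - 1), mul_nonneg hT0.le (by linarith : (0:ℝ) ≤ T - 1)]
          have hc : 0 ≤ C / δ ^ 4 := by positivity
          exact mul_le_mul_of_nonneg_left this hc
  have harch2 : ‖∑' n : ℕ, V (-(2 * ((n : ℂ) + 1)) - ((1 / 2 : ℂ) + (t : ℂ) * Complex.I))‖ ≤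
      C2 * Real.exp (-(κ * Real.log T - R)) * K2 := by
    refine harch.trans ?_
    have : Real.exp (-(c - R)) ≤ Real.exp (-(κ * Real.log T - R)) := Real.exp_le_exp.mpr (by linarith)
    gcongr
  -- conclusion
  simp only [hV] at hpole harch2
  set A1 := Pool.Agent.Helper93.LP.LT w (((Real.log T : ℝ) : ℂ) * (1 - ((1 / 2 : ℂ) + (t : ℂ) * Complex.I))) with hA1
  set A2 := ∑' n : ℕ, Pool.Agent.Helper93.LP.LT w (((Real.log T : ℝ) : ℂ) * (-(2 * ((n : ℂ) + 1)) - ((1 / 2 : ℂ) + (t : ℂ) * Complex.I))) with hA2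
  have e : PP T w t + GG T w t = A1 - A2 - (A1 - A2 - PP T w t - GG T w t) := by ring
  rw [e]
  calc ‖A1 - A2 - (A1 - A2 - PP T w t - GG T w t)‖ ≤ ‖A1 - A2‖ + ‖A1 - A2 - PP T w t - GG T w t‖ := norm_sub_le _ _
    _ ≤ ‖A1‖ + ‖A2‖ + ‖A1 - A2 - PP T w t - GG T w t‖ := by gcongr; exact norm_sub_le _ _
    _ ≤ C / δ ^ 4 * T⁻¹ + C2 * Real.exp (-(κ * Real.log T - R)) * K2 + C * (2 / δ) ^ 4 / T * K := by
        gcongr
    _ ≤ ε := hTε.le

end Pool.Agent.Helper57.KP
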