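import Pool.Agent.Helper57.KP.L2
import Pool.Agent.Helper57.KP.Z1
import Pool.Agent.Helper57.FL.Fin

/-!
# KP-Z2: the lower bound for the form factor at scale `1/log T`

PROOF. As `main_zeros_gen` (Helper69/FF/XMain.lean) and `interval_form` (Results/MP_8958e8_nt/FormFactorBeyondOne.lean): `PP T w t = AA w T t` for `w = sw W c T`, support in `((c-R)/L, (c+R)/L) ⊂ (0, 2)` (`h32_PP_AB` in XMain, copy);
`‖AA‖² ≤ (1+κ')‖GG‖² + (1+1/κ') η²` on `[δT, (1-δ)T]` by `ef_s`; `(1/T) ∫_{δT}^{(1-δ)T} ‖GG‖² ≤ (1/T) ∫_ℝ ‖GG‖² = ∫ w² ff T` (`ff_planch`, Helper57/FL/Zla, for `SW w a b`, `T ≥ 3`), and `∫ (sw W c T x)² ff T x dx = ∫ W(y)² ff T ((y+c)/L) dy` (`y = L x - c`).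
-/

open MeasureTheory Set Filter Topology
open Pool.Agent.Helper57.Zeta Pool.Agent.Helper57.PC Pool.Agent.Helper57.LH Pool.Agent.Helper78.SG
open Pool.Agent.Helper4.SH (om)
open Pool.Agent.Helper69.FF
open scoped ContDiff

set_option autoImplicit false

namespace Pool.Agent.Helper57.KP

open Pool.Agent.Helper93.LP (PP GG) in
private theorem z2_PP_AA {w : ℝ → ℝ} {a b : ℝ} (hw : WR w a b) (hb : b < 2) {T : ℝ} (hT : 1 < T) (t : ℝ) :
    PP T (fun x => (w x : ℂ)) t = AA w T t := by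
  have hT0 : 0 < T := by linarith
  have hL : 0 < Real.log T := Real.log_pos hT
  have h1 := Pool.Agent.Helper93.LP.MVs.PP_eq hw (β := 2) hb hT t
  have hN : NX ((2 : ℝ) * Real.log T) = ⌊T ^ 2⌋₊ := by
    unfold NX
    congr 1
    have e : (2 : ℝ) * Real.log T = ((2 : ℕ) : ℝ) * Real.log T := by norm_num
    rw [e, Real.exp_nat_mul, Real.exp_log hT0]
  rw [h1, hN]
  unfold AA
  have hsub : Finset.Icc 1 ⌊T ^ 2⌋₊ ⊆ Finset.range (⌊T ^ 2⌋₊ + 1) := by
    intro n hn
    rw [Finset.mem_Icc] at hn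
    rw [Finset.mem_range]
    omega
  rw [Complex.ofReal_sum, Complex.ofReal_sum, Finset.sum_mul, ← Finset.sum_sub_distrib]
  symm
  rw [← Finset.sum_subset hsub (f := fun n => ((Pool.Agent.Helper93.LP.MVs.cc w (Real.log T) n * Real.cos (Real.log n * t) : ℝ) : ℂ) -
      ((Pool.Agent.Helper93.LP.MVs.cc w (Real.log T) n * Real.sin (Real.log n * t) : ℝ) : ℂ) * Complex.I)]
  · refine Finset.sum_congr rfl fun n hn => ?_
    rw [Finset.mem_Icc] at hn
    have hn0 : (0 : ℝ) < n := by exact_mod_cast hn.1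
    have hs : Real.sqrt n ≠ 0 := (Real.sqrt_pos.mpr hn0).ne'
    unfold Pool.Agent.Helper93.LP.MVs.cc xp
    have h2 : -(((t * Real.log n : ℝ) : ℂ) * Complex.I) = ((-(Real.log n * t) : ℝ) : ℂ) * Complex.I := by
      push_cast; ring
    rw [h2, Complex.exp_mul_I, ← Complex.ofReal_cos, ← Complex.ofReal_sin, Real.cos_neg, Real.sin_neg]
    have h3 : ArithmeticFunction.vonMangoldt n * w (Real.log n / Real.log T) / (Real.log T * Real.sqrt n) =
        ArithmeticFunction.vonMangoldt n / Real.sqrt n * w (Real.log n / Real.log T) / Real.log T := by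
      field_simp
    rw [h3]
    push_cast
    ring
  · intro n hn hn'
    rw [Finset.mem_range] at hn
    rw [Finset.mem_Icc] at hn'
    have : n = 0 := by omega
    subst this
    rw [Pool.Agent.Helper93.LP.MVs.cc_zero]
    simp

private theorem z2_AA_cont (w : ℝ → ℝ) (T : ℝ) : Continuous (fun t : ℝ => AA w T t) := by
  unfold AA
  refine continuous_finsetSum _ fun n _ => continuous_const.mul ?_
  unfold xp
  fun_prop

private theorem z2_W_int {W : ℝ → ℝ} {R : ℝ} (hW : PF W R) : 0 ≤ ∫ y, W y ^ 2 :=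
  integral_nonneg fun y => sq_nonneg _

private theorem z2_sw_WR {W : ℝ → ℝ} {R : ℝ} (hW : PF W R) (hR : 0 < R) {c T : ℝ} (hL : 0 < Real.log T) (hc : R < c) :
    WR (sw W c T) ((c - R) / Real.log T) ((c + R) / Real.log T) := by
  refine ⟨?_, by have : 0 < c - R := by linarith
                 positivity, by gcongr; linarith, ?_⟩
  · unfold sw
    exact contDiff_const.mul (hW.smooth.comp ((contDiff_const.mul contDiff_id).sub contDiff_const))
  · intro x hx
    have h1 : W (Real.log T * x - c) ≠ 0 := by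
      intro h
      apply hx
      unfold sw
      rw [h, mul_zero]
    have h2 := abs_le.mp (hW.supp _ h1)
    constructor
    · rw [div_le_iff₀ hL]
      nlinarith [h2.1]
    · rw [le_div_iff₀ hL]
      nlinarith [h2.2]

open Pool.Agent.Helper57.FL (ff) in
private theorem z2_subst (W : ℝ → ℝ) (c T : ℝ) (hL : 0 < Real.log T) :
    ∫ x : ℝ, sw W c T x ^ 2 * ff T x = ∫ y : ℝ, W y ^ 2 * ff T ((y + c) / Real.log T) := by
  obtain ⟨F, hF⟩ : ∃ F : ℝ → ℝ, F = fun y => W y ^ 2 * ff T ((y + c) / Real.log T) := ⟨_, rfl⟩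
  have e1 : (fun x : ℝ => sw W c T x ^ 2 * ff T x) = fun x => Real.log T * (fun z => F (z - c)) (Real.log T * x) := by
    funext x
    rw [hF]
    show (Real.sqrt (Real.log T) * W (Real.log T * x - c)) ^ 2 * ff T x =
      Real.log T * (W (Real.log T * x - c) ^ 2 * ff T ((Real.log T * x - c + c) / Real.log T))
    rw [mul_pow, Real.sq_sqrt hL.le]
    have e2 : (Real.log T * x - c + c) / Real.log T = x := by
      field_simp
      ring
    rw [e2]
    ring
  have e3 : (fun y : ℝ => W y ^ 2 * ff T ((y + c) / Real.log T)) = F := by rw [hF]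
  rw [e1, e3, integral_const_mul, MeasureTheory.Measure.integral_comp_mul_left (fun z => F (z - c)), integral_sub_right_eq_self F c,
    smul_eq_mul, abs_of_pos (inv_pos.mpr hL)]
  field_simp

open Pool.Agent.Helper57.FL (ff) in
theorem zeros_s {W : ℝ → ℝ} {R : ℝ} (hW : PF W R) (hR : 0 < R) {κ ε : ℝ} (hκ : 0 < κ) (hε : 0 < ε) :
    ∀ᶠ T : ℝ in atTop, ∀ c : ℝ, (1 + κ) * Real.log T ≤ c → c ≤ (3 / 2 - κ) * Real.log T →
    (3 / 2 - c / Real.log T) * (∫ y, W y ^ 2) - ε ≤ ∫ y, W y ^ 2 * ff T ((y + c) / Real.log T) := by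
  obtain ⟨V, hV⟩ : ∃ V : ℝ, V = ∫ y, W y ^ 2 := ⟨_, rfl⟩
  have hV0 : 0 ≤ V := by rw [hV]; exact z2_W_int hW
  rw [← hV]
  obtain ⟨δ, hδ, hδ2, hpr⟩ := primes_s hW hR hκ (ε := ε / 4) (by linarith)
  rw [← hV] at hpr
  obtain ⟨k, hkd⟩ : ∃ k : ℝ, k = ε / (4 * (V + 1)) := ⟨_, rfl⟩
  have hk : 0 < k := by rw [hkd]; positivity
  have hkV : k * (V + 1) = ε / 4 := by
    rw [hkd]
    field_simp
  obtain ⟨η, hηd⟩ : ∃ η : ℝ, η = Real.sqrt (ε / 4 / (1 + 1 / k)) := ⟨_, rfl⟩
  have hη : 0 < η := by rw [hηd]; positivity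
  have hη2 : (1 + 1 / k) * η ^ 2 = ε / 4 := by
    rw [hηd, Real.sq_sqrt (by positivity)]
    field_simp
  have hef := ef_s hW hR (κ := 1) (by norm_num) hδ hδ2 hη
  have hlog : Tendsto Real.log atTop atTop := Real.tendsto_log_atTop
  filter_upwards [hpr, hef, eventually_ge_atTop (3 : ℝ), hlog.eventually_gt_atTop (R + 2 * R + 1)] with T hT hE hT3 hLR c hc1 hc2
  have hT1 : 1 < T := by linarith
  have hT0 : 0 < T := by linarith
  have hL : 0 < Real.log T := Real.log_pos hT1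
  have hcL : Real.log T ≤ c := by nlinarith
  have hcR : R < c := by linarith
  have hc3 : c ≤ 3 / 2 * Real.log T := by nlinarith
  have hWR := z2_sw_WR hW hR (T := T) hL hcR
  have hSW : Pool.Agent.Helper57.FL.SW (sw W c T) ((c - R) / Real.log T) ((c + R) / Real.log T) := hWR
  have hb2 : (c + R) / Real.log T < 2 := by
    rw [div_lt_iff₀ hL]
    linarith
  have hWC := Pool.Agent.Helper93.LP.WR.toWC hWR
  have hAc := z2_AA_cont (sw W c T) T
  have hGc : Continuous (Pool.Agent.Helper93.LP.GG T (fun x => ((sw W c T x : ℝ) : ℂ))) := Pool.Agent.Helper93.LP.GG_cont hWC T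
  have hGc2 : Continuous (fun t => ‖Pool.Agent.Helper93.LP.GG T (fun x => ((sw W c T x : ℝ) : ℂ)) t‖ ^ 2) := hGc.norm.pow 2
  obtain ⟨p1, p2⟩ := Pool.Agent.Helper57.FL.ff_planch hSW hT3
  rw [z2_subst W c T hL] at p2
  rw [← p2]
  have hle : δ * T ≤ (1 - δ) * T := by nlinarith
  -- pointwise
  have h1 : (∫ t in (δ * T)..((1 - δ) * T), ‖AA (sw W c T) T t‖ ^ 2) ≤
      ∫ t in (δ * T)..((1 - δ) * T), ((1 + k) * ‖Pool.Agent.Helper93.LP.GG T (fun x => ((sw W c T x : ℝ) : ℂ)) t‖ ^ 2 + (1 + 1 / k) * η ^ 2) := by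
    refine intervalIntegral.integral_mono_on hle ?_ ?_ ?_
    · exact (hAc.norm.pow 2).intervalIntegrable _ _
    · exact ((continuous_const.mul hGc2).add continuous_const).intervalIntegrable _ _
    · intro t ht
      have h2 := hE c (by rw [one_mul]; exact hcL) hc3 t ht.1 ht.2
      rw [z2_PP_AA hWR hb2 hT1] at h2
      obtain ⟨x, hx⟩ : ∃ x : ℝ, x = ‖Pool.Agent.Helper93.LP.GG T (fun x => ((sw W c T x : ℝ) : ℂ)) t‖ := ⟨_, rfl⟩
      have h3 : ‖AA (sw W c T) T t‖ ≤ x + η := by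
        have h4 : AA (sw W c T) T t = (AA (sw W c T) T t + Pool.Agent.Helper93.LP.GG T (fun x => ((sw W c T x : ℝ) : ℂ)) t) -
            Pool.Agent.Helper93.LP.GG T (fun x => ((sw W c T x : ℝ) : ℂ)) t := by ring
        rw [h4, hx]
        refine (norm_sub_le _ _).trans ?_
        linarith
      rw [← hx]
      have h5 : ‖AA (sw W c T) T t‖ ^ 2 ≤ (x + η) ^ 2 := pow_le_pow_left₀ (norm_nonneg _) h3 2
      refine h5.trans ?_
      have h6 : 0 ≤ k * (x - η / k) ^ 2 := by positivity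
      have h7 : k * (x - η / k) ^ 2 = k * x ^ 2 - 2 * x * η + 1 / k * η ^ 2 := by
        field_simp
        ring
      nlinarith
  have h9 : (∫ t in (δ * T)..((1 - δ) * T), ((1 + k) * ‖Pool.Agent.Helper93.LP.GG T (fun x => ((sw W c T x : ℝ) : ℂ)) t‖ ^ 2 + (1 + 1 / k) * η ^ 2)) =
      (1 + k) * (∫ t in (δ * T)..((1 - δ) * T), ‖Pool.Agent.Helper93.LP.GG T (fun x => ((sw W c T x : ℝ) : ℂ)) t‖ ^ 2) +
        ((1 - δ) * T - δ * T) * (ε / 4) := by
    have c1 : Continuous (fun t => (1 + k) * ‖Pool.Agent.Helper93.LP.GG T (fun x => ((sw W c T x : ℝ) : ℂ)) t‖ ^ 2) := continuous_const.mul hGc2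
    rw [intervalIntegral.integral_add (c1.intervalIntegrable _ _)
      (continuous_const.intervalIntegrable _ _), intervalIntegral.integral_const_mul, intervalIntegral.integral_const,
      hη2, smul_eq_mul]
  have h10 : (∫ t in (δ * T)..((1 - δ) * T), ‖Pool.Agent.Helper93.LP.GG T (fun x => ((sw W c T x : ℝ) : ℂ)) t‖ ^ 2) ≤
      ∫ t : ℝ, ‖Pool.Agent.Helper93.LP.GG T (fun x => ((sw W c T x : ℝ) : ℂ)) t‖ ^ 2 := by
    rw [intervalIntegral.integral_of_le hle]
    exact setIntegral_le_integral p1 (Filter.Eventually.of_forall fun t => by positivity)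
  obtain ⟨I, hI⟩ : ∃ I : ℝ, I = ∫ t : ℝ, ‖Pool.Agent.Helper93.LP.GG T (fun x => ((sw W c T x : ℝ) : ℂ)) t‖ ^ 2 := ⟨_, rfl⟩
  have hI0 : 0 ≤ I := by
    rw [hI]
    exact integral_nonneg fun t => by positivity
  rw [← hI] at h10 ⊢
  obtain ⟨X, hX⟩ : ∃ X : ℝ, X = (1 / T) * I := ⟨_, rfl⟩
  have hX0 : 0 ≤ X := by rw [hX]; positivity
  rw [← hX]
  obtain ⟨U, hU⟩ : ∃ U : ℝ, U = (3 / 2 - c / Real.log T) * V := ⟨_, rfl⟩
  have hTc := hT c hc1 hc2
  rw [← hU] at hTc ⊢
  have hUV : U ≤ V := by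
    rw [hU]
    have h11 : 1 ≤ c / Real.log T := by
      rw [le_div_iff₀ hL]
      linarith
    nlinarith
  have h12 : U - ε / 4 ≤ (1 + k) * X + ε / 4 := by
    refine hTc.trans ?_
    have h13 : (1 / T) * (∫ t in (δ * T)..((1 - δ) * T), ‖AA (sw W c T) T t‖ ^ 2) ≤
        (1 / T) * ((1 + k) * I + T * (ε / 4)) := by
      refine mul_le_mul_of_nonneg_left ?_ (by positivity)
      refine h1.trans ?_
      rw [h9]
      have h14 : ((1 - δ) * T - δ * T) * (ε / 4) ≤ T * (ε / 4) := by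
        refine mul_le_mul_of_nonneg_right ?_ (by linarith)
        nlinarith
      have h15 := mul_le_mul_of_nonneg_left h10 (by linarith : (0:ℝ) ≤ 1 + k)
      linarith
    refine h13.trans (le_of_eq ?_)
    rw [hX]
    field_simp
  by_cases hneg : U - ε ≤ 0
  · linarith
  · push Not at hneg
    have h11 : k * (U - ε) ≤ ε / 4 := by
      rw [← hkV]
      refine mul_le_mul_of_nonneg_left ?_ hk.le
      linarith
    have h16 : (1 + k) * (U - ε) ≤ (1 + k) * X := by nlinarith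
    exact le_of_mul_le_mul_left h16 (by linarith)

end Pool.Agent.Helper57.KP
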